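import Pool.Agent.TH869.EVF.Bad
import Pool.Agent.TH869.EVF.Zb
import Pool.Agent.TH869.EVF.Gen

set_option autoImplicit false

/-! Small primes that are norms, on average over the constant term. -/

namespace Pool.Agent.Y159.PF

open Polynomial NumberField Finset Filter Pool.Agent.TH869.EVF
open scoped Classical

theorem PR_blocks (Y : ℕ) : ∀ L : ℕ, (PR Y).card ≤
    ∑ i ∈ range L, (Qz (Y / 2 ^ i)).card + (PR (Y / 2 ^ L)).card := by
  intro L
  induction L with
  | zero => simp
  | succ L ih =>
    rw [Finset.sum_range_succ]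
    have h1 := PR_split (Y / 2 ^ L)
    have h2 : (PR (Y / 2 ^ L)).card ≤ (PR (Y / 2 ^ L / 2)).card + (Qz (Y / 2 ^ L)).card := by
      conv_lhs => rw [h1]
      exact card_union_le _ _
    rw [Nat.div_div_eq_div_mul, ← pow_succ] at h2
    omega

/-- a dyadic block with many primes -/
theorem exists_block (δ : ℝ) (hδ : 0 < δ) (hδ1 : δ ≤ 1 / 2) : ∃ Y0 : ℝ, 1 ≤ Y0 ∧ ∀ y : ℝ, Y0 ≤ y →
    ∃ z : ℕ, (z : ℝ) ≤ y ∧ y ^ (1 - δ) ≤ (Qz z).card := by
  obtain ⟨Y1, hY11, hY1⟩ := PP_lower (δ / 2) (by positivity) (by linarith)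
  have h3 : ∀ᶠ x : ℝ in atTop, ‖Real.log x‖ ≤ (1 / 4) * ‖x ^ (δ / 2)‖ :=
    (isLittleO_log_rpow_atTop (by positivity)).bound (by norm_num)
  have h4 : ∀ᶠ x : ℝ in atTop, (2 : ℝ) ≤ x ^ (δ / 2) :=
    (tendsto_rpow_atTop (by positivity)).eventually_ge_atTop _
  obtain ⟨Y2, hY2⟩ := eventually_atTop.mp (h3.and h4)
  refine ⟨max Y1 (max Y2 1), hY11.trans (le_max_left _ _), ?_⟩
  intro y hy
  have hyY1 : Y1 ≤ y := (le_max_left _ _).trans hy
  have hyY2 : Y2 ≤ y := ((le_max_left _ _).trans (le_max_right _ _)).trans hy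
  have hy1 : 1 ≤ y := ((le_max_right _ _).trans (le_max_right _ _)).trans hy
  have hy0 : 0 < y := by linarith
  obtain ⟨e1, e2⟩ := hY2 y hyY2
  have h5 := hY1 y hyY1
  set Y : ℕ := ⌊y⌋₊ with hY
  have hY1' : 1 ≤ Y := Nat.le_floor (by exact_mod_cast hy1)
  have h6 : (PP (δ / 2) y).card ≤ (PR Y).card := by
    refine card_le_card ?_
    intro p hp
    obtain ⟨hpp, -, hpy⟩ := mem_PP hy0.le hp
    rw [PR, mem_filter, mem_range]
    have := Nat.le_floor hpy
    exact ⟨by omega, hpp⟩
  set L : ℕ := Nat.log 2 Y + 1 with hL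
  have h7 := PR_blocks Y L
  have h8 : Y / 2 ^ L = 0 := Nat.div_eq_of_lt (Nat.lt_pow_succ_log_self (by norm_num) Y)
  have h9 : (PR 0).card = 0 := by decide
  rw [h8, h9, add_zero] at h7
  have hLr : (L : ℝ) ≤ y ^ (δ / 2) := by
    have h10 : (Nat.log 2 Y : ℝ) ≤ 2 * Real.log Y := by
      have h11 : (2 : ℝ) ^ (Nat.log 2 Y) ≤ Y := by exact_mod_cast Nat.pow_log_le_self 2 (by omega)
      have h12 := Real.log_le_log (by positivity) h11
      rw [Real.log_pow] at h12
      have h13 := Real.log_two_gt_d9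
      have h14 : (0 : ℝ) ≤ Nat.log 2 Y := by positivity
      nlinarith
    have h15 : Real.log Y ≤ Real.log y :=
      Real.log_le_log (by exact_mod_cast hY1') (Nat.floor_le hy0.le)
    rw [Real.norm_of_nonneg (Real.log_nonneg hy1),
      Real.norm_of_nonneg (by positivity)] at e1
    rw [hL]; push_cast
    linarith
  have hL0 : (0 : ℝ) < L := by rw [hL]; positivity
  by_contra hcon
  push Not at hcon
  have h10 : ∀ i ∈ range L, ((Qz (Y / 2 ^ i)).card : ℝ) < y ^ (1 - δ) := by
    intro i _
    refine hcon _ ?_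
    calc ((Y / 2 ^ i : ℕ) : ℝ) ≤ (Y : ℝ) := by exact_mod_cast Nat.div_le_self _ _
      _ ≤ y := Nat.floor_le hy0.le
  have h11 : ((∑ i ∈ range L, (Qz (Y / 2 ^ i)).card : ℕ) : ℝ) < L * y ^ (1 - δ) := by
    rw [Nat.cast_sum]
    have hne : (range L).Nonempty := by rw [Finset.nonempty_range_iff]; omega
    calc ∑ i ∈ range L, ((Qz (Y / 2 ^ i)).card : ℝ) < ∑ i ∈ range L, y ^ (1 - δ) :=
          Finset.sum_lt_sum_of_nonempty hne h10
      _ = L * y ^ (1 - δ) := by rw [sum_const, card_range, nsmul_eq_mul]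
  have h12 : y ^ (1 - δ / 2) ≤ ((∑ i ∈ range L, (Qz (Y / 2 ^ i)).card : ℕ) : ℝ) := by
    refine h5.trans ?_
    exact_mod_cast h6.trans h7
  have h13 : (L : ℝ) * y ^ (1 - δ) ≤ y ^ (1 - δ / 2) := by
    calc (L : ℝ) * y ^ (1 - δ) ≤ y ^ (δ / 2) * y ^ (1 - δ) := by gcongr
      _ = _ := by rw [← Real.rpow_add hy0]; congr 1; ring
  linarith

/-- the polynomial `f - t` has a simple root modulo `p` -/
def Rt (f : ℤ[X]) (p : ℕ) (t : ZMod p) : Prop :=
  ∃ r : ZMod p, f.eval₂ (Int.castRingHom (ZMod p)) r = t ∧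
    (derivative f).eval₂ (Int.castRingHom (ZMod p)) r ≠ 0

/-- many values are taken at a simple root -/
theorem card_Rt {n : ℕ} {f : ℤ[X]} (hf : f.Monic) (hn : f.natDegree = n) (hn1 : 1 ≤ n)
    {p : ℕ} (hp : p.Prime) (hpn : n < p) :
    letI : Fact p.Prime := ⟨hp⟩
    p ≤ n * (Finset.univ.filter (fun a : ZMod p => Rt f p a)).card + (n - 1) := by
  have : Fact p.Prime := ⟨hp⟩
  set g : (ZMod p)[X] := f.map (Int.castRingHom (ZMod p)) with hg
  have hgm : g.Monic := hf.map _
  have hgn : g.natDegree = n := by rw [hg, hf.natDegree_map, hn]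
  have hev : ∀ r : ZMod p, f.eval₂ (Int.castRingHom (ZMod p)) r = g.eval r := by
    intro r; rw [hg, eval_map]
  have hev' : ∀ r : ZMod p, (derivative f).eval₂ (Int.castRingHom (ZMod p)) r =
      (derivative g).eval r := by
    intro r; rw [hg, derivative_map, eval_map]
  have hd0 : derivative g ≠ 0 := by
    intro h
    have h1 := congrArg (fun q => coeff q (n - 1)) h
    simp only [coeff_zero, coeff_derivative] at h1
    have e : n - 1 + 1 = n := by omega
    have h2 : g.coeff n = 1 := by rw [← hgn]; exact hgm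
    rw [e, h2, one_mul] at h1
    have h3 : ((n : ℕ) : ZMod p) = 0 := by
      have e2 : ((n - 1 : ℕ) : ZMod p) + 1 = ((n : ℕ) : ZMod p) := by
        have e3 := congrArg (Nat.cast : ℕ → ZMod p) e
        rwa [Nat.cast_add, Nat.cast_one] at e3
      rw [← e2]; exact h1
    rw [ZMod.natCast_eq_zero_iff] at h3
    exact absurd (Nat.le_of_dvd (by omega) h3) (by omega)
  -- the points that are not critical
  set A : Finset (ZMod p) := Finset.univ.filter (fun r => (derivative g).eval r ≠ 0) with hA
  set B : Finset (ZMod p) := Finset.univ.filter (fun a => Rt f p a) with hB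
  have h1 : p ≤ A.card + (n - 1) := by
    have h2 : (Finset.univ.filter (fun r : ZMod p => ¬ (derivative g).eval r ≠ 0)).card ≤ n - 1 := by
      have h3 : (Finset.univ.filter (fun r : ZMod p => ¬ (derivative g).eval r ≠ 0)) ⊆
          (derivative g).roots.toFinset := by
        intro r hr
        rw [mem_filter] at hr
        rw [Multiset.mem_toFinset, mem_roots hd0, IsRoot.def]
        exact not_not.mp hr.2
      calc _ ≤ _ := card_le_card h3
        _ ≤ Multiset.card (derivative g).roots := Multiset.toFinset_card_le _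
        _ ≤ (derivative g).natDegree := card_roots' _
        _ ≤ n - 1 := by
            have := natDegree_derivative_le g
            rwa [hgn] at this
    have h4 : A.card + (Finset.univ.filter (fun r : ZMod p => ¬ (derivative g).eval r ≠ 0)).card =
        p := by
      have h5 := Finset.card_filter_add_card_filter_not
        (s := (Finset.univ : Finset (ZMod p))) (fun r => (derivative g).eval r ≠ 0)
      rw [Finset.card_univ, ZMod.card] at h5
      rw [hA]
      convert h5 using 3
    omega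
  have h2 : A.card ≤ n * B.card := by
    have h3 : ∀ a ∈ B, (A.filter (fun r => g.eval r = a)).card ≤ n := by
      intro a _
      have hne : g - C a ≠ 0 := by
        intro h
        have h5 : (g - C a).natDegree = n := by rw [natDegree_sub_C, hgn]
        rw [h, natDegree_zero] at h5
        omega
      have h4 : A.filter (fun r => g.eval r = a) ⊆ (g - C a).roots.toFinset := by
        intro r hr
        rw [mem_filter] at hr
        rw [Multiset.mem_toFinset, mem_roots hne, IsRoot.def, eval_sub, eval_C, hr.2, sub_self]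
      calc _ ≤ _ := card_le_card h4
        _ ≤ Multiset.card (g - C a).roots := Multiset.toFinset_card_le _
        _ ≤ (g - C a).natDegree := card_roots' _
        _ = n := by rw [natDegree_sub_C, hgn]
    have h4 := Finset.card_le_mul_card_image_of_maps_to (s := A) (t := B) (f := fun r => g.eval r)
      (by
        intro r hr
        rw [hA, mem_filter] at hr
        rw [hB, mem_filter]
        exact ⟨mem_univ _, r, hev r, by rw [hev']; exact hr.2⟩) n h3
    exact h4
  omega

end Pool.Agent.Y159.PF
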