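import Pool.Agent.Y159.PF.Rts

set_option autoImplicit false

/-! Small primes that are norms, on average over the constant term. -/

namespace Pool.Agent.Y159.PF

open Polynomial NumberField Finset Filter Pool.Agent.TH869.EVF
open scoped Classical

/-- the indicator function -/
noncomputable def ind (f : ℤ[X]) (N p j : ℕ) : ℝ :=
  if Rt f p (((j : ℤ) - N : ℤ) : ZMod p) then 1 else 0

/-- its mean value -/
noncomputable def den (f : ℤ[X]) (N p : ℕ) : ℝ := (∑ j ∈ range p, ind f N p j) / p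

theorem ind_nonneg (f : ℤ[X]) (N p j : ℕ) : 0 ≤ ind f N p j := by
  unfold ind; split_ifs <;> norm_num

theorem ind_le_one (f : ℤ[X]) (N p j : ℕ) : ind f N p j ≤ 1 := by
  unfold ind; split_ifs <;> norm_num

theorem ind_per (f : ℤ[X]) (N p j : ℕ) : ind f N p (j + p) = ind f N p j := by
  unfold ind
  have e : ((((j + p : ℕ) : ℤ) - N : ℤ) : ZMod p) = (((j : ℤ) - N : ℤ) : ZMod p) := by
    push_cast
    rw [ZMod.natCast_self, add_zero]
  rw [e]

theorem den_nonneg (f : ℤ[X]) (N p : ℕ) : 0 ≤ den f N p :=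
  div_nonneg (Finset.sum_nonneg fun _ _ => ind_nonneg _ _ _ _) (by positivity)

theorem den_le_one (f : ℤ[X]) (N p : ℕ) : den f N p ≤ 1 := by
  unfold den
  refine div_le_one_of_le₀ ?_ (by positivity)
  calc ∑ j ∈ range p, ind f N p j ≤ ∑ j ∈ range p, (1 : ℝ) :=
        Finset.sum_le_sum fun _ _ => ind_le_one _ _ _ _
    _ = p := by simp

theorem den_ge {n : ℕ} {f : ℤ[X]} (hf : f.Monic) (hn : f.natDegree = n) (hn1 : 1 ≤ n)
    (N : ℕ) {p : ℕ} (hp : p.Prime) (hpn : 2 * n ≤ p) : 1 / (2 * (n : ℝ)) ≤ den f N p := by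
  have : Fact p.Prime := ⟨hp⟩
  have h1 := card_Rt hf hn hn1 hp (by omega)
  set B : Finset (ZMod p) := Finset.univ.filter (fun a : ZMod p => Rt f p a) with hB
  have h2 : (B.card : ℝ) ≤ ∑ j ∈ range p, ind f N p j := by
    have h3 : ∑ j ∈ range p, ind f N p j =
        (((range p).filter (fun j : ℕ => Rt f p (((j : ℤ) - N : ℤ) : ZMod p))).card : ℝ) := by
      unfold ind
      rw [← Finset.sum_filter, Finset.sum_const, nsmul_eq_mul, mul_one]
    rw [h3]
    have h4 : B.card ≤ ((range p).filter (fun j : ℕ => Rt f p (((j : ℤ) - N : ℤ) : ZMod p))).card := by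
      refine Finset.card_le_card_of_injOn (fun a => (a + (N : ZMod p)).val) ?_ ?_
      · intro a ha
        rw [Finset.mem_coe, hB, mem_filter] at ha
        rw [Finset.mem_coe, mem_filter, mem_range]
        refine ⟨ZMod.val_lt _, ?_⟩
        have e : ((((a + (N : ZMod p)).val : ℤ) - N : ℤ) : ZMod p) = a := by
          push_cast
          rw [ZMod.natCast_zmod_val]
          ring
        rw [e]
        exact ha.2
      · intro a _ b _ hab
        have := ZMod.val_injective p hab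
        exact add_right_cancel this
    exact_mod_cast h4
  have hp0 : (0 : ℝ) < p := by exact_mod_cast hp.pos
  have hn0 : (0 : ℝ) < n := by exact_mod_cast hn1
  have hpn' : 2 * (n : ℝ) ≤ p := by exact_mod_cast hpn
  have h3 : (p : ℝ) ≤ n * B.card + (n - 1) := by
    have h4 : ((n - 1 : ℕ) : ℝ) = (n : ℝ) - 1 := by
      rw [Nat.cast_sub hn1]; norm_num
    rw [← h4]
    exact_mod_cast h1
  unfold den
  rw [div_le_div_iff₀ (by positivity) hp0]
  nlinarith

theorem supply_const (n m : ℕ) (hn1 : 1 ≤ n) (hm : 1 ≤ m) : ∃ C : ℝ, 0 < C ∧ ∀ z : ℕ,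
    16 * n * m ≤ (Qz z).card → 4 * n ≤ z → ∀ f : ℤ[X], f.Monic → f.natDegree = n → ∀ N : ℕ, 1 ≤ N →
    ∀ S : Finset ℤ, (∀ t ∈ S, |t| ≤ N) →
    ((S.filter (fun t => (((Qz z).filter (fun p => Rt f p (t : ZMod p))).card : ℝ) <
      (Qz z).card / (4 * n))).card : ℝ) ≤
      C * (N * (1 / ((Qz z).card : ℝ)) ^ m + ((z : ℝ) ^ 2) ^ m) := by
  have hn0 : (0 : ℝ) < n := by exact_mod_cast hn1
  set σ : ℝ := 1 / (4 * n) with hσ
  have hσ0 : 0 < σ := by positivity
  set k : ℕ := 16 * n * m with hk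
  have hk1 : 1 ≤ k := by
    rw [hk]
    have : 0 < 16 * n * m := by positivity
    omega
  set c1 : ℝ := 8 * (1 + 4 * (0 : ℝ) ^ 2) * k / σ ^ 2 with hc1
  have hc10 : 0 < c1 := by
    have : (0 : ℝ) < k := by exact_mod_cast hk1
    rw [hc1]; positivity
  refine ⟨2 ^ k * (3 * c1 ^ m + ((4 / σ) ^ 2) ^ m), by positivity, ?_⟩
  intro z hz1 hz2 f hf hn N hN S hS
  set P := Qz z with hP
  have hz0 : (0 : ℝ) < z := by
    have : 0 < z := by omega
    exact_mod_cast this
  have hP0 : (0 : ℝ) < P.card := by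
    have : 0 < P.card := by omega
    exact_mod_cast this
  set ψ : ℕ → ℕ → ℝ := fun p j => ind f N p j - den f N p with hψ
  have hmom := moment_bad ψ 0 ((z : ℝ) / 2) z le_rfl (by positivity) (by omega) P
    (fun p hp => mem_Qz hp) (by
      intro p _ j
      rw [hψ]
      simp only
      rw [ind_per]) (by
      intro p j
      rw [hψ]
      simp only
      rw [abs_le]
      have h1 := ind_nonneg f N p j
      have h2 := ind_le_one f N p j
      have h3 := den_nonneg f N p
      have h4 := den_le_one f N p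
      constructor <;> linarith) (by
      intro p hp
      rw [hψ]
      simp only
      have hpp := (mem_Qz hp).1
      have hp0 : (p : ℝ) ≠ 0 := by exact_mod_cast hpp.ne_zero
      rw [Finset.sum_sub_distrib, Finset.sum_const, card_range, nsmul_eq_mul]
      have : (p : ℝ) * den f N p = ∑ j ∈ range p, ind f N p j := by
        unfold den; field_simp
      rw [this, sub_self, abs_zero, zero_mul]) (2 * N + 1) m k hk1 hz1 σ hσ0 (by
      rw [hσ, hk]; push_cast; field_simp; norm_num) (by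
      have := card_Qz z
      linarith)
  set E := S.filter (fun t => ((P.filter (fun p => Rt f p (t : ZMod p))).card : ℝ) <
      P.card / (4 * n)) with hE
  have hinj : (E.card : ℝ) ≤
      (((range (2 * N + 1)).filter (fun j => σ * P.card < |∑ p ∈ P, ψ p j|)).card : ℝ) := by
    have h1 : E.card ≤ ((range (2 * N + 1)).filter
        (fun j => σ * P.card < |∑ p ∈ P, ψ p j|)).card := by
      refine Finset.card_le_card_of_injOn (fun t => (t + (N : ℤ)).toNat) ?_ ?_
      · intro t ht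
        rw [Finset.mem_coe, hE, mem_filter] at ht
        obtain ⟨htS, ht⟩ := ht
        have htN := abs_le.mp (hS t htS)
        have hlt : (t + (N : ℤ)).toNat < 2 * N + 1 := by omega
        rw [Finset.mem_coe, mem_filter, mem_range]
        refine ⟨hlt, ?_⟩
        have hj : (((t + (N : ℤ)).toNat : ℤ) - N : ℤ) = t := by
          rw [Int.toNat_of_nonneg (by omega)]; ring
        have h2 : ∑ p ∈ P, ψ p (t + (N : ℤ)).toNat =
            ((P.filter (fun p => Rt f p (t : ZMod p))).card : ℝ) - ∑ p ∈ P, den f N p := by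
          rw [hψ]
          simp only
          rw [Finset.sum_sub_distrib]
          congr 1
          unfold ind
          rw [hj, ← Finset.sum_filter, Finset.sum_const, nsmul_eq_mul, mul_one]
        have h3 : (P.card : ℝ) * (1 / (2 * n)) ≤ ∑ p ∈ P, den f N p := by
          have h4 := Finset.card_nsmul_le_sum P (fun p => den f N p) (1 / (2 * (n : ℝ))) (by
            intro p hp
            have h5 := mem_Qz hp
            refine den_ge hf hn hn1 N h5.1 ?_
            have h6 : (z : ℝ) ≤ 2 * p := by linarith [h5.2.1]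
            have h7 : z ≤ 2 * p := by exact_mod_cast h6
            omega)
          rwa [nsmul_eq_mul] at h4
        rw [h2]
        have h5 : (P.card : ℝ) * (1 / (2 * n)) = P.card / (4 * n) + σ * P.card := by
          rw [hσ]; field_simp; norm_num
        refine lt_of_lt_of_le ?_ (neg_le_abs _)
        linarith
      · intro t ht t' ht' htt
        rw [Finset.mem_coe, hE, mem_filter] at ht ht'
        have h1 := abs_le.mp (hS t ht.1)
        have h2 := abs_le.mp (hS t' ht'.1)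
        simp only at htt
        omega
    exact_mod_cast h1
  refine hinj.trans (hmom.trans ?_)
  have hNr : (1 : ℝ) ≤ N := by exact_mod_cast hN
  have e1 : 8 * (1 + 4 * (0 : ℝ) ^ 2) * k / (σ ^ 2 * P.card) = c1 * (1 / (P.card : ℝ)) := by
    rw [hc1]; field_simp
  have e2 : (4 * (z : ℝ) / σ) ^ 2 = (4 / σ) ^ 2 * (z : ℝ) ^ 2 := by ring
  rw [e1, e2, mul_pow, mul_pow]
  have h1 : ((2 * N + 1 : ℕ) : ℝ) ≤ 3 * N := by push_cast; linarith
  set A : ℝ := (1 / (P.card : ℝ)) ^ m with hA
  set B : ℝ := ((z : ℝ) ^ 2) ^ m with hB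
  have hA0 : 0 ≤ A := by positivity
  have hB0 : 0 ≤ B := by positivity
  set a1 : ℝ := c1 ^ m with ha1
  set b1 : ℝ := ((4 / σ) ^ 2) ^ m with hb1
  have ha10 : 0 ≤ a1 := by positivity
  have hb10 : 0 ≤ b1 := by positivity
  calc 2 ^ k * (((2 * N + 1 : ℕ) : ℝ) * (a1 * A) + b1 * B)
      ≤ 2 ^ k * ((3 * N) * (a1 * A) + b1 * B) := by gcongr
    _ ≤ 2 ^ k * ((3 * a1 + b1) * (N * A + B)) := by
        have h2 : 0 ≤ b1 * (N * A) := by positivity
        have h3 : 0 ≤ 3 * a1 * B := by positivity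
        have h4 : (3 * a1 + b1) * (N * A + B) = (3 * N) * (a1 * A) + b1 * B + b1 * (N * A) +
          3 * a1 * B := by ring
        apply mul_le_mul_of_nonneg_left _ (by positivity)
        rw [h4]
        linarith
    _ = _ := by ring

/-- **Supply of small primes.** -/
theorem supply (n m : ℕ) (hn1 : 1 ≤ n) (hm : 1 ≤ m) (δ : ℝ) (hδ : 0 < δ) (hδ1 : δ ≤ 1 / 2) :
    ∃ C Y0 : ℝ, 0 < C ∧ 1 ≤ Y0 ∧ ∀ y : ℝ, Y0 ≤ y → ∃ z : ℕ, (z : ℝ) ≤ y ∧
    y ^ (1 - δ) ≤ (Qz z).card ∧ ∀ f : ℤ[X], f.Monic → f.natDegree = n → ∀ N : ℕ, 1 ≤ N →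
    ∀ S : Finset ℤ, (∀ t ∈ S, |t| ≤ N) →
    ((S.filter (fun t => (((Qz z).filter (fun p => Rt f p (t : ZMod p))).card : ℝ) <
      (Qz z).card / (4 * n))).card : ℝ) ≤
      C * (N * y ^ (-((1 - δ) * m)) + y ^ (2 * m)) := by
  obtain ⟨C, hC0, hC⟩ := supply_const n m hn1 hm
  obtain ⟨Y1, hY11, hY1⟩ := exists_block δ hδ hδ1
  have h1 : ∀ᶠ x : ℝ in atTop, ((16 * n * m + 4 * n : ℕ) : ℝ) ≤ x ^ (1 - δ) :=
    (tendsto_rpow_atTop (by linarith)).eventually_ge_atTop _
  obtain ⟨Y2, hY2⟩ := eventually_atTop.mp h1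
  refine ⟨C, max Y1 Y2, hC0, hY11.trans (le_max_left _ _), ?_⟩
  intro y hy
  have hyY1 : Y1 ≤ y := (le_max_left _ _).trans hy
  have hy0 : 0 < y := by linarith
  obtain ⟨z, hz1, hz2⟩ := hY1 y hyY1
  have h2 := hY2 y ((le_max_right _ _).trans hy)
  refine ⟨z, hz1, hz2, ?_⟩
  intro f hf hn N hN S hS
  have h3 : 16 * n * m + 4 * n ≤ (Qz z).card := by exact_mod_cast h2.trans hz2
  have h4 : (Qz z).card ≤ z := by
    have := card_Qz z
    have h5 : ((Qz z).card : ℝ) ≤ z := by linarith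
    exact_mod_cast h5
  have hz0 : 0 < z := by omega
  refine (hC z (by omega) (by omega) f hf hn N hN S hS).trans ?_
  have hyp : 0 < y ^ (1 - δ) := Real.rpow_pos_of_pos hy0 _
  have h5 : (1 / ((Qz z).card : ℝ)) ^ m ≤ y ^ (-((1 - δ) * m)) := by
    have e : y ^ (-((1 - δ) * m)) = (1 / y ^ (1 - δ)) ^ m := by
      rw [Real.rpow_neg hy0.le, Real.rpow_mul hy0.le, Real.rpow_natCast, one_div, inv_pow]
    rw [e]
    gcongr
  have h6 : ((z : ℝ) ^ 2) ^ m ≤ y ^ (2 * m) := by
    rw [pow_mul]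
    gcongr
  gcongr

end Pool.Agent.Y159.PF
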