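import Pool.Agent.Y159.PF.Single
import Pool.Agent.Y159.PF.Supply
import Pool.Agent.Y159.PT.Lev2

set_option autoImplicit false

/-! The two alternatives at one level. -/

namespace Pool.Agent.Y159.PF

open Polynomial NumberField Finset Pool.Agent.TH847.LG Pool.Agent.Y159.PT Pool.Agent.TH869.EVF
open scoped Classical nonZeroDivisors

/-- the inequality for one member, in terms of the height of the family -/
theorem single2 (n : ℕ) (hn2 : 2 ≤ n) (ε : ℝ) (hε : 0 < ε) : ∃ C : ℝ, 0 < C ∧ ∀ l : ℕ, 1 ≤ l →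
    ∀ η : ℝ, 0 < η → ∀ H : ℕ, 1 ≤ H → ∀ f : ℤ[X], f.Monic → f.natDegree = n →
    (∀ i < n, |f.coeff i| ≤ (H : ℤ) ^ (n - i)) → ∀ t : ℤ, |t| ≤ (H : ℤ) ^ n →
    ∀ (K : Type) [Field K] [NumberField K], Module.finrank ℚ K = n → ∀ α : K,
    IntermediateField.adjoin ℚ {α} = ⊤ → aeval α f = (t : K) →
    (∀ w : InfinitePlace K, η * (H : ℝ) ^ (n - 1) ≤ w (aeval α (derivative f))) →
    ∃ k R : ℕ, k ≠ 0 ∧ R ≠ 0 ∧
      (R : ℝ) ≤ C * (H : ℝ) ^ ((n : ℝ) * (n - 1)) ∧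
      ∀ y a : ℝ, 0 < y → n * k * (150 * y) ^ l / (η * (H : ℝ) ^ (n - 1)) ≤ a → ∀ P : Finset ℕ,
      (∀ p ∈ P, p.Prime ∧ (p : ℝ) ≤ y) →
      (Nat.card {c : ClassGroup (𝓞 K) // c ^ l = 1} : ℝ) * k *
        (((P.filter (fun p => Rt f p (t : ZMod p) ∧ ¬ p ∣ R ∧ ¬ (p : ℤ) ∣ f.eval 0 - t ∧
          ¬ BadF f l a (3 * H * a) (3 * H * (3 * H * a)) t p)).card : ℝ) + 1) ≤
        C * (H : ℝ) ^ ((n : ℝ) * (n - 1) / 2 + ε) := by
  have hnr : (2 : ℝ) ≤ n := by exact_mod_cast hn2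
  have hnn : 0 < (n : ℝ) * (n - 1) := by nlinarith
  set δ : ℝ := min (ε / ((n : ℝ) * (n - 1))) (1 / 2) with hδ
  have hδ0 : 0 < δ := lt_min (div_pos hε hnn) (by norm_num)
  have hδε : (n : ℝ) * (n - 1) * δ ≤ ε := by
    have h1 : δ ≤ ε / ((n : ℝ) * (n - 1)) := min_le_left _ _
    rw [le_div_iff₀ hnn] at h1
    linarith
  have hδh : δ ≤ 1 / 2 := min_le_right _ _
  obtain ⟨C, hC0, hC⟩ := single n hn2 δ hδ0
  set A : ℝ := ((n : ℝ) ^ 2 * 3 ^ n) ^ n with hA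
  have hA1 : 1 ≤ A := by
    rw [hA]
    apply one_le_pow₀
    have h1 : (1 : ℝ) ≤ 3 ^ n := one_le_pow₀ (by norm_num)
    nlinarith
  refine ⟨A + C * A, by positivity, ?_⟩
  intro l hl η hη H hH f hf hn hco t ht K _ _ hK α hα h0 hder
  obtain ⟨k, R, hk0, hR0, hRk, hRle, hmain⟩ := hC l hl η hη H hH f hf hn hco t ht K hK α hα h0 hder
  have hHr : (1 : ℝ) ≤ H := by exact_mod_cast hH
  have hH0 : (0 : ℝ) < H := by linarith
  have hRA : (R : ℝ) ≤ A * (H : ℝ) ^ ((n : ℝ) * (n - 1)) := by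
    refine hRle.trans (le_of_eq ?_)
    rw [mul_pow, ← pow_mul, ← Real.rpow_natCast (H : ℝ) ((n - 1) * n)]
    congr 2
    push_cast [Nat.cast_sub (show 1 ≤ n by omega)]
    ring
  refine ⟨k, R, hk0, hR0, ?_, ?_⟩
  · refine hRA.trans ?_
    have : 0 ≤ C * A := by positivity
    gcongr
    linarith
  · intro y a hy ha P hP
    have h1 := hmain y a hy ha P hP
    set X : ℝ := ((P.filter (fun p => Rt f p (t : ZMod p) ∧ ¬ p ∣ R ∧ ¬ (p : ℤ) ∣ f.eval 0 - t ∧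
          ¬ BadF f l a (3 * H * a) (3 * H * (3 * H * a)) t p)).card : ℝ) + 1 with hX
    set T : ℝ := (Nat.card {c : ClassGroup (𝓞 K) // c ^ l = 1} : ℝ) with hT
    set D : ℝ := ((discr K).natAbs : ℝ) with hD
    have hD0n : (discr K).natAbs ≠ 0 := Int.natAbs_ne_zero.mpr (discr_ne_zero K)
    have hD0 : 0 < D := by
      rw [hD]; exact_mod_cast Nat.pos_of_ne_zero hD0n
    have hk1 : (1 : ℝ) ≤ k := by exact_mod_cast Nat.pos_of_ne_zero hk0
    have hRD : (R : ℝ) = (k : ℝ) ^ 2 * D := by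
      rw [hD, hRk]; push_cast; ring
    have hkD : k * D ^ (1 / 2 + δ) ≤ (R : ℝ) ^ (1 / 2 + δ) := by
      rw [hRD, Real.mul_rpow (by positivity) hD0.le]
      have h2 : (k : ℝ) ≤ ((k : ℝ) ^ 2) ^ (1 / 2 + δ) := by
        rw [← Real.rpow_natCast, ← Real.rpow_mul (by linarith)]
        calc (k : ℝ) = (k : ℝ) ^ (1 : ℝ) := (Real.rpow_one _).symm
          _ ≤ (k : ℝ) ^ (((2 : ℕ) : ℝ) * (1 / 2 + δ)) := by
              apply Real.rpow_le_rpow_of_exponent_le hk1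
              push_cast
              linarith
      gcongr
    have hR2 : (R : ℝ) ^ (1 / 2 + δ) ≤ A * (H : ℝ) ^ ((n : ℝ) * (n - 1) / 2 + ε) := by
      calc (R : ℝ) ^ (1 / 2 + δ) ≤ (A * (H : ℝ) ^ ((n : ℝ) * (n - 1))) ^ (1 / 2 + δ) :=
            Real.rpow_le_rpow (by positivity) hRA (by linarith)
        _ = A ^ (1 / 2 + δ) * (H : ℝ) ^ ((n : ℝ) * (n - 1) * (1 / 2 + δ)) := by
            rw [Real.mul_rpow (by positivity) (by positivity), ← Real.rpow_mul hH0.le]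
        _ ≤ A ^ (1 : ℝ) * (H : ℝ) ^ ((n : ℝ) * (n - 1) / 2 + ε) := by
            apply mul_le_mul
            · exact Real.rpow_le_rpow_of_exponent_le hA1 (by linarith)
            · exact Real.rpow_le_rpow_of_exponent_le hHr (by linarith)
            · positivity
            · positivity
        _ = _ := by rw [Real.rpow_one]
    calc T * k * X = k * (T * X) := by ring
      _ ≤ k * (C * D ^ (1 / 2 + δ)) := by gcongr
      _ = C * (k * D ^ (1 / 2 + δ)) := by ring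
      _ ≤ C * (A * (H : ℝ) ^ ((n : ℝ) * (n - 1) / 2 + ε)) := by
          have := hkD.trans hR2
          gcongr
      _ = C * A * (H : ℝ) ^ ((n : ℝ) * (n - 1) / 2 + ε) := by ring
      _ ≤ _ := by
          gcongr
          linarith

/-- the size of the parameters -/
theorem eval_zero_le {n : ℕ} (hn1 : 1 ≤ n) {f : ℤ[X]} {H : ℕ}
    (hco : ∀ i < n, |f.coeff i| ≤ (H : ℤ) ^ (n - i)) {t : ℤ} (ht : |t| ≤ (H : ℤ) ^ n) :
    (f.eval 0 - t).natAbs ≤ 2 * H ^ n := by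
  have h1 := hco 0 (by omega)
  rw [coeff_zero_eq_eval_zero, Nat.sub_zero] at h1
  have h2 : |f.eval 0 - t| ≤ 2 * (H : ℤ) ^ n := by
    have := abs_sub (f.eval 0) t
    linarith
  rw [Int.abs_eq_natAbs] at h2
  exact_mod_cast h2

/-- **The alternatives.** -/
theorem alternatives (n : ℕ) (hn2 : 2 ≤ n) (C1 κ ε : ℝ) (hC1 : 0 < C1) (hκ : 0 < κ) (hε : 0 < ε) :
    ∃ C H0 : ℝ, 0 < C ∧ 1 ≤ H0 ∧ ∀ l : ℕ, ∀ H : ℕ, H0 ≤ H →
    ∀ f : ℤ[X], (∀ i < n, |f.coeff i| ≤ (H : ℤ) ^ (n - i)) → ∀ t : ℤ, |t| ≤ (H : ℤ) ^ n →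
    f.eval 0 - t ≠ 0 → ∀ R : ℕ, R ≠ 0 → (R : ℝ) ≤ C1 * (H : ℝ) ^ ((n : ℝ) * (n - 1)) →
    ∀ W a : ℝ, 0 ≤ W → ∀ P : Finset ℕ, (∀ p ∈ P, p.Prime) → (H : ℝ) ^ κ ≤ (P.card : ℝ) →
    W * (((P.filter (fun p => Rt f p (t : ZMod p) ∧ ¬ p ∣ R ∧ ¬ (p : ℤ) ∣ f.eval 0 - t ∧
          ¬ BadF f l a (3 * H * a) (3 * H * (3 * H * a)) t p)).card : ℝ) + 1) ≤
        C1 * (H : ℝ) ^ ((n : ℝ) * (n - 1) / 2 + ε) →
    (P.card : ℝ) / (4 * n) ≤ ((P.filter (fun p => Rt f p (t : ZMod p))).card : ℝ) →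
    ((P.filter (fun p => BadF f l a (3 * H * a) (3 * H * (3 * H * a)) t p)).card : ℝ) ≤
      P.card / (16 * n) →
    W * P.card ≤ C * (H : ℝ) ^ ((n : ℝ) * (n - 1) / 2 + ε) := by
  have hnr : (2 : ℝ) ≤ n := by exact_mod_cast hn2
  obtain ⟨H1, hH11, hH1⟩ := large_N (1 / (16 * n)) 0 (2 * |Real.log C1| + 2 * Real.log 2)
    (2 * ((n : ℝ) * (n - 1)) + 2 * n) κ κ (by positivity) hκ hκ
  refine ⟨8 * n * C1, H1, by positivity, hH11, ?_⟩
  intro l H hHH f hco t ht hft R hR0 hRle W a hW P hP hPκ hmain hsup hbad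
  have hHr : (1 : ℝ) ≤ H := by linarith
  have hH0 : (0 : ℝ) < H := by linarith
  obtain ⟨-, hii⟩ := hH1 H hHH
  rw [zero_add] at hii
  set G := P.filter (fun p => Rt f p (t : ZMod p) ∧ ¬ p ∣ R ∧ ¬ (p : ℤ) ∣ f.eval 0 - t ∧
          ¬ BadF f l a (3 * H * a) (3 * H * (3 * H * a)) t p) with hG
  set B := P.filter (fun p => BadF f l a (3 * H * a) (3 * H * (3 * H * a)) t p) with hB
  have hsub : P.filter (fun p => Rt f p (t : ZMod p)) ⊆
      ((G ∪ R.primeFactors) ∪ (f.eval 0 - t).natAbs.primeFactors) ∪ B := by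
    intro p hp
    rw [mem_filter] at hp
    rw [mem_union, mem_union, mem_union, hG, hB, mem_filter, mem_filter]
    by_cases h1 : BadF f l a (3 * H * a) (3 * H * (3 * H * a)) t p
    · right; exact ⟨hp.1, h1⟩
    · left
      by_cases h2 : (p : ℤ) ∣ f.eval 0 - t
      · right
        exact Nat.mem_primeFactors.mpr ⟨hP p hp.1, Int.natCast_dvd.mp h2,
          Int.natAbs_ne_zero.mpr hft⟩
      · left
        by_cases h3 : p ∣ R
        · right
          exact Nat.mem_primeFactors.mpr ⟨hP p hp.1, h3, hR0⟩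
        · left; exact ⟨hp.1, hp.2, h3, h2, h1⟩
  have hcard : ((P.filter (fun p => Rt f p (t : ZMod p))).card : ℝ) ≤
      G.card + R.primeFactors.card + (f.eval 0 - t).natAbs.primeFactors.card + B.card := by
    have h1 := card_le_card hsub
    have h2 := card_union_le ((G ∪ R.primeFactors) ∪ (f.eval 0 - t).natAbs.primeFactors) B
    have h3 := card_union_le (G ∪ R.primeFactors) (f.eval 0 - t).natAbs.primeFactors
    have h4 := card_union_le G R.primeFactors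
    have h5 : (P.filter (fun p => Rt f p (t : ZMod p))).card ≤
      G.card + R.primeFactors.card + (f.eval 0 - t).natAbs.primeFactors.card + B.card := by omega
    exact_mod_cast h5
  have hRpos : (0 : ℝ) < R := by exact_mod_cast Nat.pos_of_ne_zero hR0
  have hlogR : Real.log R ≤ |Real.log C1| + (n : ℝ) * (n - 1) * Real.log H := by
    have h1 := Real.log_le_log hRpos hRle
    rw [Real.log_mul hC1.ne' (by positivity), Real.log_rpow hH0] at h1
    have := le_abs_self (Real.log C1)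
    linarith
  have h0pos : (0 : ℝ) < (f.eval 0 - t).natAbs := by
    exact_mod_cast Nat.pos_of_ne_zero (Int.natAbs_ne_zero.mpr hft)
  have hlog0 : Real.log ((f.eval 0 - t).natAbs : ℝ) ≤ Real.log 2 + n * Real.log H := by
    have h1 : (((f.eval 0 - t).natAbs : ℕ) : ℝ) ≤ 2 * (H : ℝ) ^ n := by
      exact_mod_cast eval_zero_le (by omega) hco ht
    have h2 := Real.log_le_log h0pos h1
    rw [Real.log_mul (by norm_num) (by positivity), Real.log_pow] at h2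
    linarith
  have hpf1 := card_primeFactors_le R hR0
  have hpf2 := card_primeFactors_le (f.eval 0 - t).natAbs (Int.natAbs_ne_zero.mpr hft)
  have hpc0 : (0 : ℝ) < P.card := lt_of_lt_of_le (Real.rpow_pos_of_pos hH0 κ) hPκ
  have hG8 : (P.card : ℝ) / (8 * n) ≤ G.card + 1 := by
    have e1 : (P.card : ℝ) / (4 * n) = P.card / (8 * n) + P.card / (16 * n) + P.card / (16 * n) := by
      field_simp; norm_num
    have e2 : 1 / (16 * (n : ℝ)) * (H : ℝ) ^ κ ≤ P.card / (16 * n) := by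
      rw [div_mul_eq_mul_div, one_mul]
      gcongr
    linarith
  have h1 : W * (P.card / (8 * n)) ≤ C1 * (H : ℝ) ^ ((n : ℝ) * (n - 1) / 2 + ε) :=
    (mul_le_mul_of_nonneg_left hG8 hW).trans hmain
  calc W * P.card = (8 * n) * (W * (P.card / (8 * n))) := by field_simp
    _ ≤ (8 * n) * (C1 * (H : ℝ) ^ ((n : ℝ) * (n - 1) / 2 + ε)) := by gcongr
    _ = _ := by ring

end Pool.Agent.Y159.PF
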