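import Pool.Agent.Y159.PF.Coll
import Pool.Agent.Y159.PT.Lev1
import Pool.Agent.Helper919.DivBound

set_option autoImplicit false

/-! For every prime few parameters are bad. -/

namespace Pool.Agent.Y159.PF

open Polynomial NumberField Finset Pool.Agent.TH847.LG Pool.Agent.Y159.PT
open scoped Classical nonZeroDivisors

/-- the divisor bound -/
theorem div_rpow (δ : ℝ) (hδ : 0 < δ) : ∃ C : ℝ, 0 < C ∧ ∀ m : ℕ, m ≠ 0 →
    (m.divisors.card : ℝ) ≤ C * (m : ℝ) ^ δ := by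
  set k : ℕ := ⌈1 / δ⌉₊ + 1 with hk
  have hk0 : (0 : ℝ) < k := by rw [hk]; positivity
  have hk1 : 1 / δ ≤ k := by
    have := Nat.le_ceil (1 / δ)
    rw [hk]; push_cast; linarith
  obtain ⟨C, hC0, hC⟩ := Pool.Agent.Helper919.card_divisors_pow_le k
  have hC0r : (0 : ℝ) < C := by exact_mod_cast hC0
  refine ⟨(C : ℝ) ^ (1 / (k : ℝ)), Real.rpow_pos_of_pos hC0r _, ?_⟩
  intro m hm
  have hm1 : (1 : ℝ) ≤ m := by exact_mod_cast Nat.pos_of_ne_zero hm
  have h1 : ((m.divisors.card : ℝ)) ^ k ≤ C * m := by exact_mod_cast hC m hm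
  calc (m.divisors.card : ℝ) = ((m.divisors.card : ℝ) ^ k) ^ (1 / (k : ℝ)) := by
        rw [← Real.rpow_natCast, ← Real.rpow_mul (by positivity), mul_one_div_cancel hk0.ne',
          Real.rpow_one]
    _ ≤ ((C : ℝ) * m) ^ (1 / (k : ℝ)) := Real.rpow_le_rpow (by positivity) h1 (by positivity)
    _ = (C : ℝ) ^ (1 / (k : ℝ)) * (m : ℝ) ^ (1 / (k : ℝ)) :=
        Real.mul_rpow (by positivity) (by positivity)
    _ ≤ (C : ℝ) ^ (1 / (k : ℝ)) * (m : ℝ) ^ δ := by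
        have h2 : 1 / (k : ℝ) ≤ δ := by
          rw [div_le_iff₀ hk0]
          rw [div_le_iff₀ hδ] at hk1
          linarith
        have := Real.rpow_le_rpow_of_exponent_le hm1 h2
        gcongr

/-- the condition satisfied by the primes that are not separated -/
def BadF (f : ℤ[X]) (l : ℕ) (a b c : ℝ) (t : ℤ) (p : ℕ) : Prop :=
  ¬ (p : ℤ) ∣ f.eval 0 - t ∧ ∃ s u v d : ℤ, ¬ (p : ℤ) ∣ s ∧ |(s : ℝ)| ≤ a ∧ |(u : ℝ)| ≤ b ∧
    |(v : ℝ)| ≤ c ∧ ((p ^ l : ℕ) : ℤ) ∣ u - d * s ∧ ((p ^ l : ℕ) : ℤ) ∣ v - d * u ∧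
    ((p ^ l : ℕ) : ℤ) ∣ f.eval d - t

/-- signed divisors -/
noncomputable def sd (m : ℤ) (M : ℝ) : Finset ℤ :=
  if m ≠ 0 ∧ |(m : ℝ)| ≤ M then
    (m.natAbs.divisors.image (fun d : ℕ => (d : ℤ))) ∪
      (m.natAbs.divisors.image (fun d : ℕ => -(d : ℤ))) else ∅

theorem card_sd {m : ℤ} {M Dm : ℝ} (hDm : 0 ≤ Dm)
    (hD : ∀ x : ℕ, x ≠ 0 → (x : ℝ) ≤ M → (x.divisors.card : ℝ) ≤ Dm) :
    ((sd m M).card : ℝ) ≤ 2 * Dm := by
  unfold sd
  split_ifs with h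
  · have h1 := card_union_le (m.natAbs.divisors.image (fun d : ℕ => (d : ℤ)))
      (m.natAbs.divisors.image (fun d : ℕ => -(d : ℤ)))
    have h2 : (m.natAbs.divisors.image (fun d : ℕ => (d : ℤ))).card ≤ m.natAbs.divisors.card :=
      card_image_le
    have h3 : (m.natAbs.divisors.image (fun d : ℕ => -(d : ℤ))).card ≤ m.natAbs.divisors.card :=
      card_image_le
    have h4 := hD m.natAbs (Int.natAbs_ne_zero.mpr h.1) (by
      rw [Nat.cast_natAbs]; push_cast; exact h.2)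
    have h5 : ((m.natAbs.divisors.image (fun d : ℕ => (d : ℤ))) ∪
      (m.natAbs.divisors.image (fun d : ℕ => -(d : ℤ)))).card ≤ 2 * m.natAbs.divisors.card := by
      omega
    have h6 : ((((m.natAbs.divisors.image (fun d : ℕ => (d : ℤ))) ∪
      (m.natAbs.divisors.image (fun d : ℕ => -(d : ℤ)))).card : ℕ) : ℝ) ≤
        2 * m.natAbs.divisors.card := by exact_mod_cast h5
    linarith
  · rw [Finset.card_empty, Nat.cast_zero]
    positivity

theorem mem_sd {m s u : ℤ} {M : ℝ} (hm : m ≠ 0) (hM : |(m : ℝ)| ≤ M) (h : m = s * u) :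
    s ∈ sd m M := by
  unfold sd
  rw [if_pos ⟨hm, hM⟩, mem_union, mem_image, mem_image]
  have h1 : s.natAbs ∈ m.natAbs.divisors := by
    rw [Nat.mem_divisors]
    refine ⟨?_, Int.natAbs_ne_zero.mpr hm⟩
    rw [Int.natAbs_dvd_natAbs]
    exact ⟨u, h⟩
  rcases Int.natAbs_eq s with h2 | h2
  · left; exact ⟨s.natAbs, h1, h2.symm⟩
  · right; exact ⟨s.natAbs, h1, h2.symm⟩

/-- few members of an interval lie in a given residue class -/
theorem card_residueZ {N m : ℕ} (A : Finset ℤ) (hA : ∀ x ∈ A, |x| ≤ N)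
    (hc : ∀ x ∈ A, ∀ y ∈ A, (m : ℤ) ∣ x - y) : A.card ≤ 2 * N / m + 1 := by
  have h1 := card_residue (N := 2 * N) (m := m) (A.image (fun x : ℤ => (x + (N : ℤ)).toNat)) (by
    intro x hx
    rw [mem_image] at hx
    obtain ⟨y, hy, rfl⟩ := hx
    have := abs_le.mp (hA y hy)
    omega) (by
    intro x hx y hy
    rw [mem_image] at hx hy
    obtain ⟨x', hx', rfl⟩ := hx
    obtain ⟨y', hy', rfl⟩ := hy
    have h1 := abs_le.mp (hA x' hx')
    have h2 := abs_le.mp (hA y' hy')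
    have h3 := hc x' hx' y' hy'
    rw [Int.toNat_of_nonneg (by omega), Int.toNat_of_nonneg (by omega)]
    have e : x' + (N : ℤ) - (y' + N) = x' - y' := by ring
    rwa [e])
  rwa [card_image_of_injOn] at h1
  intro x hx y hy hxy
  have h1 := abs_le.mp (hA x hx)
  have h2 := abs_le.mp (hA y hy)
  simp only at hxy
  omega

/-- for each prime few parameters are bad -/
theorem card_badF {f : ℤ[X]} {l N p : ℕ} (hl : 1 ≤ l) (hp : p.Prime) (S : Finset ℤ)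
    (hS : ∀ t ∈ S, |t| ≤ N) {a b c Dm : ℝ} (ha : 0 ≤ a) (hb : 0 ≤ b) (hc : 0 ≤ c) (hDm : 0 ≤ Dm)
    (hD : ∀ x : ℕ, x ≠ 0 → (x : ℝ) ≤ a * c → (x.divisors.card : ℝ) ≤ Dm) :
    ((S.filter (fun t => BadF f l a b c t p)).card : ℝ) ≤
      (2 * b + 1) * (2 * ((b ^ 2 + a * c) / (p : ℝ) ^ l) + 1) * (2 * Dm) *
        (2 * (N : ℝ) / (p : ℝ) ^ l + 1) := by
  have hpz : Prime (p : ℤ) := Int.prime_iff_natAbs_prime.mpr (by simpa using hp)
  have hpl : 0 < p ^ l := pow_pos hp.pos l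
  have hplr : (0 : ℝ) < (p : ℝ) ^ l := by exact_mod_cast hpl
  set κ : ℝ := (b ^ 2 + a * c) / (p : ℝ) ^ l with hκ
  have hκ0 : 0 ≤ κ := by positivity
  set R : ℤ × ℤ → ℤ → Finset ℤ := fun uk s =>
    S.filter (fun t : ℤ => ¬ (p : ℤ) ∣ s ∧ ∃ d : ℤ, ((p ^ l : ℕ) : ℤ) ∣ uk.1 - d * s ∧
      ((p ^ l : ℕ) : ℤ) ∣ f.eval d - t) with hR
  have h1 : S.filter (fun t => BadF f l a b c t p) ⊆
      ((Finset.Icc (-⌊b⌋) ⌊b⌋) ×ˢ (Finset.Icc (-⌊κ⌋) ⌊κ⌋)).biUnion (fun uk =>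
        (sd (uk.1 ^ 2 - uk.2 * ((p ^ l : ℕ) : ℤ)) (a * c)).biUnion (R uk)) := by
    intro t ht
    rw [mem_filter] at ht
    obtain ⟨htS, hpt, s, u, v, d, hs, hsa, hub, hvc, hd1, hd2, hd3⟩ := ht
    have hpp : (p : ℤ) ∣ ((p ^ l : ℕ) : ℤ) := by
      push_cast
      exact dvd_pow_self _ (by omega)
    have hpd : ¬ (p : ℤ) ∣ d := by
      intro h
      apply hpt
      have h2 : (p : ℤ) ∣ f.eval d - t := hpp.trans hd3
      have h3 : (p : ℤ) ∣ f.eval d - f.eval 0 := by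
        refine dvd_trans ?_ (Polynomial.sub_dvd_eval_sub d 0 f)
        rwa [sub_zero]
      have h4 := dvd_sub h2 h3
      have e : f.eval d - t - (f.eval d - f.eval 0) = f.eval 0 - t := by ring
      rwa [e] at h4
    have hpu : ¬ (p : ℤ) ∣ u := by
      intro h
      have h2 := dvd_sub h (hpp.trans hd1)
      have e : u - (u - d * s) = d * s := by ring
      rw [e] at h2
      rcases hpz.dvd_or_dvd h2 with h3 | h3
      · exact hpd h3
      · exact hs h3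
    have hpv : ¬ (p : ℤ) ∣ v := by
      intro h
      have h2 := dvd_sub h (hpp.trans hd2)
      have e : v - (v - d * u) = d * u := by ring
      rw [e] at h2
      rcases hpz.dvd_or_dvd h2 with h3 | h3
      · exact hpd h3
      · exact hpu h3
    have hsv : s * v ≠ 0 := by
      refine mul_ne_zero ?_ ?_
      · rintro rfl; exact hs (dvd_zero _)
      · rintro rfl; exact hpv (dvd_zero _)
    have hdu : ((p ^ l : ℕ) : ℤ) ∣ u ^ 2 - s * v := by
      have e : u ^ 2 - s * v = u * (u - d * s) - s * (v - d * u) := by ring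
      rw [e]
      exact dvd_sub (hd1.mul_left _) (hd2.mul_left _)
    obtain ⟨k, hk⟩ := hdu
    have hsvac : |((s * v : ℤ) : ℝ)| ≤ a * c := by
      push_cast
      rw [abs_mul]
      exact mul_le_mul hsa hvc (abs_nonneg _) ha
    have hkk : |(k : ℝ)| ≤ κ := by
      rw [hκ, le_div_iff₀ hplr]
      have h2 : ((u ^ 2 - s * v : ℤ) : ℝ) = ((p : ℝ) ^ l) * k := by
        rw [hk]; push_cast; ring
      have h3 : |(k : ℝ)| * (p : ℝ) ^ l = |((u ^ 2 - s * v : ℤ) : ℝ)| := by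
        rw [h2, abs_mul, abs_of_pos hplr]; ring
      rw [h3]
      push_cast at hsvac ⊢
      refine (abs_sub _ _).trans ?_
      have h4 : |(u : ℝ) ^ 2| ≤ b ^ 2 := by
        rw [abs_pow]
        exact pow_le_pow_left₀ (abs_nonneg _) hub 2
      linarith
    rw [mem_biUnion]
    refine ⟨(u, k), mem_product.mpr ⟨mem_Icc_floor hub, mem_Icc_floor hkk⟩, ?_⟩
    have hx : u ^ 2 - k * ((p ^ l : ℕ) : ℤ) = s * v := by linear_combination hk
    rw [mem_biUnion]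
    refine ⟨s, ?_, ?_⟩
    · simp only
      exact mem_sd (u := v) (by rw [hx]; exact hsv) (by rw [hx]; exact hsvac) hx
    · rw [hR]
      simp only
      rw [mem_filter]
      exact ⟨htS, hs, d, hd1, hd3⟩
  have h2 : ∀ uk : ℤ × ℤ, ∀ s : ℤ, (R uk s).card ≤ 2 * N / p ^ l + 1 := by
    intro uk s
    refine card_residueZ _ (fun x hx => hS x (mem_filter.mp hx).1) ?_
    intro x hx y hy
    obtain ⟨-, hs, d, hx1, hx2⟩ := mem_filter.mp hx
    obtain ⟨-, -, d', hy1, hy2⟩ := mem_filter.mp hy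
    have hcop : IsCoprime ((p ^ l : ℕ) : ℤ) s := by
      push_cast
      exact IsCoprime.pow_left (hpz.coprime_iff_not_dvd.mpr hs)
    have h3 : ((p ^ l : ℕ) : ℤ) ∣ (d' - d) * s := by
      have h4 := dvd_sub hx1 hy1
      have e : uk.1 - d * s - (uk.1 - d' * s) = (d' - d) * s := by ring
      rwa [e] at h4
    have h5 : ((p ^ l : ℕ) : ℤ) ∣ d' - d := hcop.dvd_of_dvd_mul_right h3
    have h6 : ((p ^ l : ℕ) : ℤ) ∣ f.eval d' - f.eval d :=
      h5.trans (Polynomial.sub_dvd_eval_sub d' d f)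
    have h7 := dvd_sub (dvd_sub hy2 hx2) h6
    have e : f.eval d' - y - (f.eval d - x) - (f.eval d' - f.eval d) = x - y := by ring
    rwa [e] at h7
  have h3 : ((S.filter (fun t => BadF f l a b c t p)).card : ℝ) ≤
      ∑ uk ∈ (Finset.Icc (-⌊b⌋) ⌊b⌋) ×ˢ (Finset.Icc (-⌊κ⌋) ⌊κ⌋),
        (2 * Dm) * (((2 * N / p ^ l : ℕ) : ℝ) + 1) := by
    have h4 : (S.filter (fun t => BadF f l a b c t p)).card ≤
        ∑ uk ∈ (Finset.Icc (-⌊b⌋) ⌊b⌋) ×ˢ (Finset.Icc (-⌊κ⌋) ⌊κ⌋),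
          (sd (uk.1 ^ 2 - uk.2 * ((p ^ l : ℕ) : ℤ)) (a * c)).card * (2 * N / p ^ l + 1) := by
      refine (card_le_card h1).trans (card_biUnion_le.trans ?_)
      refine Finset.sum_le_sum fun uk _ => ?_
      refine card_biUnion_le.trans ?_
      have := Finset.sum_le_card_nsmul (sd (uk.1 ^ 2 - uk.2 * ((p ^ l : ℕ) : ℤ)) (a * c))
        (fun s => (R uk s).card) _ (fun s _ => h2 uk s)
      rwa [smul_eq_mul] at this
    have h5 : ((S.filter (fun t => BadF f l a b c t p)).card : ℝ) ≤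
        ((∑ uk ∈ (Finset.Icc (-⌊b⌋) ⌊b⌋) ×ˢ (Finset.Icc (-⌊κ⌋) ⌊κ⌋),
          (sd (uk.1 ^ 2 - uk.2 * ((p ^ l : ℕ) : ℤ)) (a * c)).card * (2 * N / p ^ l + 1) : ℕ) : ℝ) :=
      by exact_mod_cast h4
    refine h5.trans ?_
    rw [Nat.cast_sum]
    refine Finset.sum_le_sum fun uk _ => ?_
    rw [Nat.cast_mul, Nat.cast_add, Nat.cast_one]
    have h6 := card_sd (m := uk.1 ^ 2 - uk.2 * ((p ^ l : ℕ) : ℤ)) hDm hD
    gcongr
  rw [Finset.sum_const, card_product, nsmul_eq_mul] at h3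
  have h4 : ((2 * N / p ^ l : ℕ) : ℝ) ≤ 2 * (N : ℝ) / (p : ℝ) ^ l := by
    have := Nat.cast_div_le (α := ℝ) (m := 2 * N) (n := p ^ l)
    rw [Nat.cast_pow] at this
    push_cast at this
    exact this
  refine h3.trans ?_
  rw [Nat.cast_mul]
  have h5 := card_Icc_floor hb
  have h6 := card_Icc_floor hκ0
  calc (((Finset.Icc (-⌊b⌋) ⌊b⌋).card : ℝ) * ((Finset.Icc (-⌊κ⌋) ⌊κ⌋).card : ℝ)) *
        ((2 * Dm) * (((2 * N / p ^ l : ℕ) : ℝ) + 1))
      ≤ ((2 * b + 1) * (2 * κ + 1)) * ((2 * Dm) * (2 * (N : ℝ) / (p : ℝ) ^ l + 1)) := by gcongr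
    _ = _ := by ring

end Pool.Agent.Y159.PF
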