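import Pool.Agent.Y159.PF.Idx

set_option autoImplicit false

/-! The congruences satisfied by two small primes that are not separated. -/

namespace Pool.Agent.Y159.PF

open Polynomial NumberField Finset Pool.Agent.TH847.LG Pool.Agent.Y159.PT
open scoped nonZeroDivisors

variable {K : Type} [Field K] [NumberField K]

theorem collision_f {n : ℕ} (hK : Module.finrank ℚ K = n) {l : ℕ} (hl : 1 ≤ l) {f : ℤ[X]} {t : ℤ}
    {β γ : 𝓞 K} (h0 : aeval β f = (t : 𝓞 K)) {R : ℕ}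
    (hR : ∀ x : 𝓞 K, (R : ℤ) ∣ Algebra.trace ℤ (𝓞 K) (γ * x)) {P J Q : Ideal (𝓞 K)}
    {p q : ℕ} (hp : p.Prime) (hq : q.Prime) (hpq : p ≠ q) (hP : Ideal.absNorm P = p)
    (hPJ : P * J = Ideal.span {((p : ℕ) : 𝓞 K)}) (hpD : ¬ p ∣ (discr K).natAbs)
    (hpR : ¬ p ∣ R) (hpγ : ¬ p ∣ (Algebra.norm ℤ γ).natAbs) (hQ : Ideal.absNorm Q = q) {z : 𝓞 K}
    (hz : Ideal.span {z} = Q ^ l * J ^ l) {Y B G : ℝ} (hB0 : 0 ≤ B) (hG0 : 0 ≤ G)
    (hY : ∀ w : InfinitePlace K, w (z : K) ≤ Y) (hB : ∀ w : InfinitePlace K, w (β : K) ≤ B)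
    (hG : ∀ w : InfinitePlace K, w (γ : K) ≤ G) :
    ∃ s u v d : ℤ, ¬ (p : ℤ) ∣ s ∧ |(s : ℝ)| * R ≤ n * (G * Y) ∧
      |(u : ℝ)| * R ≤ n * (B * (G * Y)) ∧ |(v : ℝ)| * R ≤ n * (B * (B * (G * Y))) ∧
      ((p ^ l : ℕ) : ℤ) ∣ u - d * s ∧ ((p ^ l : ℕ) : ℤ) ∣ v - d * u ∧
      ((p ^ l : ℕ) : ℤ) ∣ f.eval d - t := by
  have hPJ' : ¬ P ∣ J := fun h => hpD (dvd_discr_of_dvd hp hP hPJ h)
  have hkey := trace_key hl hp hq hpq hP hPJ hpD hQ hpγ hz
  obtain ⟨s, hs⟩ := hR z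
  obtain ⟨u, hu⟩ := hR (β * z)
  obtain ⟨v, hv⟩ := hR (β * (β * z))
  have hps : ¬ (p : ℤ) ∣ s := by
    intro h
    apply hkey
    rw [hs]
    exact h.mul_left _
  have hzJ := mem_pow_of_span hz
  obtain ⟨d, hd⟩ := exists_int_sub_mem_pow hp hP hPJ hPJ' l β
  have hcop : IsCoprime ((p ^ l : ℕ) : ℤ) (R : ℤ) := by
    rw [Nat.isCoprime_iff_coprime]
    exact Nat.Coprime.pow_left _ ((Nat.Prime.coprime_iff_not_dvd hp).mpr hpR)
  have hY0 : 0 ≤ Y := by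
    obtain ⟨w⟩ : Nonempty (InfinitePlace K) := inferInstance
    exact (apply_nonneg w _).trans (hY w)
  -- the congruences
  have h3 : ∀ x : 𝓞 K, x ∈ J ^ l → ∀ a b : ℤ,
      Algebra.trace ℤ (𝓞 K) (γ * x) = (R : ℤ) * a →
      Algebra.trace ℤ (𝓞 K) (γ * (β * x)) = (R : ℤ) * b → ((p ^ l : ℕ) : ℤ) ∣ b - d * a := by
    intro x hx a b ha hb
    have h4 := dvd_trace_of_mem hPJ hd (show γ * x ∈ J ^ l from (J ^ l).mul_mem_left _ hx)
    have h5 : Algebra.trace ℤ (𝓞 K) ((β - (d : 𝓞 K)) * (γ * x)) = (R : ℤ) * (b - d * a) := by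
      have e1 : (β - (d : 𝓞 K)) * (γ * x) = γ * (β * x) - d • (γ * x) := by
        rw [zsmul_eq_mul]; ring
      rw [e1, map_sub, map_smul, smul_eq_mul, ha, hb]
      ring
    rw [h5] at h4
    exact hcop.dvd_of_dvd_mul_left h4
  have h6 : ((p ^ l : ℕ) : ℤ) ∣ f.eval d - t := by
    have h7 : (((f.eval d - t : ℤ)) : 𝓞 K) ∈ P ^ l := by
      have e1 : ((f.eval d : ℤ) : 𝓞 K) = aeval (d : 𝓞 K) f := by
        have := Polynomial.aeval_algebraMap_apply (𝓞 K) d f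
        simpa using this.symm
      have e2 : (((f.eval d - t : ℤ)) : 𝓞 K) = -(aeval β f - aeval (d : 𝓞 K) f) := by
        rw [← e1, h0]; push_cast; ring
      rw [e2]
      refine neg_mem ?_
      have h8 := Polynomial.sub_dvd_eval_sub β (d : 𝓞 K) (f.map (algebraMap ℤ (𝓞 K)))
      rw [eval_map_algebraMap, eval_map_algebraMap] at h8
      obtain ⟨c, hc⟩ := h8
      rw [hc]
      exact (P ^ l).mul_mem_right _ hd
    have h4 := dvd_trace_of_mem hPJ h7 (show γ * z ∈ J ^ l from (J ^ l).mul_mem_left _ hzJ)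
    have h5 : Algebra.trace ℤ (𝓞 K) (((f.eval d - t : ℤ) : 𝓞 K) * (γ * z)) =
        (f.eval d - t) * ((R : ℤ) * s) := by
      have e1 : ((f.eval d - t : ℤ) : 𝓞 K) * (γ * z) = (f.eval d - t) • (γ * z) := by
        rw [zsmul_eq_mul]
      rw [e1, map_smul, smul_eq_mul, hs]
    rw [h5] at h4
    refine IsCoprime.dvd_of_dvd_mul_right ?_ h4
    refine IsCoprime.mul_right hcop ?_
    push_cast
    refine IsCoprime.pow_left ?_
    exact (Int.prime_iff_natAbs_prime.mpr (by simpa using hp)).coprime_iff_not_dvd.mpr hps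
  have hsize : ∀ (x : 𝓞 K) (X : ℝ), (∀ w : InfinitePlace K, w (x : K) ≤ X) → ∀ a : ℤ,
      Algebra.trace ℤ (𝓞 K) (γ * x) = (R : ℤ) * a → |(a : ℝ)| * R ≤ n * (G * X) := by
    intro x X hX a ha
    have h9 : |((Algebra.trace ℤ (𝓞 K) (γ * x) : ℤ) : ℝ)| ≤ n * (G * X) := by
      refine trace_le hK (γ * x) ?_
      intro w
      have e1 : ((γ * x : 𝓞 K) : K) = (γ : K) * (x : K) := by push_cast; rfl
      rw [e1, map_mul]
      exact mul_le_mul (hG w) (hX w) (apply_nonneg _ _) hG0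
    rw [ha] at h9
    push_cast at h9
    rw [abs_mul, Nat.abs_cast] at h9
    linarith
  have hβz : ∀ w : InfinitePlace K, w ((β * z : 𝓞 K) : K) ≤ B * Y := by
    intro w
    have e1 : ((β * z : 𝓞 K) : K) = (β : K) * (z : K) := by push_cast; rfl
    rw [e1, map_mul]
    exact mul_le_mul (hB w) (hY w) (apply_nonneg _ _) hB0
  have hββz : ∀ w : InfinitePlace K, w ((β * (β * z) : 𝓞 K) : K) ≤ B * (B * Y) := by
    intro w
    have e1 : ((β * (β * z) : 𝓞 K) : K) = (β : K) * ((β * z : 𝓞 K) : K) := by push_cast; rfl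
    rw [e1, map_mul]
    exact mul_le_mul (hB w) (hβz w) (apply_nonneg _ _) hB0
  refine ⟨s, u, v, d, hps, ?_, ?_, ?_, ?_, ?_, h6⟩
  · exact hsize z Y hY s hs
  · have := hsize (β * z) _ hβz u hu
    linarith
  · have := hsize (β * (β * z)) _ hββz v hv
    linarith
  · exact h3 z hzJ s u hs hu
  · exact h3 (β * z) ((J ^ l).mul_mem_left _ hzJ) u v hu hv

end Pool.Agent.Y159.PF
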