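import Pool.Agent.Y159.PF.Mean

set_option autoImplicit false

/-! The mean value theorem in terms of discriminants, and for a fixed polynomial. -/

namespace Pool.Agent.Y159.PF

open Polynomial NumberField Finset Pool.Agent.TH847.LG Pool.Agent.Y159.PT Pool.Agent.TH869.EVF Filter
open scoped Classical nonZeroDivisors

variable {K : Type} [Field K] [NumberField K]

omit [NumberField K] in
theorem place_aeval (w : InfinitePlace K) (α : K) (F : ℤ[X]) :
    w (aeval α F) = ‖aeval (w.embedding α) F‖ := by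
  rw [← InfinitePlace.norm_embedding_eq]
  congr 1
  have := Polynomial.hom_eval₂ F (algebraMap ℤ K) w.embedding α
  rw [aeval_def, this, aeval_def]
  congr 1
  exact RingHom.ext_int _ _

omit [NumberField K] in
theorem embedding_root (w : InfinitePlace K) {α : K} {f : ℤ[X]} {t : ℤ} (h0 : aeval α f = (t : K)) :
    aeval (w.embedding α) f = (t : ℂ) := by
  have := Polynomial.hom_eval₂ f (algebraMap ℤ K) w.embedding α
  rw [aeval_def] at h0
  rw [h0, map_intCast] at this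
  rw [aeval_def, this]
  congr 1
  exact RingHom.ext_int _ _

/-- an element with a large norm and bounded absolute values is large at every place -/
theorem place_ge {n : ℕ} (hn : Module.finrank ℚ K = n) (x : K) {B : ℝ}
    (hB : ∀ v : InfinitePlace K, v x ≤ B) (w : InfinitePlace K) :
    |((Algebra.norm ℚ x : ℚ) : ℝ)| ≤ w x * B ^ (n - 1) := by
  have h3 := Algebra.norm_eq_prod_embeddings (K := ℚ) (L := K) ℂ x
  have h2 : |((Algebra.norm ℚ x : ℚ) : ℝ)| = ‖(algebraMap ℚ ℂ) (Algebra.norm ℚ x)‖ := by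
    have : (algebraMap ℚ ℂ) (Algebra.norm ℚ x) = ((Algebra.norm ℚ x : ℚ) : ℂ) := rfl
    rw [this, Complex.norm_ratCast]
  set σ0 : K →ₐ[ℚ] ℂ := w.embedding.toRatAlgHom with hσ0
  have hσ0x : ‖σ0 x‖ = w x := by
    rw [← InfinitePlace.norm_embedding_eq w x]
    rfl
  rw [h2, h3, norm_prod, ← Finset.mul_prod_erase _ _ (Finset.mem_univ σ0), hσ0x]
  apply mul_le_mul_of_nonneg_left _ (apply_nonneg _ _)
  have h4 : ∀ σ ∈ (Finset.univ : Finset (K →ₐ[ℚ] ℂ)).erase σ0, ‖σ x‖ ≤ B := by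
    intro σ _
    have := hB (InfinitePlace.mk σ.toRingHom)
    simpa using this
  refine (Finset.prod_le_prod (fun _ _ => norm_nonneg _) h4).trans ?_
  rw [Finset.prod_const, Finset.card_erase_of_mem (Finset.mem_univ _), Finset.card_univ,
    AlgHom.card, hn]

/-- a large discriminant: the derivative is large at every place -/
theorem der_of_norm {n : ℕ} (hn1 : 1 ≤ n) {f : ℤ[X]} (hf : f.Monic) (hfn : f.natDegree = n) {H : ℕ}
    (hH : 1 ≤ H) (hco : ∀ i < n, |f.coeff i| ≤ (H : ℤ) ^ (n - i)) {t : ℤ} (ht : |t| ≤ (H : ℤ) ^ n)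
    (hK : Module.finrank ℚ K = n) {α : K} (h0 : aeval α f = (t : K)) {η : ℝ}
    (hη : η * (H : ℝ) ^ (n * (n - 1)) ≤ |((Algebra.norm ℚ (aeval α (derivative f)) : ℚ) : ℝ)|)
    (w : InfinitePlace K) :
    η / ((n : ℝ) ^ 2 * 3 ^ n) ^ (n - 1) * (H : ℝ) ^ (n - 1) ≤ w (aeval α (derivative f)) := by
  have hHr : (1 : ℝ) ≤ H := by exact_mod_cast hH
  have hn0 : (0 : ℝ) < n := by exact_mod_cast hn1
  set B : ℝ := n ^ 2 * 3 ^ n * (H : ℝ) ^ (n - 1) with hB
  have hB0 : 0 < B := by positivity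
  have h1 := place_ge hK (aeval α (derivative f)) (B := B) (by
    intro v
    rw [place_aeval]
    exact der_le hn1 hf hfn hH hco (root_le hn1 hf hfn hH hco ht (embedding_root v h0))) w
  have h2 := hη.trans h1
  have h3 : B ^ (n - 1) = ((n : ℝ) ^ 2 * 3 ^ n) ^ (n - 1) * (H : ℝ) ^ ((n - 1) * (n - 1)) := by
    rw [hB, mul_pow, ← pow_mul]
  have h4 : (H : ℝ) ^ (n * (n - 1)) = (H : ℝ) ^ (n - 1) * (H : ℝ) ^ ((n - 1) * (n - 1)) := by
    rw [← pow_add]
    congr 1
    obtain ⟨m, rfl⟩ : ∃ m, n = m + 1 := ⟨n - 1, by omega⟩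
    rw [Nat.add_sub_cancel]
    ring
  rw [h3, h4] at h2
  have h5 : 0 < (H : ℝ) ^ ((n - 1) * (n - 1)) := by positivity
  have h6 : 0 < ((n : ℝ) ^ 2 * 3 ^ n) ^ (n - 1) := by positivity
  rw [div_mul_eq_mul_div, div_le_iff₀ h6]
  refine le_of_mul_le_mul_right ?_ h5
  calc η * (H : ℝ) ^ (n - 1) * (H : ℝ) ^ ((n - 1) * (n - 1))
      = η * ((H : ℝ) ^ (n - 1) * (H : ℝ) ^ ((n - 1) * (n - 1))) := by ring
    _ ≤ _ := h2
    _ = _ := by ring

/-- for a fixed polynomial the derivative is large at all roots of `f = t`, `t` large -/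
theorem big_der {n : ℕ} (hn2 : 2 ≤ n) {f : ℤ[X]} (hf : f.Monic) (hfn : f.natDegree = n) :
    ∃ H0 c : ℝ, 0 < c ∧ 1 ≤ H0 ∧ ∀ H : ℝ, H0 ≤ H → ∀ t : ℤ, H ^ n ≤ 2 ^ (n + 1) * |(t : ℝ)| →
    ∀ x : ℂ, aeval x f = (t : ℂ) → c * H ^ (n - 1) ≤ ‖aeval x (derivative f)‖ := by
  set A : ℝ := 1 + ∑ i ∈ range (n + 1), |((f.coeff i : ℤ) : ℝ)| with hA
  set A' : ℝ := 1 + ∑ i ∈ range (n - 1), |(((derivative f).coeff i : ℤ) : ℝ)| with hA'
  have hA1 : 1 ≤ A := by
    have : 0 ≤ ∑ i ∈ range (n + 1), |((f.coeff i : ℤ) : ℝ)| :=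
      Finset.sum_nonneg fun i _ => abs_nonneg _
    linarith
  have hA'1 : 1 ≤ A' := by
    have : 0 ≤ ∑ i ∈ range (n - 1), |(((derivative f).coeff i : ℤ) : ℝ)| :=
      Finset.sum_nonneg fun i _ => abs_nonneg _
    linarith
  refine ⟨4 * A * (A' + 1), 1 / (4 * A) ^ (n - 1), by positivity, by nlinarith, ?_⟩
  intro H hH t ht x hx
  have hH0 : 0 < H := by nlinarith
  set X : ℝ := max 1 ‖x‖ with hX
  have hX1 : 1 ≤ X := le_max_left _ _
  have hxX : ‖x‖ ≤ X := le_max_right _ _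
  have h1 : |(t : ℝ)| ≤ A * X ^ n := by
    have h2 : |(t : ℝ)| = ‖aeval x f‖ := by rw [hx, Complex.norm_intCast]
    rw [h2, aeval_eq_sum_range, hfn]
    have h3 : ∀ i ∈ range (n + 1), ‖f.coeff i • x ^ i‖ ≤ |((f.coeff i : ℤ) : ℝ)| * X ^ n := by
      intro i hi
      rw [mem_range] at hi
      rw [zsmul_eq_mul, norm_mul, Complex.norm_intCast, norm_pow]
      apply mul_le_mul_of_nonneg_left _ (abs_nonneg _)
      calc ‖x‖ ^ i ≤ X ^ i := by gcongr
        _ ≤ X ^ n := pow_le_pow_right₀ hX1 (by omega)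
    refine (norm_sum_le_of_le _ h3).trans ?_
    rw [← Finset.sum_mul]
    apply mul_le_mul_of_nonneg_right _ (by positivity)
    rw [hA]; linarith
  have h2 : H ^ n ≤ (4 * A * X) ^ n := by
    calc H ^ n ≤ 2 ^ (n + 1) * |(t : ℝ)| := ht
      _ ≤ 2 ^ (n + 1) * (A * X ^ n) := by gcongr
      _ ≤ 4 ^ n * (A ^ n * X ^ n) := by
          have e1 : (2 : ℝ) ^ (n + 1) ≤ 4 ^ n := by
            calc (2 : ℝ) ^ (n + 1) ≤ 2 ^ (2 * n) := pow_le_pow_right₀ (by norm_num) (by omega)
              _ = 4 ^ n := by rw [pow_mul]; norm_num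
          have e2 : A ≤ A ^ n := le_self_pow₀ hA1 (by omega)
          gcongr
      _ = (4 * A * X) ^ n := by rw [mul_pow, mul_pow]; ring
  have h3 : H ≤ 4 * A * X := le_of_pow_le_pow_left₀ (by omega) (by positivity) h2
  have h4 : A' + 1 ≤ X := by
    have h5 : 4 * A * (A' + 1) ≤ 4 * A * X := hH.trans h3
    exact le_of_mul_le_mul_left h5 (by positivity)
  have hXx : X = ‖x‖ := by
    rw [hX]
    apply max_eq_right
    by_contra hc
    push Not at hc
    have : X = 1 := by rw [hX]; exact max_eq_left hc.le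
    linarith
  have h6 : aeval x (derivative f) = ∑ i ∈ range (n - 1), ((derivative f).coeff i : ℂ) * x ^ i +
      (n : ℂ) * x ^ (n - 1) := by
    have h7 : (derivative f).natDegree < (n - 1) + 1 := by
      have := natDegree_derivative_le f
      omega
    rw [aeval_def, eval₂_eq_sum_range' _ h7, Finset.sum_range_succ]
    have h8 : (derivative f).coeff (n - 1) = n := by
      rw [coeff_derivative]
      have e : n - 1 + 1 = n := by omega
      have h9 : f.coeff n = 1 := by rw [← hfn]; exact hf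
      rw [e, h9, one_mul]
      have : ((n - 1 : ℕ) : ℤ) + 1 = n := by omega
      exact this
    rw [h8]
    simp
  have h7 : ‖∑ i ∈ range (n - 1), ((derivative f).coeff i : ℂ) * x ^ i‖ ≤ A' * X ^ (n - 2) := by
    have h3 : ∀ i ∈ range (n - 1), ‖((derivative f).coeff i : ℂ) * x ^ i‖ ≤
        |(((derivative f).coeff i : ℤ) : ℝ)| * X ^ (n - 2) := by
      intro i hi
      rw [mem_range] at hi
      rw [norm_mul, Complex.norm_intCast, norm_pow]
      apply mul_le_mul_of_nonneg_left _ (abs_nonneg _)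
      calc ‖x‖ ^ i ≤ X ^ i := by gcongr
        _ ≤ X ^ (n - 2) := pow_le_pow_right₀ hX1 (by omega)
    refine (norm_sum_le_of_le _ h3).trans ?_
    rw [← Finset.sum_mul]
    apply mul_le_mul_of_nonneg_right _ (by positivity)
    rw [hA']; linarith
  have hnr : (2 : ℝ) ≤ n := by exact_mod_cast hn2
  have h8 : ‖(n : ℂ) * x ^ (n - 1)‖ = n * X ^ (n - 1) := by
    rw [norm_mul, norm_pow, Complex.norm_natCast, hXx]
  have h9 : X ^ (n - 1) ≤ ‖aeval x (derivative f)‖ := by
    have h10 : n * X ^ (n - 1) - A' * X ^ (n - 2) ≤ ‖aeval x (derivative f)‖ := by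
      rw [h6]
      have := norm_sub_le (∑ i ∈ range (n - 1), ((derivative f).coeff i : ℂ) * x ^ i +
        (n : ℂ) * x ^ (n - 1)) (∑ i ∈ range (n - 1), ((derivative f).coeff i : ℂ) * x ^ i)
      rw [add_sub_cancel_left, h8] at this
      linarith
    have h11 : X ^ (n - 1) = X * X ^ (n - 2) := by
      rw [← pow_succ']; congr 1; omega
    have h12 : 0 < X ^ (n - 2) := by positivity
    rw [h11] at h10 ⊢
    have h13 : A' * X ^ (n - 2) ≤ X * X ^ (n - 2) :=
      mul_le_mul_of_nonneg_right (by linarith) h12.le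
    have h14 : 2 * (X * X ^ (n - 2)) ≤ n * (X * X ^ (n - 2)) :=
      mul_le_mul_of_nonneg_right hnr (by positivity)
    linarith
  refine le_trans ?_ h9
  rw [one_div, inv_mul_eq_div, ← div_pow]
  apply pow_le_pow_left₀ (by positivity)
  rw [div_le_iff₀ (by positivity)]
  linarith

end Pool.Agent.Y159.PF
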