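import Pool.Agent.Y159.PF.Der

set_option autoImplicit false

/-! The mean value theorem for a fixed polynomial. -/

namespace Pool.Agent.Y159.PF

open Polynomial NumberField Finset Pool.Agent.TH847.LG Pool.Agent.Y159.PT Pool.Agent.TH869.EVF Filter
open scoped Classical nonZeroDivisors

/-- a uniform bound for the finitely many small parameters -/
theorem small_t (n l : ℕ) (hn : 2 ≤ n) (hl : 1 ≤ l) (f : ℤ[X]) (hf : f.Monic)
    (hfn : f.natDegree = n) (N1 : ℕ) : ∃ C : ℝ, 0 < C ∧ ∀ t : ℤ, |t| ≤ (N1 : ℤ) →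
    ∀ (K : Type) [Field K] [NumberField K], Module.finrank ℚ K = n → ∀ α : K,
    IntermediateField.adjoin ℚ {α} = ⊤ → aeval α f = (t : K) →
    (Nat.card {c : ClassGroup (𝓞 K) // c ^ l = 1} : ℝ) ≤ C := by
  obtain ⟨C, hC0, hC⟩ := single2 n hn 1 one_pos
  set B : ℕ := 1 + N1 + ∑ i ∈ range n, (f.coeff i).natAbs with hB
  refine ⟨C * (B : ℝ) ^ ((n : ℝ) * (n - 1) / 2 + 1), by
    have : (0 : ℝ) < B := by
      have : 0 < B := by omega
      exact_mod_cast this
    positivity, ?_⟩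
  intro t ht K _ _ hK α hα h0
  have hB1 : 1 ≤ B := by omega
  have hBr : (1 : ℝ) ≤ B := by exact_mod_cast hB1
  have hco : ∀ i < n, |f.coeff i| ≤ (B : ℤ) ^ (n - i) := by
    intro i hi
    have h1 : (f.coeff i).natAbs ≤ ∑ i ∈ range n, (f.coeff i).natAbs :=
      Finset.single_le_sum (f := fun i => (f.coeff i).natAbs) (fun _ _ => Nat.zero_le _)
        (mem_range.mpr hi)
    have h2 : (f.coeff i).natAbs ≤ B ^ (n - i) :=
      le_trans (by omega) (Nat.le_self_pow (by omega) B)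
    rw [Int.abs_eq_natAbs]
    exact_mod_cast h2
  have htB : |t| ≤ (B : ℤ) ^ n := by
    refine ht.trans ?_
    have h2 : N1 ≤ B ^ n := le_trans (by omega) (Nat.le_self_pow (by omega) B)
    exact_mod_cast h2
  -- the derivative does not vanish
  obtain ⟨β, γ, k, R, hβα, hk0, hR0, hRk, hRn, -, -⟩ := exists_gamma hK hf hfn (by omega) hα h0
  have hβ0 : aeval β (derivative f) ≠ 0 := by
    intro hcon
    apply hR0
    rw [hRn, hcon]
    have : Algebra.norm ℤ (0 : 𝓞 K) = 0 := by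
      rw [Algebra.norm_eq_zero_iff]
    rw [this]; rfl
  have hβd : ((aeval β (derivative f) : 𝓞 K) : K) = aeval α (derivative f) := by
    have h1 := Polynomial.aeval_algebraMap_apply K β (derivative f)
    have h2 : aeval (algebraMap (𝓞 K) K β) (derivative f) =
      ((aeval β (derivative f) : 𝓞 K) : K) := h1
    rw [← h2]
    change aeval (β : K) _ = _
    rw [hβα]
  have hd0 : aeval α (derivative f) ≠ 0 := by
    rw [← hβd]
    intro h
    apply hβ0
    exact RingOfIntegers.ext h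
  obtain ⟨w0, -, hw0⟩ := Finset.exists_min_image (Finset.univ : Finset (InfinitePlace K))
    (fun w => w (aeval α (derivative f))) Finset.univ_nonempty
  set m : ℝ := w0 (aeval α (derivative f)) with hm
  have hm0 : 0 < m := InfinitePlace.pos_iff.mpr hd0
  have hBn : 0 < (B : ℝ) ^ (n - 1) := by positivity
  obtain ⟨k', R', hk'0, -, -, hmain⟩ := hC l hl (m / (B : ℝ) ^ (n - 1)) (by positivity) B hB1 f hf
    hfn hco t htB K hK α hα h0 (by
      intro w
      rw [div_mul_cancel₀ _ hBn.ne']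
      exact hw0 w (Finset.mem_univ w))
  have h5 := hmain 1 _ one_pos le_rfl ∅ (by intro p hp; simp at hp)
  rw [Finset.filter_empty, Finset.card_empty, Nat.cast_zero, zero_add, mul_one] at h5
  refine le_trans ?_ h5
  have : (1 : ℝ) ≤ k' := by exact_mod_cast Nat.pos_of_ne_zero hk'0
  exact le_mul_of_one_le_right (Nat.cast_nonneg _) this

/-- **The mean value theorem for a fixed polynomial.** -/
theorem mean_fixed (n l : ℕ) (hn : 3 ≤ n) (hl : 3 ≤ l) (ε : ℝ) (hε : 0 < ε) (f : ℤ[X])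
    (hf : f.Monic) (hfn : f.natDegree = n) : ∃ C : ℝ, 0 < C ∧ ∀ N : ℕ, 1 ≤ N →
    ∀ (K : ℤ → Type) [∀ t, Field (K t)] [∀ t, NumberField (K t)] (α : ∀ t, K t) (S : Finset ℤ),
    (∀ t ∈ S, |t| ≤ (N : ℤ) ∧ Module.finrank ℚ (K t) = n ∧
      IntermediateField.adjoin ℚ {α t} = ⊤ ∧ aeval (α t) f = (t : K t)) →
    ∑ t ∈ S, (Nat.card {c : ClassGroup (𝓞 (K t)) // c ^ l = 1} : ℝ) ≤
      C * (N : ℝ) ^ (((n : ℝ) + 1) / 2 - min ((2 - 3 / (n : ℝ)) / l) (1 / 3) + ε) := by
  have hnr : (3 : ℝ) ≤ n := by exact_mod_cast hn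
  have hn0 : (0 : ℝ) < n := by linarith
  have hlr : (3 : ℝ) ≤ l := by exact_mod_cast hl
  set a : ℝ := ((n : ℝ) + 1) / 2 - min ((2 - 3 / (n : ℝ)) / l) (1 / 3) + ε with ha
  have ha1 : 1 ≤ a := by
    have : min ((2 - 3 / (n : ℝ)) / l) (1 / 3) ≤ 1 / 3 := min_le_right _ _
    linarith
  obtain ⟨H0, c, hc0, hH01, hbig⟩ := big_der (by omega : 2 ≤ n) hf hfn
  set e : ℝ := (n : ℝ) + (n : ℝ) * (n - 1) / 2 - min ((2 * (n : ℝ) - 3) / l) ((n : ℝ) / 3) +
    n * ε with he
  have hea : e / n = a := by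
    have h1 : min ((2 * (n : ℝ) - 3) / l) ((n : ℝ) / 3) =
        n * min ((2 - 3 / (n : ℝ)) / l) (1 / 3) := by
      rw [mul_min_of_nonneg _ _ hn0.le]
      congr 1
      · field_simp
      · ring
    rw [he, h1, ha]
    field_simp
    ring
  have he0 : 0 < e := by
    have : e = n * a := by rw [← hea]; field_simp
    rw [this]; positivity
  obtain ⟨CM, hCM0, hCM⟩ := mean_value n l hn hl c hc0 (n * ε) (by positivity)
  -- the coefficients
  set B : ℕ := 1 + ∑ i ∈ range n, (f.coeff i).natAbs with hB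
  set N1 : ℕ := (⌈H0⌉₊ + B) ^ n + 1 with hN1
  obtain ⟨C0, hC00, hC0⟩ := small_t n l (by omega) (by omega) f hf hfn N1
  refine ⟨3 * N1 * C0 + 2 * (CM * 2 ^ e), by positivity, ?_⟩
  set C : ℝ := 3 * N1 * C0 + 2 * (CM * 2 ^ e) with hC
  have hCpos : 0 < C := by positivity
  intro N
  induction N using Nat.strong_induction_on with
  | _ N ih =>
  intro hN K _ _ α S hS
  have hNr : (1 : ℝ) ≤ N := by exact_mod_cast hN
  have hN0 : (0 : ℝ) < N := by linarith
  rcases Nat.lt_or_ge N N1 with hsmall | hlarge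
  · have h1 := Finset.sum_le_card_nsmul S
      (fun t => (Nat.card {c : ClassGroup (𝓞 (K t)) // c ^ l = 1} : ℝ)) C0 (by
        intro t ht
        obtain ⟨h1, h2, h3, h4⟩ := hS t ht
        exact hC0 t (by
          have : (N : ℤ) ≤ N1 := by exact_mod_cast hsmall.le
          linarith) (K t) h2 (α t) h3 h4)
    rw [nsmul_eq_mul] at h1
    have h2 := card_le_three hN S (fun t ht => (hS t ht).1)
    have h3 : (N : ℝ) ≤ N1 := by exact_mod_cast hsmall.le
    have h4 : (1 : ℝ) ≤ (N : ℝ) ^ a := Real.one_le_rpow hNr (by linarith)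
    calc _ ≤ (S.card : ℝ) * C0 := h1
      _ ≤ (3 * N1) * C0 := by
          have : (S.card : ℝ) ≤ 3 * N1 := by linarith
          gcongr
      _ ≤ C := by
          rw [hC]
          have : 0 ≤ 2 * (CM * 2 ^ e) := by positivity
          linarith
      _ ≤ C * (N : ℝ) ^ a := le_mul_of_one_le_right hCpos.le h4
  · -- the upper half
    set x : ℝ := (N : ℝ) ^ (1 / (n : ℝ)) with hx
    have hx1 : 1 ≤ x := Real.one_le_rpow hNr (by positivity)
    have hx0 : 0 < x := by linarith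
    have hxn : x ^ n = N := by
      rw [hx, ← Real.rpow_natCast, ← Real.rpow_mul hN0.le, one_div_mul_cancel hn0.ne',
        Real.rpow_one]
    set H : ℕ := ⌈x⌉₊ with hH
    have hHx : x ≤ H := Nat.le_ceil x
    have hHx2 : (H : ℝ) ≤ 2 * x := by
      have := Nat.ceil_lt_add_one hx0.le
      linarith
    have hH1r : (1 : ℝ) ≤ H := by linarith
    have hH1 : 1 ≤ H := by exact_mod_cast hH1r
    have hNH : N ≤ H ^ n := by
      have : (N : ℝ) ≤ (H : ℝ) ^ n := by rw [← hxn]; gcongr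
      exact_mod_cast this
    have hHbig : ⌈H0⌉₊ + B ≤ H := by
      have h1 : (⌈H0⌉₊ + B) ^ n ≤ H ^ n := by omega
      exact (Nat.pow_le_pow_iff_left (by omega)).mp h1
    have hHH0 : H0 ≤ H := by
      have h1 := Nat.le_ceil H0
      have h2 : ((⌈H0⌉₊ : ℕ) : ℝ) ≤ H := by exact_mod_cast (by omega : ⌈H0⌉₊ ≤ H)
      linarith
    have hco : ∀ i < n, |f.coeff i| ≤ (H : ℤ) ^ (n - i) := by
      intro i hi
      have h1 : (f.coeff i).natAbs ≤ ∑ i ∈ range n, (f.coeff i).natAbs :=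
        Finset.single_le_sum (f := fun i => (f.coeff i).natAbs) (fun _ _ => Nat.zero_le _)
          (mem_range.mpr hi)
      have h2 : (f.coeff i).natAbs ≤ H ^ (n - i) :=
        le_trans (by omega) (Nat.le_self_pow (by omega) H)
      rw [Int.abs_eq_natAbs]
      exact_mod_cast h2
    set S2 : Finset ℤ := S.filter (fun t => (N : ℤ) < 2 * |t|) with hS2
    set S1 : Finset ℤ := S.filter (fun t => ¬ (N : ℤ) < 2 * |t|) with hS1
    have hup := hCM H hH1 f hf hfn hco K α S2 (by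
      intro t ht
      obtain ⟨htS, htN⟩ := mem_filter.mp ht
      obtain ⟨h1, h2, h3, h4⟩ := hS t htS
      refine ⟨?_, h2, h3, h4, ?_⟩
      · refine h1.trans ?_
        exact_mod_cast hNH
      · intro w
        rw [place_aeval]
        refine hbig H hHH0 t ?_ _ (embedding_root w h4)
        have h5 : (N : ℝ) < 2 * |(t : ℝ)| := by exact_mod_cast htN
        calc (H : ℝ) ^ n ≤ (2 * x) ^ n := by gcongr
          _ = 2 ^ n * N := by rw [mul_pow, hxn]
          _ ≤ 2 ^ n * (2 * |(t : ℝ)|) := by gcongr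
          _ = 2 ^ (n + 1) * |(t : ℝ)| := by ring)
    have hHe : (H : ℝ) ^ e ≤ 2 ^ e * (N : ℝ) ^ a := by
      calc (H : ℝ) ^ e ≤ (2 * x) ^ e := Real.rpow_le_rpow (by positivity) hHx2 he0.le
        _ = 2 ^ e * (N : ℝ) ^ a := by
            rw [Real.mul_rpow (by norm_num) hx0.le, hx, ← Real.rpow_mul hN0.le]
            congr 2
            rw [← hea]; ring
    have hupper : ∑ t ∈ S2, (Nat.card {c : ClassGroup (𝓞 (K t)) // c ^ l = 1} : ℝ) ≤
        CM * 2 ^ e * (N : ℝ) ^ a := by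
      refine hup.trans ?_
      calc CM * (H : ℝ) ^ e ≤ CM * (2 ^ e * (N : ℝ) ^ a) := by gcongr
        _ = _ := by ring
    have hlower : ∑ t ∈ S1, (Nat.card {c : ClassGroup (𝓞 (K t)) // c ^ l = 1} : ℝ) ≤
        C / 2 * (N : ℝ) ^ a := by
      have hN2 : 2 ≤ N := by
        have : 1 ≤ (⌈H0⌉₊ + B) ^ n := Nat.one_le_pow _ _ (by omega)
        omega
      have h1 := ih (N / 2) (by omega) (by omega) K α S1 (by
        intro t ht
        obtain ⟨htS, htN⟩ := mem_filter.mp ht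
        obtain ⟨h1, h2, h3, h4⟩ := hS t htS
        refine ⟨?_, h2, h3, h4⟩
        push Not at htN
        have : ((N / 2 : ℕ) : ℤ) = (N : ℤ) / 2 := by norm_num
        rw [this]
        omega)
      refine h1.trans ?_
      have h2 : ((N / 2 : ℕ) : ℝ) ≤ (N : ℝ) / 2 := by
        have := Nat.cast_div_le (α := ℝ) (m := N) (n := 2)
        exact_mod_cast this
      have h3 : ((N / 2 : ℕ) : ℝ) ^ a ≤ (N : ℝ) ^ a / 2 := by
        calc ((N / 2 : ℕ) : ℝ) ^ a ≤ ((N : ℝ) / 2) ^ a :=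
              Real.rpow_le_rpow (by positivity) h2 (by linarith)
          _ = (N : ℝ) ^ a / 2 ^ a := Real.div_rpow hN0.le (by norm_num) a
          _ ≤ (N : ℝ) ^ a / 2 := by
              have h4 : (2 : ℝ) ≤ 2 ^ a := by
                calc (2 : ℝ) = 2 ^ (1 : ℝ) := (Real.rpow_one 2).symm
                  _ ≤ 2 ^ a := Real.rpow_le_rpow_of_exponent_le (by norm_num) ha1
              gcongr
      calc C * ((N / 2 : ℕ) : ℝ) ^ a ≤ C * ((N : ℝ) ^ a / 2) := by gcongr
        _ = _ := by ring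
    have hsplit := Finset.sum_filter_add_sum_filter_not S (fun t => (N : ℤ) < 2 * |t|)
      (fun t => (Nat.card {c : ClassGroup (𝓞 (K t)) // c ^ l = 1} : ℝ))
    have hNa : 0 < (N : ℝ) ^ a := Real.rpow_pos_of_pos hN0 _
    have hCC : CM * 2 ^ e + C / 2 ≤ C := by
      rw [hC]
      have : 0 ≤ 3 * (N1 : ℝ) * C0 := by positivity
      linarith
    calc ∑ t ∈ S, (Nat.card {c : ClassGroup (𝓞 (K t)) // c ^ l = 1} : ℝ)
        ≤ CM * 2 ^ e * (N : ℝ) ^ a + C / 2 * (N : ℝ) ^ a := by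
          rw [← hsplit]
          exact add_le_add hupper hlower
      _ = (CM * 2 ^ e + C / 2) * (N : ℝ) ^ a := by ring
      _ ≤ C * (N : ℝ) ^ a := by gcongr

end Pool.Agent.Y159.PF
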