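import Pool.Agent.Y159.PT.Crit
import Pool.Agent.Y159.PT.Pure
import Pool.Agent.TH869.EVF.Gen

set_option autoImplicit false

/-! The index of `ℤ[θ]` and a small element of the inverse different. -/

namespace Pool.Agent.Y159.PF

open Polynomial NumberField Finset
open scoped nonZeroDivisors

variable {K : Type} [Field K] [NumberField K]

/-- the index of `ℤ[z]` -/
theorem index_exists (z : 𝓞 K) (pb : PowerBasis ℚ K) (hgen : pb.gen = z) :
    ∃ k : ℤ, Algebra.discr ℚ pb.basis = (k : ℚ) ^ 2 * (discr K : ℚ) ∧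
      ∀ x : 𝓞 K, (k : 𝓞 K) * x ∈ Algebra.adjoin ℤ {z} := by
  have hc : Fintype.card (Module.Free.ChooseBasisIndex ℤ (𝓞 K)) = pb.dim := by
    rw [← Module.finrank_eq_card_basis (RingOfIntegers.basis K), RingOfIntegers.rank, pb.finrank]
  let e : Module.Free.ChooseBasisIndex ℤ (𝓞 K) ≃ Fin pb.dim := Fintype.equivFinOfCardEq hc
  let b : Module.Basis (Fin pb.dim) ℚ K := (integralBasis K).reindex e
  let bb : Module.Basis (Fin pb.dim) ℤ (𝓞 K) := (RingOfIntegers.basis K).reindex e
  let M : Matrix (Fin pb.dim) (Fin pb.dim) ℤ := fun i j =>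
    (RingOfIntegers.basis K).repr (z ^ (j : ℕ)) (e.symm i)
  have hM : b.toMatrix pb.basis = M.map (Int.castRingHom ℚ) := by
    ext i j
    rw [Module.Basis.toMatrix_apply, pb.coe_basis, hgen, Matrix.map_apply]
    change ((integralBasis K).reindex e).repr ((z : K) ^ (j : ℕ)) i = _
    rw [Module.Basis.repr_reindex_apply]
    have h1 := integralBasis_repr_apply K (z ^ (j : ℕ)) (e.symm i)
    rw [map_pow] at h1
    exact h1
  refine ⟨M.det, ?_, ?_⟩
  · have h2 := Algebra.discr_of_matrix_vecMul (A := ℚ) (b : Fin pb.dim → K)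
      (b.toMatrix pb.basis)
    rw [Module.Basis.toMatrix_map_vecMul] at h2
    rw [h2, hM]
    have h3 : (M.map (Int.castRingHom ℚ)).det = (M.det : ℚ) := by
      have := (RingHom.map_det (Int.castRingHom ℚ) M)
      rw [RingHom.mapMatrix_apply] at this
      rw [← this]
      rfl
    have h4 : Algebra.discr ℚ (b : Fin pb.dim → K) = (discr K : ℚ) := by
      rw [coe_discr]
      have := Algebra.discr_reindex ℚ (integralBasis K) e
      rw [← this]
      congr 1
      exact Module.Basis.coe_reindex _ _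
    rw [h3, h4]
  · -- the powers of `z` in terms of the basis
    have hpow : ∀ j : Fin pb.dim, z ^ (j : ℕ) = ∑ i, M i j • bb i := by
      intro j
      exact (bb.sum_repr (z ^ (j : ℕ))).symm
    have hadj : ∀ i : Fin pb.dim, ((M.det : ℤ) : 𝓞 K) * bb i ∈ Algebra.adjoin ℤ {z} := by
      intro i
      have h6 : ((M.det : ℤ) : 𝓞 K) * bb i = ∑ j, M.adjugate j i • z ^ (j : ℕ) := by
        calc ((M.det : ℤ) : 𝓞 K) * bb i = ∑ i', (M * M.adjugate) i' i • bb i' := by
              rw [Matrix.mul_adjugate]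
              rw [Finset.sum_eq_single i]
              · rw [Matrix.smul_apply, Matrix.one_apply_eq, smul_eq_mul, mul_one, zsmul_eq_mul]
              · intro i' _ hne
                rw [Matrix.smul_apply, Matrix.one_apply_ne hne, smul_zero, zero_smul]
              · intro h; exact absurd (Finset.mem_univ _) h
          _ = ∑ i', ∑ j, (M i' j * M.adjugate j i) • bb i' := by
              refine Finset.sum_congr rfl fun i' _ => ?_
              rw [Matrix.mul_apply, Finset.sum_smul]
          _ = ∑ j, ∑ i', (M i' j * M.adjugate j i) • bb i' := Finset.sum_comm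
          _ = ∑ j, M.adjugate j i • z ^ (j : ℕ) := by
              refine Finset.sum_congr rfl fun j _ => ?_
              rw [hpow j, Finset.smul_sum]
              refine Finset.sum_congr rfl fun i' _ => ?_
              rw [smul_smul, mul_comm]
      rw [h6]
      refine Subalgebra.sum_mem _ fun j _ => ?_
      exact Subalgebra.zsmul_mem _ (Subalgebra.pow_mem _ (Algebra.self_mem_adjoin_singleton ℤ z) _) _
    intro x
    have h7 : ((M.det : ℤ) : 𝓞 K) * x = ∑ i, (bb.repr x i) • (((M.det : ℤ) : 𝓞 K) * bb i) := by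
      conv_lhs => rw [← bb.sum_repr x]
      rw [Finset.mul_sum]
      refine Finset.sum_congr rfl fun i _ => ?_
      rw [zsmul_eq_mul, zsmul_eq_mul]; ring
    rw [h7]
    exact Subalgebra.sum_mem _ fun i _ => Subalgebra.zsmul_mem _ (hadj i) _

/-- a small element of the inverse different -/
theorem exists_gamma {n : ℕ} (hK : Module.finrank ℚ K = n) {f : ℤ[X]} (hf : f.Monic)
    (hn : f.natDegree = n) (hn1 : 1 ≤ n) {t : ℤ} {α : K} (hα : IntermediateField.adjoin ℚ {α} = ⊤)
    (h0 : aeval α f = (t : K)) :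
    ∃ (β γ : 𝓞 K) (k R : ℕ), (β : K) = α ∧ k ≠ 0 ∧ R ≠ 0 ∧ R = k ^ 2 * (discr K).natAbs ∧
      R = (Algebra.norm ℤ (aeval β (derivative f))).natAbs ∧
      aeval β (derivative f) * γ = ((k * R : ℕ) : 𝓞 K) ∧
      ∀ x : 𝓞 K, (R : ℤ) ∣ Algebra.trace ℤ (𝓞 K) (γ * x) := by
  set g : ℤ[X] := f - C t with hg
  have hlt : (C t : ℤ[X]).degree < f.degree := by
    refine lt_of_le_of_lt degree_C_le ?_
    rw [← natDegree_pos_iff_degree_pos, hn]; omega
  have hgm : g.Monic := hf.sub_of_left hlt
  have hgn : g.natDegree = n := by rw [hg, natDegree_sub_C, hn]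
  have hg0 : aeval α g = 0 := by
    rw [hg, map_sub, h0, aeval_C]
    simp
  have hint : IsIntegral ℤ α := ⟨g, hgm, hg0⟩
  set β : 𝓞 K := ⟨α, hint⟩ with hβ
  have hβα : algebraMap (𝓞 K) K β = α := rfl
  have hQ : (minpoly ℚ α).natDegree = Module.finrank ℚ K := by
    rw [← IntermediateField.adjoin.finrank (IsIntegral.tower_top hint), hα,
      IntermediateField.finrank_top']
  have hmQ : minpoly ℚ α = (minpoly ℤ α).map (algebraMap ℤ ℚ) :=
    minpoly.isIntegrallyClosed_eq_field_fractions' ℚ hint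
  have hZ : (minpoly ℤ α).natDegree = Module.finrank ℚ K := by
    rw [← hQ, hmQ, (minpoly.monic hint).natDegree_map]
  have hgmin : g = minpoly ℤ α := by
    refine eq_of_monic_of_dvd_of_natDegree_le (minpoly.monic hint) hgm
      (minpoly.isIntegrallyClosed_dvd hint hg0) ?_
    rw [hgn, hZ, hK]
  have had : Algebra.adjoin ℚ {α} = ⊤ := by
    rw [← IntermediateField.adjoin_simple_toSubalgebra_of_isAlgebraic
      (Algebra.IsAlgebraic.isAlgebraic α), hα, IntermediateField.top_toSubalgebra]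
  have hder : derivative f = derivative (minpoly ℤ α) := by
    rw [← hgmin, hg, derivative_sub, derivative_C, sub_zero]
  have hderQ : (aeval α (derivative (minpoly ℚ α)) : K) = aeval α (derivative f) := by
    rw [hmQ, derivative_map, hder, aeval_map_algebraMap]
  set δ : 𝓞 K := aeval β (derivative f) with hδ
  have hδK : (δ : K) = aeval α (derivative f) := by
    rw [hδ]
    have := Polynomial.aeval_algebraMap_apply K β (derivative f)
    rw [hβα] at this
    exact this.symm
  have hδ0 : δ ≠ 0 := by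
    intro h
    have h1 : aeval α (derivative (minpoly ℚ α)) = (0 : K) := by
      rw [hderQ, ← hδK, h]; simp
    exact (Algebra.IsSeparable.isSeparable ℚ α).aeval_derivative_ne_zero (minpoly.aeval ℚ α) h1
  -- the index
  let pb : PowerBasis ℚ K := PowerBasis.ofAdjoinEqTop (IsIntegral.tower_top hint) had
  have hpb : pb.gen = (β : K) := PowerBasis.ofAdjoinEqTop_gen _ _
  obtain ⟨k, hk1, hk2⟩ := index_exists β pb hpb
  have hdisc := Algebra.discr_powerBasis_eq_norm ℚ pb
  rw [hpb] at hdisc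
  change Algebra.discr ℚ pb.basis = _ * Algebra.norm ℚ ((aeval α) (derivative (minpoly ℚ α))) at hdisc
  rw [hderQ, ← hδK] at hdisc
  have hnormQ : Algebra.norm ℚ (δ : K) = ((Algebra.norm ℤ δ : ℤ) : ℚ) := (Algebra.coe_norm_int δ).symm
  set R : ℕ := (Algebra.norm ℤ δ).natAbs with hR
  have hRne : R ≠ 0 := by
    rw [hR, Int.natAbs_ne_zero]
    exact Algebra.norm_ne_zero_iff.mpr hδ0
  have hRk : R = k.natAbs ^ 2 * (discr K).natAbs := by
    rw [hk1, hnormQ] at hdisc
    have h1 := congrArg abs hdisc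
    rw [abs_mul, abs_mul, abs_pow, abs_pow, abs_neg, abs_one, one_pow, one_mul] at h1
    have h2 : (R : ℚ) = |((Algebra.norm ℤ δ : ℤ) : ℚ)| := by
      rw [hR, Nat.cast_natAbs]; push_cast; rfl
    have h3 : ((k.natAbs ^ 2 * (discr K).natAbs : ℕ) : ℚ) = |(k : ℚ)| ^ 2 * |((discr K : ℤ) : ℚ)| := by
      push_cast
      rw [Nat.cast_natAbs, Nat.cast_natAbs]
      push_cast
      rfl
    have h4 : (R : ℚ) = ((k.natAbs ^ 2 * (discr K).natAbs : ℕ) : ℚ) := by
      rw [h2, h3, ← h1]
    exact_mod_cast h4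
  have hk0 : k.natAbs ≠ 0 := by
    intro h
    rw [h] at hRk
    apply hRne
    rw [hRk]; ring
  -- the norm is divisible by the element
  have hdvd : δ ∣ ((R : ℕ) : 𝓞 K) := by
    have h1 := Ideal.absNorm_mem (Ideal.span {δ})
    rw [Ideal.absNorm_span_singleton] at h1
    exact Ideal.mem_span_singleton.mp h1
  obtain ⟨δ', hδ'⟩ := hdvd
  refine ⟨β, ((k.natAbs : ℕ) : 𝓞 K) * δ', k.natAbs, R, rfl, hk0, hRne, hRk, rfl, ?_, ?_⟩
  · rw [Nat.cast_mul, hδ']; ring
  · intro x
    -- `k x` is a polynomial in `β`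
    have h1 : ((k.natAbs : ℕ) : 𝓞 K) * x ∈ Algebra.adjoin ℤ {β} := by
      have h2 := hk2 x
      rcases Int.natAbs_eq k with h | h
      · have e : (k : 𝓞 K) = ((k.natAbs : ℕ) : 𝓞 K) := by
          have := congrArg (Int.cast : ℤ → 𝓞 K) h
          rwa [Int.cast_natCast] at this
        rwa [e] at h2
      · have e : (k : 𝓞 K) = -((k.natAbs : ℕ) : 𝓞 K) := by
          have := congrArg (Int.cast : ℤ → 𝓞 K) h
          rwa [Int.cast_neg, Int.cast_natCast] at this
        rw [e, neg_mul] at h2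
        have h3 := Subalgebra.neg_mem _ h2
        rwa [neg_neg] at h3
    have h2 : ((((k.natAbs : ℕ) : 𝓞 K) * x : 𝓞 K) : K) ∈ Algebra.adjoin ℤ {α} := by
      let φ : 𝓞 K →ₐ[ℤ] K := (Algebra.ofId (𝓞 K) K).restrictScalars ℤ
      have h3 : φ (((k.natAbs : ℕ) : 𝓞 K) * x) ∈ (Algebra.adjoin ℤ {β}).map φ :=
        Subalgebra.mem_map.mpr ⟨_, h1, rfl⟩
      rw [AlgHom.map_adjoin_singleton] at h3
      exact h3
    -- the trace
    have h4 := traceForm_dualSubmodule_adjoin ℤ ℚ had hint
    have h5 : (δ : K)⁻¹ * ((((k.natAbs : ℕ) : 𝓞 K) * x : 𝓞 K) : K) ∈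
        (Algebra.traceForm ℚ K).dualSubmodule (Subalgebra.toSubmodule (Algebra.adjoin ℤ {α})) := by
      rw [h4, hderQ, ← hδK]
      exact Submodule.smul_mem_pointwise_smul _ _ _ h2
    rw [LinearMap.BilinForm.mem_dualSubmodule] at h5
    obtain ⟨s, hs⟩ := h5 1 (Subalgebra.one_mem _)
    rw [Algebra.traceForm_apply, mul_one] at hs
    refine ⟨s, ?_⟩
    have h6 : ((Algebra.trace ℤ (𝓞 K) (((k.natAbs : ℕ) : 𝓞 K) * δ' * x) : ℤ) : ℚ) =
        (R : ℚ) * s := by
      rw [Algebra.coe_trace_int]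
      have h7 : (((((k.natAbs : ℕ) : 𝓞 K) * δ' * x : 𝓞 K)) : K) =
          (R : ℚ) • ((δ : K)⁻¹ * ((((k.natAbs : ℕ) : 𝓞 K) * x : 𝓞 K) : K)) := by
        have h8 : (δ : K) ≠ 0 := by exact_mod_cast hδ0
        have h9 : ((R : ℕ) : K) = (δ : K) * (δ' : K) := by
          have := congrArg (algebraMap (𝓞 K) K) hδ'
          rw [map_natCast, map_mul] at this
          exact this
        rw [Algebra.smul_def, map_natCast, h9]
        push_cast
        field_simp
      have h10 : (LinearMap.toSpanSingleton ℤ ℚ 1) s = (s : ℚ) := by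
        rw [LinearMap.toSpanSingleton_apply, zsmul_eq_mul, mul_one]
      have hs' : Algebra.trace ℚ K ((δ : K)⁻¹ * ((((k.natAbs : ℕ) : 𝓞 K) * x : 𝓞 K) : K)) =
          (s : ℚ) := by
        rw [← h10]; exact hs.symm
      rw [h7, map_smul, smul_eq_mul, hs']
    exact_mod_cast h6

end Pool.Agent.Y159.PF
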