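import Pool.Agent.Y159.PF.Alt

set_option autoImplicit false

/-! Few parameters are bad for many primes. -/

namespace Pool.Agent.Y159.PF

open Polynomial NumberField Finset Pool.Agent.TH847.LG Pool.Agent.Y159.PT Pool.Agent.TH869.EVF
open scoped Classical nonZeroDivisors

theorem badF_empty {f : ℤ[X]} {l : ℕ} {a b c : ℝ} {t : ℤ} {p : ℕ} (ha : a < 1)
    (h : BadF f l a b c t p) : False := by
  obtain ⟨-, s, u, v, d, hs, hsa, -⟩ := h
  apply hs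
  have h1 : |(s : ℝ)| < 1 := lt_of_le_of_lt hsa ha
  have h2 : |s| < 1 := by exact_mod_cast h1
  rw [Int.abs_lt_one_iff] at h2
  rw [h2]
  exact dvd_zero _

/-- double counting -/
theorem double_count (S : Finset ℤ) (P : Finset ℕ) (B : ℤ → ℕ → Prop) (X q : ℝ) (hq : 0 < q)
    (hS : ∀ t ∈ S, (P.card : ℝ) / q < ((P.filter (fun p => B t p)).card : ℝ))
    (hP : ∀ p ∈ P, ((S.filter (fun t => B t p)).card : ℝ) ≤ X) (hP0 : 0 < P.card) :
    (S.card : ℝ) ≤ q * X := by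
  have h1 := Finset.sum_card_bipartiteAbove_eq_sum_card_bipartiteBelow (s := S) (t := P) (r := B)
  have h2 : (S.card : ℝ) * (P.card / q) ≤ ∑ t ∈ S, ((P.bipartiteAbove B t).card : ℝ) := by
    have := Finset.card_nsmul_le_sum S (fun t => ((P.bipartiteAbove B t).card : ℝ)) (P.card / q)
      (fun t ht => (hS t ht).le)
    rwa [nsmul_eq_mul] at this
  have h3 : ∑ p ∈ P, ((S.bipartiteBelow B p).card : ℝ) ≤ P.card * X := by
    have := Finset.sum_le_card_nsmul P (fun p => ((S.bipartiteBelow B p).card : ℝ)) X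
      (fun p hp => hP p hp)
    rwa [nsmul_eq_mul] at this
  have h4 : ∑ t ∈ S, ((P.bipartiteAbove B t).card : ℝ) =
      ∑ p ∈ P, ((S.bipartiteBelow B p).card : ℝ) := by exact_mod_cast h1
  have h5 : (S.card : ℝ) * (P.card / q) ≤ P.card * X := by linarith
  have hP0r : (0 : ℝ) < P.card := by exact_mod_cast hP0
  have h6 : (P.card : ℝ) * (S.card / q) ≤ P.card * X := by
    calc (P.card : ℝ) * (S.card / q) = S.card * (P.card / q) := by ring
      _ ≤ _ := h5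
  have h7 := le_of_mul_le_mul_left h6 hP0r
  rw [div_le_iff₀ hq] at h7
  linarith

/-- **Few parameters are bad for many primes.** -/
theorem level_bad (n l : ℕ) (hn : 3 ≤ n) (hl : 1 ≤ l) (η : ℝ) (hη : 0 < η) (ε : ℝ) (hε : 0 < ε) :
    ∃ C : ℝ, 0 < C ∧ ∀ δ : ℝ, 0 < δ → 4 * n * l * δ ≤ ε → ∀ H : ℕ, 1 ≤ H → ∀ f : ℤ[X],
    ∀ y : ℝ, 1 ≤ y → y ≤ (H : ℝ) ^ n → ∀ z : ℕ, y ^ (1 - δ) ≤ (Qz z).card →
    ∀ M : ℝ, 1 ≤ M → M ≤ (H : ℝ) ^ n → ∀ a : ℝ,
    a = 2 * n * M * (150 * y) ^ l / (η * (H : ℝ) ^ (n - 1)) → ∀ S : Finset ℤ,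
    (∀ t ∈ S, |t| ≤ (H : ℤ) ^ n ∧ ((Qz z).card : ℝ) / (16 * n) <
      (((Qz z).filter (fun p => BadF f l a (3 * H * a) (3 * H * (3 * H * a)) t p)).card : ℝ)) →
    (S.card : ℝ) ≤ C * (H : ℝ) ^ ε * ((M * y ^ l / (H : ℝ) ^ (n - 2)) *
      (M ^ 2 * y ^ l / (H : ℝ) ^ (2 * n - 4) + 1) * ((H : ℝ) ^ n / y ^ l + 1)) := by
  have hnr : (3 : ℝ) ≤ n := by exact_mod_cast hn
  have hlr : (1 : ℝ) ≤ l := by exact_mod_cast hl
  set δ' : ℝ := ε / (4 * (n + n * l)) with hδ'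
  have hδ'0 : 0 < δ' := by positivity
  obtain ⟨Cd, hCd0, hCd⟩ := div_rpow δ' hδ'0
  set ca : ℝ := 2 * n * 150 ^ l / η with hca
  have hca0 : 0 < ca := by positivity
  set cb : ℝ := 3 * ca with hcb
  have hcb0 : 0 < cb := by positivity
  refine ⟨16 * n * (3 * cb * (4 * cb ^ 2 + 1) * (2 * (Cd * (cb ^ 2) ^ δ')) * 2 * (2 ^ l) ^ 2),
    by positivity, ?_⟩
  intro δ hδ hδε H hH f y hy1 hyH z hz M hM1 hMH a ha S hS
  have hHr : (1 : ℝ) ≤ H := by exact_mod_cast hH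
  have hH0 : (0 : ℝ) < H := by linarith
  have hy0 : 0 < y := by linarith
  set Y : ℝ := y ^ l with hY
  have hY0 : 0 < Y := pow_pos hy0 l
  have hY1 : 1 ≤ Y := one_le_pow₀ hy1
  set h1 : ℝ := (H : ℝ) ^ (n - 2) with hh1
  have hh10 : 0 < h1 := by positivity
  have hh11 : 1 ≤ h1 := one_le_pow₀ hHr
  have hhn : (H : ℝ) ^ (n - 1) = H * h1 := by
    rw [hh1, ← pow_succ']; congr 1; omega
  have hh2 : (H : ℝ) ^ (2 * n - 4) = h1 ^ 2 := by
    rw [hh1, ← pow_mul]; congr 1; omega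
  rw [hh2]
  have haeq : a = ca * (M * Y / (H * h1)) := by
    rw [ha, hhn, hca, mul_pow, ← hY]
    field_simp
  have ha0 : 0 ≤ a := by rw [haeq]; positivity
  have hRHS : 0 ≤ (M * Y / h1) * (M ^ 2 * Y / h1 ^ 2 + 1) * ((H : ℝ) ^ n / Y + 1) := by positivity
  rcases S.eq_empty_or_nonempty with hSe | ⟨t0, ht0⟩
  · rw [hSe, Finset.card_empty, Nat.cast_zero]
    positivity
  rcases lt_or_ge a 1 with ha1 | ha1
  · exfalso
    have h2 := (hS t0 ht0).2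
    have h3 : ((Qz z).filter (fun p => BadF f l a (3 * H * a) (3 * H * (3 * H * a)) t0 p)) = ∅ := by
      rw [Finset.filter_eq_empty_iff]
      intro p _ hp
      exact badF_empty ha1 hp
    rw [h3, Finset.card_empty, Nat.cast_zero] at h2
    have : (0 : ℝ) ≤ ((Qz z).card : ℝ) / (16 * n) := by positivity
    linarith
  set b : ℝ := 3 * H * a with hb
  have hbeq : b = cb * (M * Y / h1) := by
    rw [hb, haeq, hcb]; field_simp
  have hb1 : 1 ≤ b := by rw [hb]; nlinarith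
  have hac : a * (3 * H * b) = b ^ 2 := by rw [hb]; ring
  have hyδ0 : 0 < y ^ (1 - δ) := Real.rpow_pos_of_pos hy0 _
  have hP0 : 0 < (Qz z).card := by
    have : (0 : ℝ) < (Qz z).card := by linarith
    exact_mod_cast this
  set e : ℝ := 2 ^ l * (H : ℝ) ^ ((n : ℝ) * l * δ) with he
  have he1 : 1 ≤ e := by
    have e1 : (1 : ℝ) ≤ 2 ^ l := one_le_pow₀ (by norm_num)
    have e2 : (1 : ℝ) ≤ (H : ℝ) ^ ((n : ℝ) * l * δ) := Real.one_le_rpow hHr (by positivity)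
    rw [he]; nlinarith
  -- the size of the primes
  have hpl : ∀ p ∈ Qz z, Y / e ≤ (p : ℝ) ^ l := by
    intro p hp
    have h2 := (mem_Qz hp).2.1
    have h3 := card_Qz z
    have h4 : y ^ (1 - δ) / 2 ≤ p := by linarith
    have h5 : (y ^ (1 - δ) / 2) ^ l ≤ (p : ℝ) ^ l := pow_le_pow_left₀ (by positivity) h4 l
    refine le_trans ?_ h5
    rw [div_pow, he, div_le_div_iff₀ (by positivity) (by positivity)]
    have h6 : Y = y ^ ((l : ℝ) * (1 - δ)) * y ^ ((l : ℝ) * δ) := by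
      rw [← Real.rpow_add hy0, hY, ← Real.rpow_natCast]; congr 1; ring
    have h7 : (y ^ (1 - δ)) ^ l = y ^ ((l : ℝ) * (1 - δ)) := by
      rw [← Real.rpow_natCast, ← Real.rpow_mul hy0.le]; congr 1; ring
    have h8 : y ^ ((l : ℝ) * δ) ≤ (H : ℝ) ^ ((n : ℝ) * l * δ) := by
      calc y ^ ((l : ℝ) * δ) ≤ ((H : ℝ) ^ n) ^ ((l : ℝ) * δ) :=
            Real.rpow_le_rpow hy0.le hyH (by positivity)
        _ = _ := by
            rw [← Real.rpow_natCast, ← Real.rpow_mul hH0.le]; congr 1; ring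
    rw [h7, h6]
    have h9 : 0 < y ^ ((l : ℝ) * (1 - δ)) := Real.rpow_pos_of_pos hy0 _
    calc y ^ ((l : ℝ) * (1 - δ)) * y ^ ((l : ℝ) * δ) * 2 ^ l
        ≤ y ^ ((l : ℝ) * (1 - δ)) * (H : ℝ) ^ ((n : ℝ) * l * δ) * 2 ^ l := by gcongr
      _ = _ := by ring
  -- the divisor bound
  set Dm : ℝ := Cd * ((cb ^ 2) ^ δ' * (H : ℝ) ^ (ε / 2)) with hDm
  have hDm0 : 0 ≤ Dm := by positivity
  have hDiv : ∀ x : ℕ, x ≠ 0 → (x : ℝ) ≤ a * (3 * H * b) → (x.divisors.card : ℝ) ≤ Dm := by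
    intro x hx hxle
    refine (hCd x hx).trans ?_
    rw [hDm]
    apply mul_le_mul_of_nonneg_left _ hCd0.le
    have h2 : (x : ℝ) ≤ cb ^ 2 * (H : ℝ) ^ (2 * (n + n * l)) := by
      rw [hac, hbeq] at hxle
      refine hxle.trans ?_
      rw [mul_pow]
      apply mul_le_mul_of_nonneg_left _ (by positivity)
      rw [mul_comm 2, pow_mul]
      apply pow_le_pow_left₀ (by positivity)
      rw [div_le_iff₀ hh10]
      have h3 : Y ≤ (H : ℝ) ^ (n * l) := by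
        rw [hY, pow_mul]
        exact pow_le_pow_left₀ hy0.le hyH l
      calc M * Y ≤ (H : ℝ) ^ n * (H : ℝ) ^ (n * l) := by gcongr
        _ = (H : ℝ) ^ (n + n * l) := by rw [pow_add]
        _ ≤ _ := le_mul_of_one_le_right (by positivity) hh11
    calc (x : ℝ) ^ δ' ≤ (cb ^ 2 * (H : ℝ) ^ (2 * (n + n * l))) ^ δ' :=
          Real.rpow_le_rpow (by positivity) h2 hδ'0.le
      _ = (cb ^ 2) ^ δ' * (H : ℝ) ^ (ε / 2) := by
          rw [Real.mul_rpow (by positivity) (by positivity)]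
          congr 1
          rw [← Real.rpow_natCast, ← Real.rpow_mul hH0.le]
          congr 1
          rw [hδ']; push_cast; field_simp; norm_num
  have hSN : ∀ t ∈ S, |t| ≤ ((H ^ n : ℕ) : ℤ) := by
    intro t ht
    push_cast
    exact (hS t ht).1
  have hcount := double_count S (Qz z) (fun t p => BadF f l a b (3 * H * b) t p)
    ((3 * b) * ((4 * b ^ 2) * (e / Y) + 1) * (2 * Dm) * (2 * (H : ℝ) ^ n * (e / Y) + 1)) (16 * n)
    (by positivity) (fun t ht => (hS t ht).2) (by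
      intro p hp
      have h2 := card_badF (f := f) (l := l) hl (mem_Qz hp).1 S hSN ha0 (by linarith : 0 ≤ b)
        (by positivity : 0 ≤ 3 * H * b) hDm0 hDiv
      have hplp := hpl p hp
      have hpl0 : 0 < (p : ℝ) ^ l := lt_of_lt_of_le (by positivity) hplp
      have hinv : 1 / (p : ℝ) ^ l ≤ e / Y := by
        rw [div_le_iff₀ (by positivity)] at hplp
        rw [div_le_div_iff₀ hpl0 hY0]
        linarith
      refine h2.trans ?_
      rw [hac]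
      have e1 : 2 * ((b ^ 2 + b ^ 2) / (p : ℝ) ^ l) + 1 ≤ (4 * b ^ 2) * (e / Y) + 1 := by
        have : 2 * ((b ^ 2 + b ^ 2) / (p : ℝ) ^ l) = (4 * b ^ 2) * (1 / (p : ℝ) ^ l) := by ring
        rw [this]
        gcongr
      have e2 : 2 * ((H ^ n : ℕ) : ℝ) / (p : ℝ) ^ l + 1 ≤ 2 * (H : ℝ) ^ n * (e / Y) + 1 := by
        have : 2 * ((H ^ n : ℕ) : ℝ) / (p : ℝ) ^ l = 2 * (H : ℝ) ^ n * (1 / (p : ℝ) ^ l) := by
          push_cast; ring
        rw [this]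
        gcongr
      have e3 : 2 * b + 1 ≤ 3 * b := by linarith
      have e4 : 0 ≤ 2 * ((b ^ 2 + b ^ 2) / (p : ℝ) ^ l) + 1 := by positivity
      have e5 : 0 ≤ b := by linarith
      gcongr) hP0
  refine hcount.trans ?_
  have e1 : (4 * b ^ 2) * (e / Y) + 1 ≤ (4 * cb ^ 2 + 1) * e * (M ^ 2 * Y / h1 ^ 2 + 1) := by
    rw [hbeq]
    have e2 : (4 * (cb * (M * Y / h1)) ^ 2) * (e / Y) = 4 * cb ^ 2 * e * (M ^ 2 * Y / h1 ^ 2) := by
      field_simp
    rw [e2]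
    have e3 : 0 ≤ M ^ 2 * Y / h1 ^ 2 := by positivity
    have e4 : 0 ≤ cb ^ 2 * e := by positivity
    nlinarith [mul_nonneg (by linarith : (0:ℝ) ≤ e) e3]
  have e2 : 2 * (H : ℝ) ^ n * (e / Y) + 1 ≤ 2 * e * ((H : ℝ) ^ n / Y + 1) := by
    have : 2 * (H : ℝ) ^ n * (e / Y) = 2 * e * ((H : ℝ) ^ n / Y) := by ring
    rw [this]
    nlinarith
  have e3 : e ^ 2 ≤ (2 ^ l) ^ 2 * (H : ℝ) ^ (ε / 2) := by
    rw [he, mul_pow]
    apply mul_le_mul_of_nonneg_left _ (by positivity)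
    rw [← Real.rpow_natCast, ← Real.rpow_mul hH0.le]
    apply Real.rpow_le_rpow_of_exponent_le hHr
    push_cast
    linarith
  have e4 : (H : ℝ) ^ (ε / 2) * (H : ℝ) ^ (ε / 2) = (H : ℝ) ^ ε := by
    rw [← Real.rpow_add hH0]; congr 1; ring
  set U : ℝ := M ^ 2 * Y / h1 ^ 2 + 1 with hU
  set V : ℝ := (H : ℝ) ^ n / Y + 1 with hV
  have hU0 : 0 ≤ U := by positivity
  have hV0 : 0 ≤ V := by positivity
  calc 16 * n * ((3 * b) * ((4 * b ^ 2) * (e / Y) + 1) * (2 * Dm) * (2 * (H : ℝ) ^ n * (e / Y) + 1))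
      ≤ 16 * n * ((3 * b) * ((4 * cb ^ 2 + 1) * e * U) * (2 * Dm) * (2 * e * V)) := by gcongr
    _ = 16 * n * ((3 * (cb * (M * Y / h1))) * ((4 * cb ^ 2 + 1) * U) * (2 * Dm) * (2 * V)) *
        e ^ 2 := by rw [hbeq]; ring
    _ ≤ 16 * n * ((3 * (cb * (M * Y / h1))) * ((4 * cb ^ 2 + 1) * U) * (2 * Dm) * (2 * V)) *
        ((2 ^ l) ^ 2 * (H : ℝ) ^ (ε / 2)) := by gcongr
    _ = 16 * n * (3 * cb * (4 * cb ^ 2 + 1) * (2 * (Cd * (cb ^ 2) ^ δ')) * 2 * (2 ^ l) ^ 2) *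
        ((H : ℝ) ^ (ε / 2) * (H : ℝ) ^ (ε / 2)) * ((M * Y / h1) * U * V) := by
        rw [hDm]; ring
    _ = _ := by rw [e4]

end Pool.Agent.Y159.PF
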