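import Pool.Agent.Y159.PF.Alt
import Pool.Agent.Y159.PT.Mom1

set_option autoImplicit false

/-! Combinatorial lemmas for the final summation. -/

namespace Pool.Agent.Y159.PF

open Finset Pool.Agent.Y159.PT
open scoped Classical

/-- decomposition into levels -/
theorem layer (S : Finset ℤ) (T : ℤ → ℝ) (k : ℤ → ℕ) (J : ℕ) (A : ℕ → ℝ) (hA : ∀ j, 0 ≤ A j)
    (hk : ∀ t ∈ S, 1 ≤ k t) (hT : ∀ t ∈ S, 0 ≤ T t) (h0 : ∀ t ∈ S, T t * k t ≤ A 0) :
    ∑ t ∈ S, T t ≤ S.card * A J + ∑ j ∈ range J,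
      A j * ∑ t ∈ S.filter (fun t => A (j + 1) < T t * k t), 1 / (k t : ℝ) := by
  have h1 : ∀ t ∈ S, T t ≤ A J + ∑ j ∈ range J,
      if A (j + 1) < T t * k t then A j * (1 / (k t : ℝ)) else 0 := by
    intro t ht
    have hk1 : (1 : ℝ) ≤ k t := by exact_mod_cast hk t ht
    have hk0 : (0 : ℝ) < k t := by linarith
    have h2 := levels J 1 (T t * k t) (mul_nonneg (hT t ht) hk0.le) A hA (h0 t ht)
    simp only [pow_one] at h2
    have h3 : T t = (T t * k t) * (1 / (k t : ℝ)) := by field_simp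
    have h4 : 0 ≤ 1 / (k t : ℝ) := by positivity
    have h5 : 1 / (k t : ℝ) ≤ 1 := by
      rw [div_le_one hk0]; exact hk1
    calc T t = (T t * k t) * (1 / (k t : ℝ)) := h3
      _ ≤ (A J + ∑ j ∈ range J, if A (j + 1) < T t * k t then A j else 0) * (1 / (k t : ℝ)) := by
          gcongr
      _ = A J * (1 / (k t : ℝ)) + ∑ j ∈ range J,
          if A (j + 1) < T t * k t then A j * (1 / (k t : ℝ)) else 0 := by
          rw [add_mul, Finset.sum_mul]
          congr 1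
          refine Finset.sum_congr rfl fun j _ => ?_
          rw [ite_mul, zero_mul]
      _ ≤ _ := by
          have := mul_le_mul_of_nonneg_left h5 (hA J)
          linarith
  refine (Finset.sum_le_sum h1).trans ?_
  rw [Finset.sum_add_distrib, Finset.sum_const, nsmul_eq_mul, Finset.sum_comm]
  apply add_le_add le_rfl
  refine Finset.sum_le_sum fun j _ => ?_
  rw [Finset.mul_sum, Finset.sum_filter]

/-- splitting according to the size of the index -/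
theorem dyadic_sum (G E : Finset ℤ) (k : ℤ → ℕ) (y Hs : ℝ) (hy : 0 < y) (hHs : 0 < Hs)
    (Bd : ℕ → ℤ → Prop) (L : ℕ) (hk : ∀ t ∈ G, 1 ≤ k t)
    (hG : ∀ t ∈ G, t ∈ E ∨ Bd (Nat.log 2 (k t)) t)
    (hL : ∀ t ∈ G, (k t : ℝ) * y < Hs → Nat.log 2 (k t) < L) :
    ∑ t ∈ G, 1 / (k t : ℝ) ≤ G.card * (y / Hs) + E.card + ∑ i ∈ range L, (1 / (2 : ℝ) ^ i) *
      ((G.filter (fun t => Nat.log 2 (k t) = i ∧ (k t : ℝ) * y < Hs ∧ Bd i t)).card : ℝ) := by
  have h1 : ∀ t ∈ G, 1 / (k t : ℝ) ≤ y / Hs + (if t ∈ E then 1 else 0) + ∑ i ∈ range L,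
      (if Nat.log 2 (k t) = i ∧ (k t : ℝ) * y < Hs ∧ Bd i t then 1 / (2 : ℝ) ^ i else 0) := by
    intro t ht
    have hk1 : (1 : ℝ) ≤ k t := by exact_mod_cast hk t ht
    have hk0 : (0 : ℝ) < k t := by linarith
    have p1 : 0 ≤ y / Hs := by positivity
    have p2 : (0 : ℝ) ≤ if t ∈ E then 1 else 0 := by split_ifs <;> norm_num
    have p3 : 0 ≤ ∑ i ∈ range L,
      (if Nat.log 2 (k t) = i ∧ (k t : ℝ) * y < Hs ∧ Bd i t then 1 / (2 : ℝ) ^ i else 0) := by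
      refine Finset.sum_nonneg fun i _ => ?_
      split_ifs
      · positivity
      · exact le_rfl
    rcases lt_or_ge ((k t : ℝ) * y) Hs with hlt | hge
    · rcases hG t ht with hE | hB
      · rw [if_pos hE]
        have : 1 / (k t : ℝ) ≤ 1 := by
          rw [div_le_one hk0]; exact hk1
        linarith
      · have hi := hL t ht hlt
        have h2 : (1 / (2 : ℝ) ^ (Nat.log 2 (k t))) ≤ ∑ i ∈ range L,
            (if Nat.log 2 (k t) = i ∧ (k t : ℝ) * y < Hs ∧ Bd i t then 1 / (2 : ℝ) ^ i else 0) := by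
          refine le_trans (le_of_eq ?_) (Finset.single_le_sum (fun i _ => ?_)
            (Finset.mem_range.mpr hi))
          · rw [if_pos ⟨rfl, hlt, hB⟩]
          · split_ifs
            · positivity
            · exact le_rfl
        have h3 : 1 / (k t : ℝ) ≤ 1 / (2 : ℝ) ^ (Nat.log 2 (k t)) := by
          apply one_div_le_one_div_of_le (by positivity)
          exact_mod_cast Nat.pow_log_le_self 2 (by have := hk t ht; omega)
        linarith
    · have : 1 / (k t : ℝ) ≤ y / Hs := by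
        rw [div_le_div_iff₀ hk0 hHs]
        linarith
      linarith
  refine (Finset.sum_le_sum h1).trans ?_
  rw [Finset.sum_add_distrib, Finset.sum_add_distrib, Finset.sum_const, nsmul_eq_mul,
    Finset.sum_comm]
  have h2 : ∑ t ∈ G, (if t ∈ E then (1 : ℝ) else 0) ≤ E.card := by
    rw [← Finset.sum_filter, Finset.sum_const, nsmul_eq_mul, mul_one]
    have : (G.filter (fun t => t ∈ E)).card ≤ E.card :=
      Finset.card_le_card fun t ht => (mem_filter.mp ht).2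
    exact_mod_cast this
  have h3 : ∑ i ∈ range L, ∑ t ∈ G,
      (if Nat.log 2 (k t) = i ∧ (k t : ℝ) * y < Hs ∧ Bd i t then 1 / (2 : ℝ) ^ i else 0) =
      ∑ i ∈ range L, (1 / (2 : ℝ) ^ i) *
      ((G.filter (fun t => Nat.log 2 (k t) = i ∧ (k t : ℝ) * y < Hs ∧ Bd i t)).card : ℝ) := by
    refine Finset.sum_congr rfl fun i _ => ?_
    rw [← Finset.sum_filter, Finset.sum_const, nsmul_eq_mul, mul_comm]
  rw [h3]
  linarith

/-- the exponents of the last term -/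
theorem exponents (n l : ℕ) (hn : 3 ≤ n) (hl : 3 ≤ l) (h s x η0 M y : ℝ) (hh : 1 ≤ h)
    (hsl : l * s ≤ 2 * n - 3) (hsn : s ≤ n / 3) (hx0 : 0 ≤ x) (hη0 : 0 ≤ η0) (hxs : x ≤ s)
    (hy : y = h ^ (x + η0)) (hM : 0 < M) (hMy : M * y ≤ h ^ s) :
    (y ^ l / h ^ (n - 2)) * (M ^ 2 * y ^ l / h ^ (2 * n - 4) + 1) * (h ^ n / y ^ l + 1) ≤
      4 * h ^ ((n : ℝ) - s + x + 2 * l * η0) := by
  have hnr : (3 : ℝ) ≤ n := by exact_mod_cast hn
  have hlr : (3 : ℝ) ≤ l := by exact_mod_cast hl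
  have hh0 : 0 < h := by linarith
  have hy0 : 0 < y := by rw [hy]; exact Real.rpow_pos_of_pos hh0 _
  have hY : y ^ l = h ^ ((l : ℝ) * (x + η0)) := by
    rw [hy, ← Real.rpow_natCast, ← Real.rpow_mul hh0.le]; congr 1; ring
  have e1 : h ^ (n - 2) = h ^ ((n : ℝ) - 2) := by
    rw [← Real.rpow_natCast, Nat.cast_sub (by omega)]; norm_num
  have e2 : h ^ (2 * n - 4) = h ^ (2 * (n : ℝ) - 4) := by
    rw [← Real.rpow_natCast, Nat.cast_sub (by omega)]; push_cast; norm_num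
  have e3 : h ^ n = h ^ (n : ℝ) := (Real.rpow_natCast _ _).symm
  have hM2 : M ^ 2 ≤ h ^ (2 * s - 2 * (x + η0)) := by
    have h1 : M ≤ h ^ (s - (x + η0)) := by
      rw [Real.rpow_sub hh0, le_div_iff₀ (Real.rpow_pos_of_pos hh0 _), ← hy]
      exact hMy
    calc M ^ 2 ≤ (h ^ (s - (x + η0))) ^ 2 := pow_le_pow_left₀ hM.le h1 2
      _ = _ := by rw [← Real.rpow_natCast, ← Real.rpow_mul hh0.le]; congr 1; push_cast; ring
  rw [hY, e1, e2, e3]
  have u1 : h ^ ((l : ℝ) * (x + η0)) / h ^ ((n : ℝ) - 2) =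
      h ^ ((l : ℝ) * (x + η0) - (n - 2)) := by rw [← Real.rpow_sub hh0]
  have u3 : h ^ (n : ℝ) / h ^ ((l : ℝ) * (x + η0)) = h ^ ((n : ℝ) - l * (x + η0)) := by
    rw [← Real.rpow_sub hh0]
  have u2 : M ^ 2 * h ^ ((l : ℝ) * (x + η0)) / h ^ (2 * (n : ℝ) - 4) ≤
      h ^ (2 * s - 2 * (x + η0) + l * (x + η0) - (2 * n - 4)) := by
    rw [Real.rpow_sub hh0 (2 * s - 2 * (x + η0) + l * (x + η0)) (2 * n - 4),
      Real.rpow_add hh0 (2 * s - 2 * (x + η0)) (l * (x + η0))]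
    gcongr
  rw [u1, u3]
  set q : ℝ := l * (x + η0) with hq
  have hX : ∀ u v : ℝ, h ^ u * h ^ v = h ^ (u + v) := fun u v => (Real.rpow_add hh0 u v).symm
  have hmono : ∀ u : ℝ, u ≤ (n : ℝ) - s + x + 2 * l * η0 →
      h ^ u ≤ h ^ ((n : ℝ) - s + x + 2 * l * η0) :=
    fun u hu => Real.rpow_le_rpow_of_exponent_le hh hu
  have hlx : (l - 3) * x ≤ (l - 3) * s := by
    apply mul_le_mul_of_nonneg_left hxs; linarith
  have hlη : 0 ≤ l * η0 := by positivity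
  have a1 := hmono (q - (n - 2) + (2 * s - 2 * (x + η0) + q - (2 * n - 4)) + (n - q)) (by
    rw [hq]; nlinarith)
  have a2 := hmono (q - (n - 2) + (2 * s - 2 * (x + η0) + q - (2 * n - 4))) (by
    rw [hq]; nlinarith)
  have a3 := hmono (q - (n - 2) + (n - q)) (by
    have : 0 ≤ l * η0 := hlη
    linarith)
  have a4 := hmono (q - (n - 2)) (by
    rw [hq]; nlinarith)
  calc h ^ (q - (n - 2)) * (M ^ 2 * h ^ q / h ^ (2 * (n : ℝ) - 4) + 1) * (h ^ ((n : ℝ) - q) + 1)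
      ≤ h ^ (q - (n - 2)) * (h ^ (2 * s - 2 * (x + η0) + q - (2 * n - 4)) + 1) *
        (h ^ ((n : ℝ) - q) + 1) := by gcongr
    _ = h ^ (q - (n - 2)) * h ^ (2 * s - 2 * (x + η0) + q - (2 * n - 4)) * h ^ ((n : ℝ) - q) +
        h ^ (q - (n - 2)) * h ^ (2 * s - 2 * (x + η0) + q - (2 * n - 4)) +
        h ^ (q - (n - 2)) * h ^ ((n : ℝ) - q) + h ^ (q - (n - 2)) := by ring
    _ ≤ _ := by
        rw [hX, hX, hX]
        linarith

/-- the size of the exceptional set for the supply of small primes -/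
theorem supply_exp (n m : ℕ) (h δ v y : ℝ) (hh : 1 ≤ h) (hδ0 : 0 < δ)
    (hv : 0 < v) (hm1 : (m : ℝ) * v ≤ n / 3) (hm2 : n / 3 ≤ (m + 1 : ℝ) * v) (hy : y = h ^ v) :
    h ^ n * y ^ (-((1 - δ) * m)) + y ^ (2 * m) ≤ 2 * h ^ (2 * (n : ℝ) / 3 + v + δ * n) := by
  have hh0 : 0 < h := by linarith
  have e1 : h ^ n * y ^ (-((1 - δ) * m)) = h ^ ((n : ℝ) + -((1 - δ) * (m * v))) := by
    rw [hy, ← Real.rpow_natCast, ← Real.rpow_mul hh0.le, ← Real.rpow_add hh0]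
    congr 1; ring
  have e2 : y ^ (2 * m) = h ^ (2 * (m * v)) := by
    rw [hy, ← Real.rpow_natCast, ← Real.rpow_mul hh0.le]
    congr 1; push_cast; ring
  have hn0 : (0 : ℝ) ≤ n := by positivity
  have hmv : 0 ≤ (m : ℝ) * v := by positivity
  rw [e1, e2]
  have a1 : h ^ ((n : ℝ) + -((1 - δ) * (m * v))) ≤ h ^ (2 * (n : ℝ) / 3 + v + δ * n) := by
    apply Real.rpow_le_rpow_of_exponent_le hh
    nlinarith
  have a2 : h ^ (2 * (m * v)) ≤ h ^ (2 * (n : ℝ) / 3 + v + δ * n) := by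
    apply Real.rpow_le_rpow_of_exponent_le hh
    nlinarith
  linarith

/-- the number of dyadic intervals -/
theorem log_count (n : ℕ) (ε : ℝ) (hε : 0 < ε) : ∃ C : ℝ, 0 < C ∧ ∀ H : ℕ, 1 ≤ H →
    ((Nat.log 2 (H ^ n) + 1 : ℕ) : ℝ) ≤ C * (H : ℝ) ^ ε := by
  have hlog2 : 0 < Real.log 2 := Real.log_pos (by norm_num)
  refine ⟨n / (Real.log 2 * ε) + 1, by positivity, ?_⟩
  intro H hH
  have hHr : (1 : ℝ) ≤ H := by exact_mod_cast hH
  have h1 : ((Nat.log 2 (H ^ n) : ℕ) : ℝ) ≤ Real.logb 2 ((H ^ n : ℕ) : ℝ) := by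
    exact_mod_cast Real.natLog_le_logb (H ^ n) 2
  have h2 : Real.logb 2 ((H ^ n : ℕ) : ℝ) = n * Real.log H / Real.log 2 := by
    rw [Real.logb]; push_cast; rw [Real.log_pow]
  have h3 : Real.log H ≤ (H : ℝ) ^ ε / ε := Real.log_le_rpow_div (by positivity) hε
  have h4 : (1 : ℝ) ≤ (H : ℝ) ^ ε := Real.one_le_rpow hHr hε.le
  rw [h2] at h1
  push_cast
  calc ((Nat.log 2 (H ^ n) : ℕ) : ℝ) + 1 ≤ n * ((H : ℝ) ^ ε / ε) / Real.log 2 + (H : ℝ) ^ ε := by
        have : (n : ℝ) * Real.log H / Real.log 2 ≤ n * ((H : ℝ) ^ ε / ε) / Real.log 2 := by gcongr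
        linarith
    _ = _ := by field_simp

end Pool.Agent.Y159.PF
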