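import Pool.Agent.Y159.PF.LevBad
import Pool.Agent.Y159.PF.Sum1

set_option autoImplicit false

/-! The mean value theorem. -/

namespace Pool.Agent.Y159.PF

open Polynomial NumberField Finset Pool.Agent.TH847.LG Pool.Agent.Y159.PT Pool.Agent.TH869.EVF Filter
open scoped Classical nonZeroDivisors

theorem card_le_three {N : ℕ} (hN : 1 ≤ N) (S : Finset ℤ) (hS : ∀ t ∈ S, |t| ≤ (N : ℤ)) :
    (S.card : ℝ) ≤ 3 * N := by
  have h1 : S ⊆ Finset.Icc (-(N : ℤ)) N := by
    intro t ht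
    rw [Finset.mem_Icc]
    exact abs_le.mp (hS t ht)
  have h2 := Finset.card_le_card h1
  rw [Int.card_Icc] at h2
  have h3 : S.card ≤ 3 * N := by omega
  exact_mod_cast h3

/-- **The mean value theorem.** -/
theorem mean_value (n l : ℕ) (hn : 3 ≤ n) (hl : 3 ≤ l) (η : ℝ) (hη : 0 < η) (ε : ℝ) (hε : 0 < ε) :
    ∃ C : ℝ, 0 < C ∧ ∀ H : ℕ, 1 ≤ H → ∀ f : ℤ[X], f.Monic → f.natDegree = n →
    (∀ i < n, |f.coeff i| ≤ (H : ℤ) ^ (n - i)) →
    ∀ (K : ℤ → Type) [∀ t, Field (K t)] [∀ t, NumberField (K t)] (α : ∀ t, K t) (S : Finset ℤ),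
    (∀ t ∈ S, |t| ≤ (H : ℤ) ^ n ∧ Module.finrank ℚ (K t) = n ∧
      IntermediateField.adjoin ℚ {α t} = ⊤ ∧ aeval (α t) f = (t : K t) ∧
      ∀ w : InfinitePlace (K t), η * (H : ℝ) ^ (n - 1) ≤ w (aeval (α t) (derivative f))) →
    ∑ t ∈ S, (Nat.card {c : ClassGroup (𝓞 (K t)) // c ^ l = 1} : ℝ) ≤
      C * (H : ℝ) ^ ((n : ℝ) + (n : ℝ) * (n - 1) / 2 -
        min ((2 * (n : ℝ) - 3) / l) ((n : ℝ) / 3) + ε) := by
  have hnr : (3 : ℝ) ≤ n := by exact_mod_cast hn
  have hlr : (3 : ℝ) ≤ l := by exact_mod_cast hl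
  set s : ℝ := min ((2 * (n : ℝ) - 3) / l) ((n : ℝ) / 3) with hs
  have hs0 : 0 < s := lt_min (div_pos (by linarith) (by linarith)) (by linarith)
  have hsn : s ≤ n / 3 := min_le_right _ _
  have hsl : l * s ≤ 2 * n - 3 := by
    have : s ≤ (2 * (n : ℝ) - 3) / l := min_le_left _ _
    rw [le_div_iff₀ (by linarith)] at this
    linarith
  set E0 : ℝ := (n : ℝ) * (n - 1) / 2 with hE0
  set ε1 : ℝ := ε / 5 with hε1
  have hε10 : 0 < ε1 := by positivity
  -- the number of levels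
  set J : ℕ := ⌈2 * l * s / ε1⌉₊ + 1 with hJ
  have hJ0 : (0 : ℝ) < J := by rw [hJ]; positivity
  have hJ1 : 2 * l * s / ε1 ≤ J := by
    have := Nat.le_ceil (2 * l * s / ε1)
    rw [hJ]; push_cast; linarith
  set η0 : ℝ := s / J with hη0
  have hη00 : 0 < η0 := by positivity
  have hJη : J * η0 = s := by rw [hη0]; field_simp
  have hlη : 2 * l * η0 ≤ ε1 := by
    rw [div_le_iff₀ hε10] at hJ1
    rw [hη0, ← mul_div_assoc, div_le_iff₀ hJ0]
    linarith
  have hηε : η0 ≤ ε1 := by nlinarith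
  -- the loss in the number of primes
  set δ : ℝ := min (ε1 / (4 * n * l)) (1 / 2) with hδ
  have hδ0 : 0 < δ := lt_min (by positivity) (by norm_num)
  have hδh : δ ≤ 1 / 2 := min_le_right _ _
  have hδl : 4 * n * l * δ ≤ ε1 := by
    have : δ ≤ ε1 / (4 * n * l) := min_le_left _ _
    rw [le_div_iff₀ (by positivity)] at this
    linarith
  have hδn : n * δ ≤ ε1 := by
    have : 0 ≤ n * δ := by positivity
    nlinarith
  obtain ⟨C1, hC10, hC1⟩ := single2 n (by omega) ε1 hε10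
  obtain ⟨C3, H3, hC30, hH31, hC3⟩ := alternatives n (by omega) C1 (η0 / 2) ε1 hC10
    (by positivity) hε10
  obtain ⟨CB, hCB0, hCB⟩ := level_bad n l hn (by omega) η hη ε1 hε10
  obtain ⟨CL, hCL0, hCL⟩ := log_count n ε1 hε10
  -- the number of primes used in the supply
  set m : ℕ → ℕ := fun j => ⌊(n : ℝ) / 3 / ((j + 1 : ℝ) * η0)⌋₊ with hm
  have hv0 : ∀ j : ℕ, 0 < (j + 1 : ℝ) * η0 := fun j => by positivity
  have hvs : ∀ j : ℕ, j < J → (j + 1 : ℝ) * η0 ≤ s := by
    intro j hj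
    have h1 : (j + 1 : ℝ) ≤ J := by exact_mod_cast hj
    rw [← hJη]
    gcongr
  have hm1 : ∀ j : ℕ, j < J → 1 ≤ m j := by
    intro j hj
    rw [hm]
    simp only
    rw [Nat.one_le_floor_iff, le_div_iff₀ (hv0 j), one_mul]
    exact (hvs j hj).trans hsn
  have hsup : ∀ j : ℕ, ∃ C Y0 : ℝ, 0 < C ∧ 1 ≤ Y0 ∧ (j < J → ∀ y : ℝ, Y0 ≤ y → ∃ z : ℕ,
      (z : ℝ) ≤ y ∧ y ^ (1 - δ) ≤ (Qz z).card ∧ ∀ f : ℤ[X], f.Monic → f.natDegree = n →
      ∀ N : ℕ, 1 ≤ N → ∀ S : Finset ℤ, (∀ t ∈ S, |t| ≤ N) →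
      ((S.filter (fun t => (((Qz z).filter (fun p => Rt f p (t : ZMod p))).card : ℝ) <
      (Qz z).card / (4 * n))).card : ℝ) ≤
      C * (N * y ^ (-((1 - δ) * (m j))) + y ^ (2 * (m j)))) := by
    intro j
    by_cases hj : j < J
    · obtain ⟨C, Y0, h1, h2, h3⟩ := supply n (m j) (by omega) (hm1 j hj) δ hδ0 hδh
      exact ⟨C, Y0, h1, h2, fun _ => h3⟩
    · exact ⟨1, 1, one_pos, le_rfl, fun h => absurd h hj⟩
  choose Cs Ys hCs hYs hCY using hsup
  set CS : ℝ := ∑ j ∈ range J, Cs j with hCS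
  set YS : ℝ := ∑ j ∈ range J, Ys j with hYS
  have hCS0 : ∀ j, j < J → Cs j ≤ CS := fun j hj =>
    Finset.single_le_sum (fun i _ => (hCs i).le) (mem_range.mpr hj)
  have hYS0 : ∀ j, j < J → Ys j ≤ YS := fun j hj =>
    Finset.single_le_sum (fun i _ => (by linarith [hYs i] : 0 ≤ Ys i)) (mem_range.mpr hj)
  obtain ⟨H4, hH4⟩ := eventually_atTop.mp ((tendsto_rpow_atTop hη00).eventually_ge_atTop YS)
  set C2 : ℝ := C1 + C3 with hC2
  have hC20 : 0 < C2 := by positivity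
  set HH : ℝ := max H3 H4 with hHH
  have hHH1 : 1 ≤ HH := hH31.trans (le_max_left _ _)
  have hCS00 : 0 ≤ CS := Finset.sum_nonneg fun j _ => (hCs j).le
  refine ⟨3 * C2 * HH ^ s + (3 * C2 + J * (3 * C2 + 2 * C2 * CS + 4 * C2 * CB * CL)),
    by positivity, ?_⟩
  intro H hH f hf hfn hco K _ _ α S hS
  have hHr : (1 : ℝ) ≤ H := by exact_mod_cast hH
  have hH0 : (0 : ℝ) < H := by linarith
  set h : ℝ := (H : ℝ) with hh
  set T : ℤ → ℝ := fun t => (Nat.card {c : ClassGroup (𝓞 (K t)) // c ^ l = 1} : ℝ) with hT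
  have hT0 : ∀ t, 0 ≤ T t := fun t => Nat.cast_nonneg _
  have hX : ∀ u v : ℝ, h ^ u * h ^ v = h ^ (u + v) := fun u v => (Real.rpow_add hH0 u v).symm
  have hmono : ∀ u v : ℝ, u ≤ v → h ^ u ≤ h ^ v :=
    fun u v huv => Real.rpow_le_rpow_of_exponent_le hHr huv
  -- choose the indices
  have hsing : ∀ t : ℤ, ∃ k R : ℕ, t ∈ S → k ≠ 0 ∧ R ≠ 0 ∧
      (R : ℝ) ≤ C1 * h ^ ((n : ℝ) * (n - 1)) ∧
      ∀ y a : ℝ, 0 < y → n * k * (150 * y) ^ l / (η * h ^ (n - 1)) ≤ a → ∀ P : Finset ℕ,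
      (∀ p ∈ P, p.Prime ∧ (p : ℝ) ≤ y) →
      T t * k *
        (((P.filter (fun p => Rt f p (t : ZMod p) ∧ ¬ p ∣ R ∧ ¬ (p : ℤ) ∣ f.eval 0 - t ∧
          ¬ BadF f l a (3 * h * a) (3 * h * (3 * h * a)) t p)).card : ℝ) + 1) ≤
        C1 * h ^ (E0 + ε1) := by
    intro t
    by_cases ht : t ∈ S
    · obtain ⟨h1, h2, h3, h4, h5⟩ := hS t ht
      obtain ⟨k, R, hk, hR, hRle, hmain⟩ := hC1 l (by omega) η hη H hH f hf hfn hco t h1 (K t) h2
        (α t) h3 h4 h5
      exact ⟨k, R, fun _ => ⟨hk, hR, hRle, hmain⟩⟩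
    · exact ⟨0, 0, fun h => absurd h ht⟩
  choose k R hkR using hsing
  have hk1 : ∀ t ∈ S, 1 ≤ k t := fun t ht => Nat.pos_of_ne_zero (hkR t ht).1
  set A : ℕ → ℝ := fun j => C2 * h ^ (E0 + 2 * ε1 - j * η0) with hA
  have hA0 : ∀ j, 0 ≤ A j := fun j => by positivity
  have hW0 : ∀ t ∈ S, T t * k t ≤ A 0 := by
    intro t ht
    obtain ⟨h1, h2, h3, h4⟩ := hkR t ht
    have h5 := h4 1 _ one_pos le_rfl ∅ (by intro p hp; simp at hp)
    rw [Finset.filter_empty, Finset.card_empty, Nat.cast_zero, zero_add, mul_one] at h5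
    refine h5.trans ?_
    rw [hA]
    simp only [Nat.cast_zero, zero_mul, sub_zero]
    have h6 := hmono (E0 + ε1) (E0 + 2 * ε1) (by linarith)
    have h7 : C1 ≤ C2 := by linarith
    gcongr
  have hSN : ∀ t ∈ S, |t| ≤ ((H ^ n : ℕ) : ℤ) := by
    intro t ht
    push_cast
    exact (hS t ht).1
  have hScard : (S.card : ℝ) ≤ 3 * h ^ (n : ℝ) := by
    have := card_le_three (N := H ^ n) (Nat.one_le_pow _ _ hH) S hSN
    rw [Real.rpow_natCast]
    push_cast at this
    exact this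
  set F : ℝ := h ^ ((n : ℝ) + E0 - s + ε) with hF
  have hF0 : 0 < F := Real.rpow_pos_of_pos hH0 _
  -- small heights
  rcases lt_or_ge h HH with hsmall | hlarge
  · have h1 : ∑ t ∈ S, T t ≤ S.card * A 0 := by
      have := Finset.sum_le_card_nsmul S T (A 0) (by
        intro t ht
        refine le_trans ?_ (hW0 t ht)
        have : (1 : ℝ) ≤ k t := by exact_mod_cast hk1 t ht
        exact le_mul_of_one_le_right (hT0 t) this)
      rwa [nsmul_eq_mul] at this
    have h2 : A 0 = C2 * h ^ (E0 + 2 * ε1) := by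
      rw [hA]; simp only [Nat.cast_zero, zero_mul, sub_zero]
    have h3 : h ^ s ≤ HH ^ s := Real.rpow_le_rpow hH0.le hsmall.le hs0.le
    calc ∑ t ∈ S, T t ≤ S.card * A 0 := h1
      _ ≤ (3 * h ^ (n : ℝ)) * (C2 * h ^ (E0 + 2 * ε1)) := by rw [h2]; gcongr
      _ = 3 * C2 * (h ^ s * h ^ ((n : ℝ) + E0 - s + 2 * ε1)) := by
          rw [hX, mul_mul_mul_comm, hX]; congr 2; ring
      _ ≤ 3 * C2 * (HH ^ s * F) := by
          have := hmono ((n : ℝ) + E0 - s + 2 * ε1) ((n : ℝ) + E0 - s + ε) (by linarith)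
          gcongr
      _ = (3 * C2 * HH ^ s) * F := by ring
      _ ≤ _ := by
          apply mul_le_mul_of_nonneg_right _ hF0.le
          have : 0 ≤ 3 * C2 + J * (3 * C2 + 2 * C2 * CS + 4 * C2 * CB * CL) := by positivity
          linarith
  have hlay := layer S T k J A hA0 hk1 (fun t _ => hT0 t) hW0
  refine hlay.trans ?_
  -- the last level
  have hlast : S.card * A J ≤ 3 * C2 * F := by
    have h1 : A J = C2 * h ^ (E0 + 2 * ε1 - s) := by
      rw [hA]; simp only; rw [hJη]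
    calc S.card * A J ≤ (3 * h ^ (n : ℝ)) * (C2 * h ^ (E0 + 2 * ε1 - s)) := by rw [h1]; gcongr
      _ = 3 * C2 * h ^ ((n : ℝ) + (E0 + 2 * ε1 - s)) := by rw [mul_mul_mul_comm, hX]
      _ ≤ 3 * C2 * F := by
          have := hmono ((n : ℝ) + (E0 + 2 * ε1 - s)) ((n : ℝ) + E0 - s + ε) (by linarith)
          gcongr
  have hlev : ∀ j ∈ range J, A j * ∑ t ∈ S.filter (fun t => A (j + 1) < T t * k t),
      1 / (k t : ℝ) ≤ (3 * C2 + 2 * C2 * CS + 4 * C2 * CB * CL) * F := by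
    intro j hj
    rw [mem_range] at hj
    set v : ℝ := (j + 1 : ℝ) * η0 with hv
    have hv0' : 0 < v := hv0 j
    have hvs' : v ≤ s := hvs j hj
    set y : ℝ := h ^ v with hy
    have hy1 : 1 ≤ y := Real.one_le_rpow hHr hv0'.le
    have hy0 : 0 < y := by linarith
    have hyn : y ≤ h ^ n := by
      rw [← Real.rpow_natCast]
      exact hmono _ _ (by linarith)
    have hYy : Ys j ≤ y := by
      have h1 := hH4 h ((le_max_right _ _).trans hlarge)
      have h2 : h ^ η0 ≤ y := hmono _ _ (by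
        rw [hv]
        have : (0 : ℝ) ≤ j := Nat.cast_nonneg j
        nlinarith)
      exact ((hYS0 j hj).trans h1).trans h2
    obtain ⟨z, hzy, hzc, hz⟩ := hCY j hj y hYy
    set P := Qz z with hP
    set a : ℕ → ℝ := fun i => 2 * n * (2 : ℝ) ^ i * (150 * y) ^ l / (η * h ^ (n - 1)) with ha
    set E : Finset ℤ := S.filter (fun t => ((P.filter (fun p => Rt f p (t : ZMod p))).card : ℝ) <
      P.card / (4 * n)) with hE
    set Bd : ℕ → ℤ → Prop := fun i t => (P.card : ℝ) / (16 * n) <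
      ((P.filter (fun p => BadF f l (a i) (3 * h * a i) (3 * h * (3 * h * a i)) t p)).card : ℝ)
      with hBd
    set G : Finset ℤ := S.filter (fun t => A (j + 1) < T t * k t) with hG
    have hGS : ∀ t ∈ G, t ∈ S := fun t ht => (mem_filter.mp ht).1
    have hPc : y * h ^ (-ε1) ≤ P.card := by
      refine le_trans ?_ hzc
      have h1 : y ^ (1 - δ) = y * y ^ (-δ) := by
        rw [sub_eq_add_neg, Real.rpow_add hy0, Real.rpow_one]
      rw [h1]
      apply mul_le_mul_of_nonneg_left _ hy0.le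
      rw [hy, ← Real.rpow_mul hH0.le]
      apply hmono
      have : v * δ ≤ n * δ := by
        apply mul_le_mul_of_nonneg_right _ hδ0.le
        linarith
      nlinarith
    have hPκ : h ^ (η0 / 2) ≤ (P.card : ℝ) := by
      refine le_trans ?_ hzc
      rw [hy, ← Real.rpow_mul hH0.le]
      apply hmono
      have h1 : η0 ≤ v := by
        rw [hv]
        have : (0 : ℝ) ≤ j := Nat.cast_nonneg j
        nlinarith
      nlinarith
    have hdich : ∀ t ∈ G, t ∈ E ∨ Bd (Nat.log 2 (k t)) t := by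
      intro t ht
      by_contra hcon
      push Not at hcon
      obtain ⟨hnE, hnB⟩ := hcon
      obtain ⟨htS, hlt⟩ := mem_filter.mp ht
      obtain ⟨g1, g2, g3, g4, g5⟩ := hS t htS
      obtain ⟨q1, q2, q3, q4⟩ := hkR t htS
      have hEt : P.card / (4 * n) ≤ ((P.filter (fun p => Rt f p (t : ZMod p))).card : ℝ) := by
        by_contra hc
        exact hnE (mem_filter.mpr ⟨htS, not_le.mp hc⟩)
      have hBt : ((P.filter (fun p => BadF f l (a (Nat.log 2 (k t))) (3 * h * a (Nat.log 2 (k t)))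
          (3 * h * (3 * h * a (Nat.log 2 (k t)))) t p)).card : ℝ) ≤ P.card / (16 * n) :=
        not_lt.mp hnB
      have hka : n * (k t : ℝ) * (150 * y) ^ l / (η * h ^ (n - 1)) ≤ a (Nat.log 2 (k t)) := by
        rw [ha]
        simp only
        have h1 : k t < 2 ^ (Nat.log 2 (k t) + 1) := Nat.lt_pow_succ_log_self (by norm_num) _
        have h2 : (k t : ℝ) ≤ 2 * (2 : ℝ) ^ (Nat.log 2 (k t)) := by
          have h3 : (k t : ℝ) < (2 : ℝ) ^ (Nat.log 2 (k t) + 1) := by exact_mod_cast h1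
          rw [pow_succ] at h3
          linarith
        have h3 : (n : ℝ) * k t ≤ 2 * n * (2 : ℝ) ^ (Nat.log 2 (k t)) := by nlinarith
        gcongr
      have hmn := q4 y _ hy0 hka P (fun p hp => ⟨(mem_Qz hp).1, by
        have h1 := (mem_Qz hp).2.2
        have h2 : (p : ℝ) ≤ z := by exact_mod_cast h1
        linarith⟩)
      have hres := hC3 l H ((le_max_left _ _).trans hlarge) f hco t g1
        (eval_zero_ne g2 hf hfn (by omega) g3 g4) (R t) q2 q3 (T t * k t) _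
        (mul_nonneg (hT0 t) (Nat.cast_nonneg _)) P (fun p hp => (mem_Qz hp).1) hPκ hmn hEt hBt
      have hW : T t * k t * (y * h ^ (-ε1)) ≤ C3 * h ^ (E0 + ε1) := by
        refine le_trans ?_ hres
        apply mul_le_mul_of_nonneg_left hPc
        exact mul_nonneg (hT0 t) (Nat.cast_nonneg _)
      have hAj : A (j + 1) * (y * h ^ (-ε1)) = C2 * h ^ (E0 + ε1) := by
        rw [hA]
        simp only
        rw [hy, hX, mul_assoc, hX]
        congr 2
        rw [hv]; push_cast; ring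
      have hyp : 0 < y * h ^ (-ε1) := by positivity
      have h1 : A (j + 1) * (y * h ^ (-ε1)) < T t * k t * (y * h ^ (-ε1)) :=
        mul_lt_mul_of_pos_right hlt hyp
      have h2 : C3 * h ^ (E0 + ε1) ≤ C2 * h ^ (E0 + ε1) := by
        have : C3 ≤ C2 := by linarith
        gcongr
      linarith
    set L : ℕ := Nat.log 2 (H ^ n) + 1 with hL
    have hLog : ∀ t ∈ G, (k t : ℝ) * y < h ^ s → Nat.log 2 (k t) < L := by
      intro t ht hlt
      have h1 : (k t : ℝ) < ((H ^ n : ℕ) : ℝ) := by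
        push_cast
        calc (k t : ℝ) ≤ k t * y := le_mul_of_one_le_right (Nat.cast_nonneg _) hy1
          _ < h ^ s := hlt
          _ ≤ h ^ (n : ℝ) := hmono _ _ (by linarith)
          _ = h ^ n := Real.rpow_natCast _ _
      have h2 : k t < H ^ n := by exact_mod_cast h1
      have h3 := Nat.log_mono_right (b := 2) h2.le
      rw [hL]
      omega
    have hhs : 0 < h ^ s := Real.rpow_pos_of_pos hH0 _
    have hdy := dyadic_sum G E k y (h ^ s) hy0 hhs Bd L (fun t ht => hk1 t (hGS t ht)) hdich hLog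
    -- first term
    have hGc : (G.card : ℝ) ≤ 3 * h ^ (n : ℝ) := by
      have h1 : (G.card : ℝ) ≤ S.card := by
        exact_mod_cast Finset.card_le_card (Finset.filter_subset _ _)
      linarith
    have ht1 : A j * (G.card * (y / h ^ s)) ≤ 3 * C2 * F := by
      calc A j * (G.card * (y / h ^ s)) ≤ A j * ((3 * h ^ (n : ℝ)) * (y / h ^ s)) := by
            have := hA0 j
            gcongr
        _ = 3 * C2 * (h ^ (E0 + 2 * ε1 - j * η0) * (h ^ (n : ℝ) * (h ^ v * h ^ (-s)))) := by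
            rw [hA, hy, div_eq_mul_inv, ← Real.rpow_neg hH0.le]
            ring
        _ = 3 * C2 * h ^ (E0 + 2 * ε1 - j * η0 + (n + (v + -s))) := by rw [hX, hX, hX]
        _ ≤ 3 * C2 * F := by
            have := hmono (E0 + 2 * ε1 - j * η0 + (n + (v + -s))) ((n : ℝ) + E0 - s + ε) (by
              rw [hv]; linarith)
            gcongr
    -- second term
    have ht2 : A j * E.card ≤ 2 * C2 * CS * F := by
      have h1 := hz f hf hfn (H ^ n) (Nat.one_le_pow _ _ hH) S hSN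
      have h2 : (m j : ℝ) * v ≤ n / 3 := by
        rw [← le_div_iff₀ hv0', hm]
        exact Nat.floor_le (by positivity)
      have h3 : (n : ℝ) / 3 ≤ (m j + 1 : ℝ) * v := by
        rw [← div_le_iff₀ hv0', hm]
        exact (Nat.lt_floor_add_one _).le
      have h4 := supply_exp n (m j) h δ v y hHr hδ0 hv0' h2 h3 rfl
      have h5 : (E.card : ℝ) ≤ CS * (2 * h ^ (2 * (n : ℝ) / 3 + v + δ * n)) := by
        calc (E.card : ℝ) ≤ Cs j * (((H ^ n : ℕ) : ℝ) * y ^ (-((1 - δ) * (m j))) +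
              y ^ (2 * (m j))) := h1
          _ = Cs j * (h ^ n * y ^ (-((1 - δ) * (m j))) + y ^ (2 * (m j))) := by push_cast; rfl
          _ ≤ CS * (2 * h ^ (2 * (n : ℝ) / 3 + v + δ * n)) := by
              have := hCS0 j hj
              have h6 : 0 ≤ h ^ n * y ^ (-((1 - δ) * (m j))) + y ^ (2 * (m j)) := by positivity
              gcongr
      calc A j * E.card ≤ A j * (CS * (2 * h ^ (2 * (n : ℝ) / 3 + v + δ * n))) := by
            have := hA0 j
            gcongr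
        _ = 2 * C2 * CS * (h ^ (E0 + 2 * ε1 - j * η0) * h ^ (2 * (n : ℝ) / 3 + v + δ * n)) := by
            rw [hA]; ring
        _ = 2 * C2 * CS * h ^ (E0 + 2 * ε1 - j * η0 + (2 * (n : ℝ) / 3 + v + δ * n)) := by rw [hX]
        _ ≤ 2 * C2 * CS * F := by
            have := hmono (E0 + 2 * ε1 - j * η0 + (2 * (n : ℝ) / 3 + v + δ * n))
              ((n : ℝ) + E0 - s + ε) (by
              rw [hv]; linarith)
            gcongr
    -- third term
    have ht3 : ∀ i ∈ range L, (1 / (2 : ℝ) ^ i) *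
        ((G.filter (fun t => Nat.log 2 (k t) = i ∧ (k t : ℝ) * y < h ^ s ∧ Bd i t)).card : ℝ) ≤
        CB * h ^ ε1 * (4 * h ^ ((n : ℝ) - s + j * η0 + 2 * l * η0)) := by
      intro i _
      set Si := G.filter (fun t => Nat.log 2 (k t) = i ∧ (k t : ℝ) * y < h ^ s ∧ Bd i t) with hSi
      rcases Si.eq_empty_or_nonempty with hemp | ⟨t0, ht0⟩
      · rw [hemp, Finset.card_empty, Nat.cast_zero, mul_zero]
        positivity
      obtain ⟨ht0G, hi, hky, -⟩ := mem_filter.mp ht0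
      have hM0 : (0 : ℝ) < 2 ^ i := by positivity
      have hMk : (2 : ℝ) ^ i ≤ k t0 := by
        rw [← hi]
        exact_mod_cast Nat.pow_log_le_self 2 (by have := hk1 t0 (hGS t0 ht0G); omega)
      have hMy : (2 : ℝ) ^ i * y ≤ h ^ s := by
        refine le_trans ?_ hky.le
        gcongr
      have hMn : (2 : ℝ) ^ i ≤ h ^ n := by
        calc (2 : ℝ) ^ i ≤ 2 ^ i * y := le_mul_of_one_le_right hM0.le hy1
          _ ≤ h ^ s := hMy
          _ ≤ h ^ (n : ℝ) := hmono _ _ (by linarith)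
          _ = h ^ n := Real.rpow_natCast _ _
      have h1 := hCB δ hδ0 hδl H hH f y hy1 hyn z hzc ((2 : ℝ) ^ i)
        (one_le_pow₀ (by norm_num)) hMn (a i) rfl Si (by
          intro t ht
          obtain ⟨htG, -, -, hB⟩ := mem_filter.mp ht
          exact ⟨(hS t (hGS t htG)).1, hB⟩)
      have h2 := exponents n l hn hl h s (j * η0) η0 ((2 : ℝ) ^ i) y hHr hsl hsn (by positivity)
        hη00.le (by rw [hv] at hvs'; linarith) (by rw [hy, hv]; congr 1; ring) hM0 hMy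
      calc (1 / (2 : ℝ) ^ i) * (Si.card : ℝ) ≤ (1 / (2 : ℝ) ^ i) * (CB * h ^ ε1 *
            ((2 ^ i * y ^ l / h ^ (n - 2)) * ((2 ^ i) ^ 2 * y ^ l / h ^ (2 * n - 4) + 1) *
            (h ^ n / y ^ l + 1))) := by gcongr
        _ = CB * h ^ ε1 * ((y ^ l / h ^ (n - 2)) * ((2 ^ i) ^ 2 * y ^ l / h ^ (2 * n - 4) + 1) *
            (h ^ n / y ^ l + 1)) := by
            field_simp
        _ ≤ _ := by gcongr
    have ht3' : A j * ∑ i ∈ range L, (1 / (2 : ℝ) ^ i) *
        ((G.filter (fun t => Nat.log 2 (k t) = i ∧ (k t : ℝ) * y < h ^ s ∧ Bd i t)).card : ℝ) ≤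
        4 * C2 * CB * CL * F := by
      have h1 := Finset.sum_le_card_nsmul (range L) _ _ ht3
      rw [card_range, nsmul_eq_mul] at h1
      have h2 := hCL H hH
      calc A j * _ ≤ A j * ((L : ℝ) * (CB * h ^ ε1 *
            (4 * h ^ ((n : ℝ) - s + j * η0 + 2 * l * η0)))) :=
            mul_le_mul_of_nonneg_left h1 (hA0 j)
        _ ≤ A j * ((CL * h ^ ε1) * (CB * h ^ ε1 *
            (4 * h ^ ((n : ℝ) - s + j * η0 + 2 * l * η0)))) := by
            have := hA0 j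
            gcongr
        _ = 4 * C2 * CB * CL * (h ^ (E0 + 2 * ε1 - j * η0) * (h ^ ε1 * (h ^ ε1 *
            h ^ ((n : ℝ) - s + j * η0 + 2 * l * η0)))) := by rw [hA]; ring
        _ = 4 * C2 * CB * CL * h ^ (E0 + 2 * ε1 - j * η0 + (ε1 + (ε1 +
            ((n : ℝ) - s + j * η0 + 2 * l * η0)))) := by rw [hX, hX, hX]
        _ ≤ 4 * C2 * CB * CL * F := by
            have := hmono (E0 + 2 * ε1 - j * η0 + (ε1 + (ε1 +
              ((n : ℝ) - s + j * η0 + 2 * l * η0)))) ((n : ℝ) + E0 - s + ε) (by linarith)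
            gcongr
    calc A j * ∑ t ∈ G, 1 / (k t : ℝ) ≤ A j * (G.card * (y / h ^ s) + E.card +
          ∑ i ∈ range L, (1 / (2 : ℝ) ^ i) *
          ((G.filter (fun t => Nat.log 2 (k t) = i ∧ (k t : ℝ) * y < h ^ s ∧ Bd i t)).card : ℝ)) :=
          mul_le_mul_of_nonneg_left hdy (hA0 j)
      _ = A j * (G.card * (y / h ^ s)) + A j * E.card + A j * ∑ i ∈ range L, (1 / (2 : ℝ) ^ i) *
          ((G.filter (fun t => Nat.log 2 (k t) = i ∧ (k t : ℝ) * y < h ^ s ∧ Bd i t)).card : ℝ) := by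
          ring
      _ ≤ 3 * C2 * F + 2 * C2 * CS * F + 4 * C2 * CB * CL * F := by linarith
      _ = _ := by ring
  have hsum := Finset.sum_le_card_nsmul (range J) _ _ hlev
  rw [card_range, nsmul_eq_mul] at hsum
  calc S.card * A J + ∑ j ∈ range J, A j * ∑ t ∈ S.filter (fun t => A (j + 1) < T t * k t),
        1 / (k t : ℝ) ≤ 3 * C2 * F + J * ((3 * C2 + 2 * C2 * CS + 4 * C2 * CB * CL) * F) := by
        linarith
    _ = (3 * C2 + J * (3 * C2 + 2 * C2 * CS + 4 * C2 * CB * CL)) * F := by ring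
    _ ≤ _ := by
        apply mul_le_mul_of_nonneg_right _ hF0.le
        have : 0 ≤ 3 * C2 * HH ^ s := by positivity
        linarith

end Pool.Agent.Y159.PF
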