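import Pool.Agent.Y159.PF.Size

set_option autoImplicit false

/-! The small-prime inequality for one member of the family. -/

namespace Pool.Agent.Y159.PF

open Polynomial NumberField Finset Pool.Agent.TH847.LG Pool.Agent.Y159.PT Pool.Agent.TH869.EVF
open scoped Classical nonZeroDivisors

variable {K : Type} [Field K] [NumberField K]

theorem eval_zero_ne {n : ℕ} (hK : Module.finrank ℚ K = n) {f : ℤ[X]} (hf : f.Monic)
    (hn : f.natDegree = n) (hn2 : 2 ≤ n) {t : ℤ} {α : K}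
    (hα : IntermediateField.adjoin ℚ {α} = ⊤) (h0 : aeval α f = (t : K)) : f.eval 0 - t ≠ 0 := by
  intro hcon
  set g : ℤ[X] := f - C t with hg
  have hlt : (C t : ℤ[X]).degree < f.degree := by
    refine lt_of_le_of_lt degree_C_le ?_
    rw [← natDegree_pos_iff_degree_pos, hn]; omega
  have hgm : g.Monic := hf.sub_of_left hlt
  have hgn : g.natDegree = n := by rw [hg, natDegree_sub_C, hn]
  have hg0 : aeval α g = 0 := by
    rw [hg, map_sub, h0, aeval_C]
    simp
  have hint : IsIntegral ℤ α := ⟨g, hgm, hg0⟩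
  have hQ : (minpoly ℚ α).natDegree = Module.finrank ℚ K := by
    rw [← IntermediateField.adjoin.finrank (IsIntegral.tower_top hint), hα,
      IntermediateField.finrank_top']
  have hmQ : minpoly ℚ α = (minpoly ℤ α).map (algebraMap ℤ ℚ) :=
    minpoly.isIntegrallyClosed_eq_field_fractions' ℚ hint
  have hZ : (minpoly ℤ α).natDegree = Module.finrank ℚ K := by
    rw [← hQ, hmQ, (minpoly.monic hint).natDegree_map]
  have hgmin : g = minpoly ℤ α := by
    refine eq_of_monic_of_dvd_of_natDegree_le (minpoly.monic hint) hgm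
      (minpoly.isIntegrallyClosed_dvd hint hg0) ?_
    rw [hgn, hZ, hK]
  have h1 : (minpoly ℤ α).coeff 0 = 0 := by
    rw [← hgmin, hg, coeff_zero_eq_eval_zero, eval_sub, eval_C]
    exact hcon
  have h2 : (minpoly ℚ α).coeff 0 = 0 := by
    rw [hmQ, coeff_map, h1, map_zero]
  have h3 : α = 0 := (minpoly.coeff_zero_eq_zero (IsIntegral.tower_top hint)).mp h2
  rw [h3, minpoly.zero, natDegree_X, hK] at hQ
  omega

theorem single (n : ℕ) (hn2 : 2 ≤ n) (δ : ℝ) (hδ : 0 < δ) : ∃ C : ℝ, 0 < C ∧ ∀ l : ℕ, 1 ≤ l →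
    ∀ η : ℝ, 0 < η → ∀ H : ℕ, 1 ≤ H → ∀ f : ℤ[X], f.Monic → f.natDegree = n →
    (∀ i < n, |f.coeff i| ≤ (H : ℤ) ^ (n - i)) → ∀ t : ℤ, |t| ≤ (H : ℤ) ^ n →
    ∀ (K : Type) [Field K] [NumberField K], Module.finrank ℚ K = n → ∀ α : K,
    IntermediateField.adjoin ℚ {α} = ⊤ → aeval α f = (t : K) →
    (∀ w : InfinitePlace K, η * (H : ℝ) ^ (n - 1) ≤ w (aeval α (derivative f))) →
    ∃ k R : ℕ, k ≠ 0 ∧ R ≠ 0 ∧ R = k ^ 2 * (discr K).natAbs ∧
      (R : ℝ) ≤ (n ^ 2 * 3 ^ n * (H : ℝ) ^ (n - 1)) ^ n ∧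
      ∀ y a : ℝ, 0 < y → n * k * (150 * y) ^ l / (η * (H : ℝ) ^ (n - 1)) ≤ a → ∀ P : Finset ℕ,
      (∀ p ∈ P, p.Prime ∧ (p : ℝ) ≤ y) →
      (Nat.card {c : ClassGroup (𝓞 K) // c ^ l = 1} : ℝ) *
        (((P.filter (fun p => Rt f p (t : ZMod p) ∧ ¬ p ∣ R ∧ ¬ (p : ℤ) ∣ f.eval 0 - t ∧
          ¬ BadF f l a (3 * H * a) (3 * H * (3 * H * a)) t p)).card : ℝ) + 1) ≤
        C * ((discr K).natAbs : ℝ) ^ (1 / 2 + δ : ℝ) := by
  obtain ⟨C, hC0, hC⟩ := tor_sep n hn2 δ hδ
  refine ⟨C, hC0, ?_⟩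
  intro l hl η hη H hH f hf hn hco t ht K _ _ hK α hα h0 hder
  obtain ⟨β, γ, k, R, hβα, hk0, hR0, hRk, hRn, hγ, htr⟩ :=
    exists_gamma hK hf hn (by omega) hα h0
  have hHr : (1 : ℝ) ≤ H := by exact_mod_cast hH
  set Q : ℝ := η * (H : ℝ) ^ (n - 1) with hQ
  have hQ0 : 0 < Q := by positivity
  have hβf : aeval β f = ((t : ℤ) : 𝓞 K) := by
    apply RingOfIntegers.ext
    have h1 := Polynomial.aeval_algebraMap_apply K β f
    change ((aeval β f : 𝓞 K) : K) = _
    have h2 : aeval (algebraMap (𝓞 K) K β) f = ((aeval β f : 𝓞 K) : K) := h1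
    rw [← h2]
    change aeval (β : K) f = _
    rw [hβα, h0]
    simp
  have hβd : ((aeval β (derivative f) : 𝓞 K) : K) = aeval α (derivative f) := by
    have h1 := Polynomial.aeval_algebraMap_apply K β (derivative f)
    have h2 : aeval (algebraMap (𝓞 K) K β) (derivative f) =
      ((aeval β (derivative f) : 𝓞 K) : K) := h1
    rw [← h2]
    change aeval (β : K) _ = _
    rw [hβα]
  -- sizes
  have hemb : ∀ (w : InfinitePlace K) (F : ℤ[X]), w (aeval α F) = ‖aeval (w.embedding α) F‖ := by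
    intro w F
    rw [← InfinitePlace.norm_embedding_eq]
    congr 1
    have := Polynomial.hom_eval₂ F (algebraMap ℤ K) w.embedding α
    rw [aeval_def, this, aeval_def]
    congr 1
    exact RingHom.ext_int _ _
  have hroot : ∀ w : InfinitePlace K, ‖w.embedding α‖ ≤ 3 * H := by
    intro w
    refine root_le (by omega) hf hn hH hco ht ?_
    have := Polynomial.hom_eval₂ f (algebraMap ℤ K) w.embedding α
    rw [aeval_def] at h0
    rw [h0, map_intCast] at this
    rw [aeval_def, this]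
    congr 1
    exact RingHom.ext_int _ _
  have hBβ : ∀ w : InfinitePlace K, w (β : K) ≤ 3 * H := by
    intro w
    rw [hβα, ← InfinitePlace.norm_embedding_eq]
    exact hroot w
  have hRle : (R : ℝ) ≤ (n ^ 2 * 3 ^ n * (H : ℝ) ^ (n - 1)) ^ n := by
    rw [hRn]
    refine norm_le_pow hK _ ?_
    intro w
    rw [hβd, hemb]
    exact der_le (by omega) hf hn hH hco (hroot w)
  have hGγ : ∀ w : InfinitePlace K, w (γ : K) ≤ k * R / Q := by
    intro w
    rw [le_div_iff₀ hQ0]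
    have h1 := congrArg (fun x : 𝓞 K => w (x : K)) hγ
    have e1 : (((aeval β (derivative f)) * γ : 𝓞 K) : K) =
        ((aeval β (derivative f) : 𝓞 K) : K) * (γ : K) := by push_cast; rfl
    have e2 : ((((k * R : ℕ) : 𝓞 K)) : K) = ((k * R : ℕ) : K) := by push_cast; rfl
    rw [e1, e2, map_mul, hβd, ← InfinitePlace.norm_embedding_eq w ((k * R : ℕ) : K),
      map_natCast, Complex.norm_natCast] at h1
    have h2 := hder w
    have h3 : 0 ≤ w (γ : K) := apply_nonneg _ _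
    calc w (γ : K) * Q ≤ w (γ : K) * w (aeval α (derivative f)) := by gcongr
      _ = ((k * R : ℕ) : ℝ) := by rw [mul_comm, h1]
      _ = k * R := by push_cast; ring
  have hnormγ : ∀ p : ℕ, p.Prime → ¬ p ∣ R → ¬ p ∣ (Algebra.norm ℤ γ).natAbs := by
    intro p hp hpR h
    apply hpR
    have h1 := congrArg (Algebra.norm ℤ) hγ
    rw [map_mul] at h1
    have h2 : Algebra.norm ℤ (((k * R : ℕ) : 𝓞 K)) = ((k * R : ℕ) : ℤ) ^ n := by
      have := Algebra.norm_algebraMap (R := ℤ) (S := 𝓞 K) ((k * R : ℕ) : ℤ)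
      rw [RingOfIntegers.rank, hK] at this
      rw [← this]
      simp
    rw [h2] at h1
    have h3 := congrArg Int.natAbs h1
    rw [Int.natAbs_mul, Int.natAbs_pow, Int.natAbs_natCast] at h3
    have h4 : p ∣ (k * R) ^ n := by
      rw [← h3]
      exact h.mul_left _
    have h5 := hp.dvd_of_dvd_pow h4
    rcases (Nat.Prime.dvd_mul hp).mp h5 with h6 | h6
    · rw [hRk]
      exact (h6.trans (dvd_pow_self k two_ne_zero)).mul_right _
    · exact h6
  refine ⟨k, R, hk0, hR0, hRk, hRle, ?_⟩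
  intro y a hy ha P hP
  have hRr : (0 : ℝ) < R := by exact_mod_cast Nat.pos_of_ne_zero hR0
  have hkr : (0 : ℝ) ≤ k := by positivity
  refine hC l hl K hK _ ?_ ?_
  · intro p hp
    rw [mem_filter] at hp
    obtain ⟨hpP, ⟨r, hr1, hr2⟩, -, -, -⟩ := hp
    have hpp := (hP p hpP).1
    refine ⟨hpp, ?_⟩
    have hlt : (Polynomial.C t : ℤ[X]).degree < f.degree := by
      refine lt_of_le_of_lt degree_C_le ?_
      rw [← natDegree_pos_iff_degree_pos, hn]; omega
    refine norm_of_root (f - Polynomial.C t) (hf.sub_of_left hlt) (by rw [natDegree_sub_C, hn, hK])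
      α hα ?_ p hpp r ?_ ?_
    · rw [map_sub, h0, aeval_C]; simp
    · rw [eval₂_sub, hr1, eval₂_C]; simp
    · rw [derivative_sub, derivative_C, sub_zero]; exact hr2
  · intro p hp q hq hpq P' J Q' R' hP' hPJ hQ' hQR z hz0 hz hw
    rw [mem_filter] at hp hq
    obtain ⟨hpP, -, hpR, hpt, hpB⟩ := hp
    obtain ⟨hqP, -, -, -, -⟩ := hq
    obtain ⟨hpp, hpy⟩ := hP p hpP
    obtain ⟨hqp, hqy⟩ := hP q hqP
    have hpD : ¬ p ∣ (discr K).natAbs := fun h => hpR (by rw [hRk]; exact h.mul_left _)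
    have hw' : ∀ w : InfinitePlace K, w (z : K) ≤ (150 * y) ^ l := by
      intro w
      refine (hw w).trans ?_
      have : ((max p q : ℕ) : ℝ) ≤ y := by
        rw [Nat.cast_max]
        exact max_le hpy hqy
      gcongr
    obtain ⟨s, u, v, d, h1, h2, h3, h4, h5, h6, h7⟩ := collision_f hK hl hβf htr hpp hqp hpq hP' hPJ
      hpD hpR (hnormγ p hpp hpR) hQ' hz (by positivity : (0 : ℝ) ≤ 3 * H)
      (by positivity : 0 ≤ (k : ℝ) * R / Q) hw' hBβ hGγ
    apply hpB
    have hkey : n * ((k : ℝ) * R / Q * (150 * y) ^ l) ≤ a * R := by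
      have e : n * ((k : ℝ) * R / Q * (150 * y) ^ l) = (n * k * (150 * y) ^ l / Q) * R := by
        field_simp
      rw [e]
      gcongr
    refine ⟨hpt, s, u, v, d, h1, ?_, ?_, ?_, h5, h6, h7⟩
    · exact le_of_mul_le_mul_right (h2.trans hkey) hRr
    · refine le_of_mul_le_mul_right (h3.trans ?_) hRr
      calc n * (3 * (H : ℝ) * ((k : ℝ) * R / Q * (150 * y) ^ l))
          = 3 * H * (n * ((k : ℝ) * R / Q * (150 * y) ^ l)) := by ring
        _ ≤ 3 * H * (a * R) := by gcongr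
        _ = _ := by ring
    · refine le_of_mul_le_mul_right (h4.trans ?_) hRr
      calc n * (3 * (H : ℝ) * (3 * H * ((k : ℝ) * R / Q * (150 * y) ^ l)))
          = 3 * H * (3 * H) * (n * ((k : ℝ) * R / Q * (150 * y) ^ l)) := by ring
        _ ≤ 3 * H * (3 * H) * (a * R) := by gcongr
        _ = _ := by ring

end Pool.Agent.Y159.PF
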