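import Pool.Agent.Y159.PF.Bad
import Pool.Agent.Y159.PF.Rts

set_option autoImplicit false

/-! Sizes of the roots. -/

namespace Pool.Agent.Y159.PF

open Polynomial NumberField Finset Pool.Agent.TH847.LG Pool.Agent.Y159.PT
open scoped nonZeroDivisors

theorem geom_third (n : ℕ) : ∑ i ∈ range n, ((1 : ℝ) / 3) ^ (n - i) ≤ 1 / 2 := by
  have h1 : ∑ i ∈ range n, ((1 : ℝ) / 3) ^ (n - i) = ∑ j ∈ range n, ((1 : ℝ) / 3) ^ (j + 1) := by
    rw [← Finset.sum_range_reflect (fun j => ((1 : ℝ) / 3) ^ (j + 1))]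
    refine Finset.sum_congr rfl fun i hi => ?_
    rw [mem_range] at hi
    congr 1
    omega
  rw [h1]
  have h2 : ∀ n : ℕ, ∑ j ∈ range n, ((1 : ℝ) / 3) ^ (j + 1) = (1 - (1 / 3) ^ n) / 2 := by
    intro n
    induction n with
    | zero => simp
    | succ n ih => rw [Finset.sum_range_succ, ih]; ring
  rw [h2]
  have : (0 : ℝ) ≤ (1 / 3) ^ n := by positivity
  linarith

/-- roots are small -/
theorem root_le {n : ℕ} (hn1 : 1 ≤ n) {f : ℤ[X]} (hf : f.Monic) (hn : f.natDegree = n) {H : ℕ}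
    (hH : 1 ≤ H) (hco : ∀ i < n, |f.coeff i| ≤ (H : ℤ) ^ (n - i)) {t : ℤ} (ht : |t| ≤ (H : ℤ) ^ n)
    {x : ℂ} (hx : aeval x f = (t : ℂ)) : ‖x‖ ≤ 3 * H := by
  by_contra hcon
  push Not at hcon
  have hHr : (1 : ℝ) ≤ H := by exact_mod_cast hH
  set X : ℝ := ‖x‖ with hX
  have hX0 : 0 < X := by linarith
  have hHX : (H : ℝ) ≤ X / 3 := by linarith
  have h1 : aeval x f = ∑ i ∈ range n, (f.coeff i : ℂ) * x ^ i + x ^ n := by
    rw [aeval_eq_sum_range, hn, Finset.sum_range_succ]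
    have : f.coeff n = 1 := by rw [← hn]; exact hf
    rw [this]
    simp
  have h2 : x ^ n = (t : ℂ) - ∑ i ∈ range n, (f.coeff i : ℂ) * x ^ i := by
    rw [← hx, h1]; ring
  have h3 : X ^ n ≤ (H : ℝ) ^ n + ∑ i ∈ range n, (H : ℝ) ^ (n - i) * X ^ i := by
    calc X ^ n = ‖x ^ n‖ := by rw [norm_pow]
      _ = ‖(t : ℂ) - ∑ i ∈ range n, (f.coeff i : ℂ) * x ^ i‖ := by rw [h2]
      _ ≤ ‖(t : ℂ)‖ + ‖∑ i ∈ range n, (f.coeff i : ℂ) * x ^ i‖ := norm_sub_le _ _
      _ ≤ (H : ℝ) ^ n + ∑ i ∈ range n, (H : ℝ) ^ (n - i) * X ^ i := by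
          refine add_le_add ?_ ?_
          · rw [Complex.norm_intCast]
            exact_mod_cast ht
          · refine norm_sum_le_of_le _ fun i hi => ?_
            rw [mem_range] at hi
            rw [norm_mul, norm_pow, Complex.norm_intCast]
            have h4 : |((f.coeff i : ℤ) : ℝ)| ≤ (H : ℝ) ^ (n - i) := by exact_mod_cast hco i hi
            gcongr
  have h4 : ∀ i ∈ range n, (H : ℝ) ^ (n - i) * X ^ i ≤ X ^ n * (1 / 3) ^ (n - i) := by
    intro i hi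
    rw [mem_range] at hi
    calc (H : ℝ) ^ (n - i) * X ^ i ≤ (X / 3) ^ (n - i) * X ^ i := by gcongr
      _ = (X ^ (n - i) * X ^ i) * (1 / 3) ^ (n - i) := by rw [div_pow, one_div, inv_pow]; ring
      _ = X ^ n * (1 / 3) ^ (n - i) := by
          rw [← pow_add]
          congr 2
          omega
  have h5 := Finset.sum_le_sum h4
  rw [← Finset.mul_sum] at h5
  have h6 := geom_third n
  have h7 : (H : ℝ) ^ n ≤ X ^ n / 3 := by
    calc (H : ℝ) ^ n ≤ (X / 3) ^ n := by gcongr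
      _ = X ^ n / 3 ^ n := div_pow _ _ _
      _ ≤ X ^ n / 3 := by
          have : (3 : ℝ) ≤ 3 ^ n := le_self_pow₀ (by norm_num) (by omega)
          gcongr
  have h8 : 0 < X ^ n := by positivity
  have h9 : X ^ n * ∑ i ∈ range n, ((1 : ℝ) / 3) ^ (n - i) ≤ X ^ n * (1 / 2) := by gcongr
  linarith

/-- the derivative is not large -/
theorem der_le {n : ℕ} (hn1 : 1 ≤ n) {f : ℤ[X]} (hf : f.Monic) (hn : f.natDegree = n) {H : ℕ}
    (hH : 1 ≤ H) (hco : ∀ i < n, |f.coeff i| ≤ (H : ℤ) ^ (n - i))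
    {x : ℂ} (hx : ‖x‖ ≤ 3 * H) : ‖aeval x (derivative f)‖ ≤ n ^ 2 * 3 ^ n * (H : ℝ) ^ (n - 1) := by
  have hHr : (1 : ℝ) ≤ H := by exact_mod_cast hH
  have h1 : aeval x (derivative f) = ∑ i ∈ range n, ((derivative f).coeff i : ℂ) * x ^ i := by
    have h2 : (derivative f).natDegree < n := by
      have := natDegree_derivative_le f
      omega
    rw [aeval_def, eval₂_eq_sum_range' _ h2]
    simp
  rw [h1]
  have h2 : ∀ i ∈ range n, ‖((derivative f).coeff i : ℂ) * x ^ i‖ ≤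
      n * 3 ^ n * (H : ℝ) ^ (n - 1) := by
    intro i hi
    rw [mem_range] at hi
    rw [norm_mul, norm_pow, Complex.norm_intCast, coeff_derivative]
    have h3 : |((f.coeff (i + 1) : ℤ) : ℝ)| ≤ (H : ℝ) ^ (n - 1 - i) := by
      rcases Nat.lt_or_ge (i + 1) n with h | h
      · have h4 := hco (i + 1) h
        have e : n - (i + 1) = n - 1 - i := by omega
        rw [e] at h4
        exact_mod_cast h4
      · have e : i + 1 = n := by omega
        have e2 : n - 1 - i = 0 := by omega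
        have h4 : f.coeff n = 1 := by rw [← hn]; exact hf
        rw [e, h4, e2]
        simp
    have h4 : |(((f.coeff (i + 1) * ((i : ℤ) + 1) : ℤ)) : ℝ)| ≤ (H : ℝ) ^ (n - 1 - i) * n := by
      push_cast
      rw [abs_mul]
      have h5 : |((i : ℝ) + 1)| ≤ n := by
        rw [abs_of_nonneg (by positivity)]
        exact_mod_cast hi
      gcongr
    have h5 : ‖x‖ ^ i ≤ (3 * H) ^ i := by gcongr
    have h6 : (3 : ℝ) ^ i ≤ 3 ^ n := pow_le_pow_right₀ (by norm_num) hi.le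
    calc |(((f.coeff (i + 1) * ((i : ℤ) + 1) : ℤ)) : ℝ)| * ‖x‖ ^ i
        ≤ ((H : ℝ) ^ (n - 1 - i) * n) * (3 * H) ^ i := by gcongr
      _ = n * 3 ^ i * ((H : ℝ) ^ (n - 1 - i) * (H : ℝ) ^ i) := by rw [mul_pow]; ring
      _ = n * 3 ^ i * (H : ℝ) ^ (n - 1) := by
          rw [← pow_add]
          congr 2
          omega
      _ ≤ n * 3 ^ n * (H : ℝ) ^ (n - 1) := by gcongr
  refine (norm_sum_le_of_le _ h2).trans ?_
  rw [Finset.sum_const, card_range, nsmul_eq_mul]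
  apply le_of_eq
  ring

variable {K : Type} [Field K] [NumberField K]

/-- the norm of an element with bounded absolute values -/
theorem norm_le_pow {n : ℕ} (hn : Module.finrank ℚ K = n) (w : 𝓞 K) {B : ℝ}
    (hB : ∀ v : InfinitePlace K, v (w : K) ≤ B) :
    (((Algebra.norm ℤ w).natAbs : ℕ) : ℝ) ≤ B ^ n := by
  have h1 : ((Algebra.norm ℤ w : ℤ) : ℂ) = ∏ σ : K →ₐ[ℚ] ℂ, σ (w : K) := by
    have h2 : ((Algebra.norm ℤ w : ℤ) : ℚ) = Algebra.norm ℚ (w : K) := by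
      rw [Algebra.coe_norm_int]
    have h3 := Algebra.norm_eq_prod_embeddings (K := ℚ) (L := K) ℂ (w : K)
    rw [← h3, ← h2]
    simp
  have h2 : (((Algebra.norm ℤ w).natAbs : ℕ) : ℝ) = ‖((Algebra.norm ℤ w : ℤ) : ℂ)‖ := by
    rw [Complex.norm_intCast, Nat.cast_natAbs]
    push_cast
    rfl
  rw [h2, h1, norm_prod]
  have h3 : ∀ σ ∈ (Finset.univ : Finset (K →ₐ[ℚ] ℂ)), ‖σ (w : K)‖ ≤ B := by
    intro σ _
    have := hB (InfinitePlace.mk σ.toRingHom)
    simpa using this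
  refine (Finset.prod_le_prod (fun _ _ => norm_nonneg _) h3).trans ?_
  rw [Finset.prod_const, Finset.card_univ, AlgHom.card, hn]

end Pool.Agent.Y159.PF
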